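import Pool.Agent.H373R2.T7.Minor

/-!
# The exponential sum over the primes on the minor arcs, with a saving of a small power of `exp l`
-/

set_option autoImplicit false

namespace Pool.Agent.P8H13.PK

open Finset
open Pool.Agent.H807R2.Dav
open Pool.Agent.H373R2.T7 (block_lin)

/-- the weight `log p` at the primes -/
noncomputable def th (n : ℕ) : ℝ := if n.Prime then Real.log n else 0

lemma th_nonneg (n : ℕ) : 0 ≤ th n := by
  unfold th
  split_ifs with h
  · exact Real.log_nonneg (by exact_mod_cast h.one_le)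
  · exact le_rfl

lemma th_le (n : ℕ) : th n ≤ ArithmeticFunction.vonMangoldt n := by
  unfold th
  split_ifs with h
  · rw [ArithmeticFunction.vonMangoldt_apply_prime h]
  · exact ArithmeticFunction.vonMangoldt_nonneg

lemma th_le_log (n : ℕ) : th n ≤ Real.log n := (th_le n).trans ArithmeticFunction.vonMangoldt_le_log

lemma th_le_of_le {n N : ℕ} (h : n ≤ N) : th n ≤ Real.log N := by
  rcases Nat.eq_zero_or_pos n with rfl | hn
  · have : th 0 = 0 := by unfold th; simp [Nat.not_prime_zero]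
    rw [this]
    exact Real.log_natCast_nonneg _
  · exact (th_le_log n).trans (Real.log_le_log (by exact_mod_cast hn) (by exact_mod_cast h))

lemma sum_La_sub_th {N : ℕ} (hN : 1 ≤ N) :
    ∑ n ∈ Icc 1 N, (ArithmeticFunction.vonMangoldt n - th n) ≤ 2 * √(N : ℝ) * Real.log N := by
  have h := Chebyshev.psi_sub_theta_le (x := (N : ℝ)) (by exact_mod_cast hN)
  unfold Chebyshev.psi Chebyshev.theta at h
  rw [Nat.floor_natCast, sum_filter, ← sum_sub_distrib] at h
  have e : Icc 1 N = Ioc 0 N := by ext x; rw [mem_Icc, mem_Ioc]; omega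
  rw [e]
  exact h

lemma sum_La_le (N : ℕ) : ∑ n ∈ Icc 1 N, ArithmeticFunction.vonMangoldt n ≤ N * Real.log N := by
  have h1 : ∀ n ∈ Icc 1 N, ArithmeticFunction.vonMangoldt n ≤ Real.log N := by
    intro n hn
    rw [mem_Icc] at hn
    exact ArithmeticFunction.vonMangoldt_le_log.trans
      (Real.log_le_log (by exact_mod_cast hn.1) (by exact_mod_cast hn.2))
  refine (sum_le_sum h1).trans ?_
  rw [sum_const, Nat.card_Icc, nsmul_eq_mul, Nat.add_sub_cancel]

lemma norm_sum_La_le (N : ℕ) (α : ℝ) :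
    ‖∑ n ∈ Icc 1 N, ((ArithmeticFunction.vonMangoldt n : ℝ) : ℂ) * ee ((n : ℝ) * α)‖ ≤ N * Real.log N := by
  refine (norm_sum_le _ _).trans ?_
  refine le_trans (le_of_eq ?_) (sum_La_le N)
  apply sum_congr rfl
  intro n _
  rw [norm_mul, norm_ee, mul_one, Complex.norm_real, Real.norm_of_nonneg ArithmeticFunction.vonMangoldt_nonneg]

/-- from blocks to intervals -/
lemma dyadic (f : ℕ → ℂ) {N V : ℕ} {B S0 : ℝ} (hV : 2 ≤ V) (hB0 : 0 ≤ B)
    (hS0 : ∀ n ≤ V, ‖∑ m ∈ Icc 1 n, f m‖ ≤ S0)
    (hB : ∀ M n : ℕ, V ≤ 2 * M → M ≤ n → n ≤ 2 * M → n ≤ N → ‖∑ m ∈ Ioc M n, f m‖ ≤ B) :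
    ∀ n : ℕ, 1 ≤ n → n ≤ N → ‖∑ m ∈ Icc 1 n, f m‖ ≤ 4 * Real.log n * B + S0 := by
  intro n
  induction n using Nat.strong_induction_on with
  | _ n ih =>
    intro hn1 hnN
    have hn0 : (0 : ℝ) < n := by exact_mod_cast hn1
    have hlog : 0 ≤ Real.log n := Real.log_natCast_nonneg _
    by_cases hnV : n ≤ V
    · have := hS0 n hnV
      have h2 : 0 ≤ 4 * Real.log n * B := by positivity
      linarith
    · push Not at hnV
      set M := (n + 1) / 2 with hM
      have hM1 : 1 ≤ M := by omega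
      have hMn : M < n := by omega
      have hM2 : n ≤ 2 * M := by omega
      have h1 := ih M hMn hM1 (by omega)
      have h2 := hB M n (by omega) (by omega) hM2 hnN
      have h3 : ∑ m ∈ Icc 1 n, f m = ∑ m ∈ Icc 1 M, f m + ∑ m ∈ Ioc M n, f m := by
        rw [← sum_union]
        · congr 1
          ext x
          simp only [mem_union, mem_Icc, mem_Ioc]
          omega
        · rw [disjoint_left]
          intro x hx hx'
          rw [mem_Icc] at hx
          rw [mem_Ioc] at hx'
          omega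
      rw [h3]
      refine (norm_add_le _ _).trans ?_
      have h4 : Real.log M ≤ Real.log n - 1 / 4 := by
        have e1 : (M : ℝ) ≤ 3 / 4 * n := by
          have : 4 * M ≤ 3 * n := by omega
          have h' : (4 : ℝ) * M ≤ 3 * n := by exact_mod_cast this
          linarith
        have e2 : Real.log M ≤ Real.log (3 / 4 * n) := Real.log_le_log (by exact_mod_cast hM1) e1
        rw [Real.log_mul (by norm_num) hn0.ne'] at e2
        have e3 : Real.log (3 / 4) ≤ 3 / 4 - 1 := Real.log_le_sub_one_of_pos (by norm_num)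
        linarith
      have h5 : 4 * Real.log M * B ≤ (4 * Real.log n - 1) * B := by
        apply mul_le_mul_of_nonneg_right _ hB0
        linarith
      linarith

/-- **minor arcs** -/
theorem minor_La {l : ℝ} (hl : 1 ≤ l) {N : ℕ} (hN : Real.exp (100 * l) ≤ N)
    (hL : (10 : ℝ) ^ 8 * Real.log N ^ 10 ≤ Real.exp (l / 100)) {q : ℕ} (hq1 : Real.exp (l / 2) ≤ q)
    (hq2 : (q : ℝ) ≤ N * Real.exp (-(3 * l))) {c : ℤ} (hcop : IsCoprime c (q : ℤ)) {α : ℝ}
    (hα : |α - c / q| ≤ 1 / (q : ℝ) ^ 2) {n : ℕ} (hn : n ≤ N) :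
    ‖∑ m ∈ Icc 1 n, ((ArithmeticFunction.vonMangoldt m : ℝ) : ℂ) * ee ((m : ℝ) * α)‖ ≤
      N * Real.exp (-(6 * l / 25)) := by
  rcases Nat.eq_zero_or_pos n with rfl | hn1
  · simp; positivity
  have hN0 : (0 : ℝ) < N := (Real.exp_pos _).trans_le hN
  set L := Real.log N with hLd
  have hL1 : 1 ≤ L := by
    have h1 : 100 * l ≤ L := by rw [hLd, Real.le_log_iff_exp_le hN0]; exact hN
    linarith
  have hL100 : 100 * l ≤ L := by rw [hLd, Real.le_log_iff_exp_le hN0]; exact hN
  have hq0 : (0 : ℝ) < q := (Real.exp_pos _).trans_le hq1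
  have hqn : 1 ≤ q := by exact_mod_cast (Nat.cast_pos.1 hq0)
  have hqr : (1 : ℝ) ≤ q := by exact_mod_cast hqn
  have hqN : (q : ℝ) ≤ N := hq2.trans (by
    have : Real.exp (-(3 * l)) ≤ 1 := by rw [Real.exp_le_one_iff]; linarith
    nlinarith)
  have hlq : Real.log q ≤ L := Real.log_le_log hq0 hqN
  have hlq0 : 0 ≤ Real.log q := Real.log_nonneg hqr
  set U : ℕ := ⌈Real.exp l⌉₊ with hU
  have hel : 1 ≤ Real.exp l := Real.one_le_exp (by linarith)
  have hU1 : Real.exp l ≤ U := Nat.le_ceil _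
  have hU2 : (U : ℝ) ≤ 2 * Real.exp l := by
    have := Nat.ceil_lt_add_one (Real.exp_pos l).le
    linarith
  have hUn : 1 ≤ U := by
    have : (1 : ℝ) ≤ U := hel.trans hU1
    exact_mod_cast this
  have hU0 : (0 : ℝ) < U := by exact_mod_cast hUn
  have hUU : (U : ℝ) * U ≤ 4 * Real.exp (2 * l) := by
    have : Real.exp (2 * l) = Real.exp l * Real.exp l := by rw [← Real.exp_add]; ring_nf
    rw [this]
    nlinarith
  have e4 : (4 : ℝ) ≤ Real.exp (2 * l) := by
    have := Real.add_one_le_exp (2 * l)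
    have h2 : Real.exp (2 * l) = Real.exp l * Real.exp l := by rw [← Real.exp_add]; ring_nf
    have h3 : 2 ≤ Real.exp l := by have := Real.add_one_le_exp l; linarith
    rw [h2]; nlinarith
  have hUUN : (U : ℝ) * U ≤ N := by
    refine hUU.trans (le_trans ?_ hN)
    calc 4 * Real.exp (2 * l) ≤ Real.exp (2 * l) * Real.exp (2 * l) := by nlinarith [Real.exp_pos (2 * l)]
      _ = Real.exp (4 * l) := by rw [← Real.exp_add]; ring_nf
      _ ≤ Real.exp (100 * l) := Real.exp_le_exp.2 (by linarith)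
  -- logarithms
  have hlog2 : (0.69 : ℝ) ≤ Real.log 2 := by have := Real.log_two_gt_d9; linarith
  have hlogUU : (Nat.log 2 (U * U) : ℝ) ≤ 2 * L := by
    have h1 : (Nat.log 2 (U * U) : ℝ) * Real.log 2 ≤ Real.log (U * U : ℕ) := by
      rw [← Real.log_pow]
      apply Real.log_le_log (by positivity)
      exact_mod_cast Nat.pow_log_le_self 2 (by positivity)
    have h2 : Real.log (U * U : ℕ) ≤ L := by
      apply Real.log_le_log (by push_cast; positivity)
      push_cast; exact hUUN
    have h0 : (0 : ℝ) ≤ Nat.log 2 (U * U) := Nat.cast_nonneg _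
    nlinarith
  -- the block bound
  set B : ℝ := 1000000 * L ^ 6 * (N * Real.exp (-(l / 4))) with hB
  have hB0 : 0 ≤ B := by positivity
  have hX : Real.exp (-(l / 2)) = Real.exp (-(l / 4)) ^ 2 := by
    rw [← Real.exp_nat_mul]; congr 1; push_cast; ring
  have hblock : ∀ M n : ℕ, U * U ≤ 2 * M → M ≤ n → n ≤ 2 * M → n ≤ N → U * U ≤ M →
      ‖∑ m ∈ Ioc M n, ((ArithmeticFunction.vonMangoldt m : ℝ) : ℂ) * ee ((m : ℝ) * α)‖ ≤ B := by
    intro M n' _ hMn hn2 hnN hUM
    have hM1 : 1 ≤ M := le_trans (Nat.mul_le_mul hUn hUn) hUM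
    have hMr : (1 : ℝ) ≤ M := by exact_mod_cast hM1
    have hMN : (M : ℝ) ≤ N := by exact_mod_cast hMn.trans hnN
    have h1 := block_lin hqn hcop hα M n' U hM1 hMn hn2 hUn hUM
    refine h1.trans ?_
    have hl4 : 1 + Real.log (4 * (M : ℝ)) ≤ 4 * L := by
      have e1 : Real.log (4 * (M : ℝ)) ≤ Real.log (4 * N) := Real.log_le_log (by positivity) (by linarith)
      rw [Real.log_mul (by norm_num) hN0.ne'] at e1
      have e2 : Real.log 4 ≤ 2 := by
        have : Real.log 4 = 2 * Real.log 2 := by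
          rw [show (4 : ℝ) = 2 ^ 2 by norm_num, Real.log_pow]; norm_num
        rw [this]; have := Real.log_two_lt_d9; linarith
      linarith
    have hl40 : 0 ≤ 1 + Real.log (4 * (M : ℝ)) := by
      have : 0 ≤ Real.log (4 * (M : ℝ)) := Real.log_nonneg (by linarith)
      linarith
    have hlq2 : 1 + Real.log q ≤ 2 * L := by linarith
    have a1 : (M : ℝ) / q ≤ N * Real.exp (-(l / 2)) := by
      rw [Real.exp_neg, ← div_eq_mul_inv]
      exact div_le_div₀ hN0.le hMN (Real.exp_pos _) hq1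
    have a2 : (M : ℝ) / U ≤ N * Real.exp (-(l / 2)) := by
      rw [Real.exp_neg, ← div_eq_mul_inv]
      exact div_le_div₀ hN0.le hMN (Real.exp_pos _) ((Real.exp_le_exp.2 (by linarith)).trans hU1)
    have a3 : (q : ℝ) ≤ N * Real.exp (-(l / 2)) := by
      refine hq2.trans (mul_le_mul_of_nonneg_left (Real.exp_le_exp.2 (by linarith)) hN0.le)
    have a4 : ((U * U : ℕ) : ℝ) ≤ N * Real.exp (-(l / 2)) := by
      push_cast
      refine hUU.trans ?_
      calc 4 * Real.exp (2 * l) ≤ Real.exp (2 * l) * Real.exp (2 * l) := by nlinarith [Real.exp_pos (2 * l)]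
        _ = Real.exp (4 * l) := by rw [← Real.exp_add]; ring_nf
        _ ≤ Real.exp (100 * l) * Real.exp (-(l / 2)) := by rw [← Real.exp_add]; exact Real.exp_le_exp.2 (by linarith)
        _ ≤ _ := mul_le_mul_of_nonneg_right hN (Real.exp_pos _).le
    set y := Real.exp (-(l / 4)) with hy
    have hy0 : 0 < y := Real.exp_pos _
    have hy1 : y ≤ 1 := by rw [hy, Real.exp_le_one_iff]; linarith
    rw [hX] at a1 a2 a3 a4
    have b1 : (M : ℝ) * ((M : ℝ) / q + M / U + q) ≤ 3 * (N * y) ^ 2 := by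
      calc (M : ℝ) * ((M : ℝ) / q + M / U + q) ≤ N * (3 * (N * y ^ 2)) := by
            apply mul_le_mul hMN (by linarith) (by positivity) hN0.le
        _ = _ := by ring
    have b2 : Real.sqrt (672 * (1 + Real.log q) * (M * ((M : ℝ) / q + M / U + q))) ≤ 64 * L * (N * y) := by
      rw [show 64 * L * (N * y) = Real.sqrt ((64 * L * (N * y)) ^ 2) by rw [Real.sqrt_sq (by positivity)]]
      apply Real.sqrt_le_sqrt
      calc 672 * (1 + Real.log q) * (M * ((M : ℝ) / q + M / U + q)) ≤ 672 * (2 * L) * (3 * (N * y) ^ 2) := by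
            apply mul_le_mul _ b1 (by positivity) (by positivity)
            linarith
        _ = 4032 * L * (N * y) ^ 2 := by ring
        _ ≤ 4096 * L ^ 2 * (N * y) ^ 2 := by
            apply mul_le_mul_of_nonneg_right _ (by positivity)
            nlinarith
        _ = _ := by ring
    have b3 : 8 * (1 + Real.log (4 * (M : ℝ))) ^ 5 * Real.sqrt (672 * (1 + Real.log q) * (M * ((M : ℝ) / q + M / U + q))) ≤
        524288 * L ^ 6 * (N * y) := by
      calc _ ≤ 8 * (4 * L) ^ 5 * (64 * L * (N * y)) := by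
            apply mul_le_mul _ b2 (Real.sqrt_nonneg _) (by positivity)
            apply mul_le_mul_of_nonneg_left _ (by norm_num)
            exact pow_le_pow_left₀ hl40 hl4 5
        _ = _ := by ring
    have b4 : (M : ℝ) / q + (U * U : ℕ) + q ≤ 3 * (N * y ^ 2) := by linarith
    have b5 : 3 * (1 + Real.log (4 * (M : ℝ))) * (600 * (Nat.log 2 (U * U) + 1 : ℝ) * ((M : ℝ) / q + (U * U : ℕ) + q) * (1 + Real.log q)) ≤
        129600 * L ^ 6 * (N * y) := by
      calc _ ≤ 3 * (4 * L) * (600 * (3 * L) * (3 * (N * y ^ 2)) * (2 * L)) := by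
            apply mul_le_mul (by linarith) _ (by positivity) (by positivity)
            apply mul_le_mul _ hlq2 (by positivity) (by positivity)
            apply mul_le_mul _ b4 (by positivity) (by positivity)
            linarith
        _ = 129600 * L ^ 3 * (N * y ^ 2) := by ring
        _ ≤ 129600 * L ^ 6 * (N * y) := by
            apply mul_le_mul _ _ (by positivity) (by positivity)
            · apply mul_le_mul_of_nonneg_left _ (by norm_num)
              exact pow_le_pow_right₀ hL1 (by norm_num)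
            · apply mul_le_mul_of_nonneg_left _ hN0.le
              nlinarith
    rw [hB]
    have hpos : 0 ≤ L ^ 6 * (N * y) := by positivity
    nlinarith
  -- the trivial range
  set V := 2 * (U * U) with hV
  have hV2 : 2 ≤ V := by
    have := Nat.mul_le_mul hUn hUn
    omega
  have hVN : (V : ℝ) ≤ 8 * Real.exp (2 * l) := by
    rw [hV]; push_cast; linarith
  have hVN2 : (V : ℝ) ≤ N := by
    refine hVN.trans (le_trans ?_ hN)
    calc 8 * Real.exp (2 * l) ≤ Real.exp (2 * l) * Real.exp (2 * l) * Real.exp (2 * l) := by nlinarith [Real.exp_pos (2 * l)]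
      _ = Real.exp (6 * l) := by rw [← Real.exp_add, ← Real.exp_add]; ring_nf
      _ ≤ Real.exp (100 * l) := Real.exp_le_exp.2 (by linarith)
  have hS0 : ∀ n ≤ V, ‖∑ m ∈ Icc 1 n, ((ArithmeticFunction.vonMangoldt m : ℝ) : ℂ) * ee ((m : ℝ) * α)‖ ≤
      8 * Real.exp (2 * l) * L := by
    intro n' hn'
    refine (norm_sum_La_le n' α).trans ?_
    rcases Nat.eq_zero_or_pos n' with rfl | h0
    · simp; positivity
    have h1 : (n' : ℝ) ≤ V := by exact_mod_cast hn'
    apply mul_le_mul (h1.trans hVN) _ (Real.log_natCast_nonneg _) (by positivity)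
    exact Real.log_le_log (by exact_mod_cast h0) (h1.trans hVN2)
  have h1 := dyadic (fun m => ((ArithmeticFunction.vonMangoldt m : ℝ) : ℂ) * ee ((m : ℝ) * α)) hV2 hB0 hS0
    (by
      intro M n' hVM h1 h2 h3
      exact hblock M n' (by omega) h1 h2 h3 (by omega)) n hn1 hn
  refine h1.trans ?_
  have hlogn : Real.log n ≤ L := Real.log_le_log (by exact_mod_cast hn1) (by exact_mod_cast hn)
  have c1 : 4 * Real.log n * B ≤ 4 * L * B := by
    apply mul_le_mul_of_nonneg_right _ hB0
    linarith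
  have c2 : 8 * Real.exp (2 * l) * L ≤ L * (N * Real.exp (-(l / 4))) := by
    have : 8 * Real.exp (2 * l) ≤ N * Real.exp (-(l / 4)) := by
      calc 8 * Real.exp (2 * l) ≤ Real.exp (2 * l) * Real.exp (2 * l) * Real.exp (2 * l) := by nlinarith [Real.exp_pos (2 * l)]
        _ = Real.exp (6 * l) := by rw [← Real.exp_add, ← Real.exp_add]; ring_nf
        _ ≤ Real.exp (100 * l) * Real.exp (-(l / 4)) := by rw [← Real.exp_add]; exact Real.exp_le_exp.2 (by linarith)
        _ ≤ _ := mul_le_mul_of_nonneg_right hN (Real.exp_pos _).le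
    nlinarith
  have c3 : 4 * L * B + L * (N * Real.exp (-(l / 4))) ≤ (10 ^ 8 * L ^ 10) * (N * Real.exp (-(l / 4))) := by
    rw [hB]
    have hpos : 0 ≤ N * Real.exp (-(l / 4)) := by positivity
    have e7 : L ^ 7 ≤ L ^ 10 := pow_le_pow_right₀ hL1 (by norm_num)
    have e1 : L ≤ L ^ 10 := le_self_pow₀ hL1 (by norm_num)
    have : 4 * L * (1000000 * L ^ 6) + L ≤ 10 ^ 8 * L ^ 10 := by
      have e8 : 4 * L * (1000000 * L ^ 6) = 4000000 * L ^ 7 := by ring
      rw [e8]; linarith
    calc 4 * L * (1000000 * L ^ 6 * (N * Real.exp (-(l / 4)))) + L * (N * Real.exp (-(l / 4))) =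
        (4 * L * (1000000 * L ^ 6) + L) * (N * Real.exp (-(l / 4))) := by ring
      _ ≤ _ := mul_le_mul_of_nonneg_right this hpos
  have c4 : (10 ^ 8 * L ^ 10) * (N * Real.exp (-(l / 4))) ≤ N * Real.exp (-(6 * l / 25)) := by
    calc (10 ^ 8 * L ^ 10) * (N * Real.exp (-(l / 4))) ≤ Real.exp (l / 100) * (N * Real.exp (-(l / 4))) :=
          mul_le_mul_of_nonneg_right hL (by positivity)
      _ = N * Real.exp (-(6 * l / 25)) := by
          rw [mul_left_comm, ← Real.exp_add]
          congr 2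
          ring
  linarith

end Pool.Agent.P8H13.PK
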