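import Pool.Agent.P8H13.PK.Model
import Pool.Agent.P8H13.PK.Minor
import Pool.Agent.N232.SP.FF
import Pool.Agent.H373R2.T7.SupE2

/-!
# The primes and the model in arithmetic progressions inside a residue class
-/

set_option autoImplicit false

namespace Pool.Agent.P8H13.PK

open Finset
open Pool.Agent.H807R2.Dav
open Pool.Agent.H373R2.T7 (abel_ee)

/-- the sum of `th` over a residue class -/
noncomputable def ps (q b z : ℕ) : ℝ := ∑ n ∈ (Icc 1 z).filter (fun n => n ≡ b [MOD q]), th n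

/-- the prime number theorem in arithmetic progressions up to `N` for the moduli up to `exp l` -/
def PAP (l : ℝ) (N : ℕ) : Prop := ∀ q b z : ℕ, 1 ≤ q → (q : ℝ) ≤ Real.exp l → b.Coprime q → z ≤ N →
  |ps q b z - z / (Nat.totient q : ℝ)| ≤ N * Real.exp (-(20 * l))

/-- `W / φ(W)` -/
noncomputable def gW (W : ℕ) : ℝ := (W : ℝ) / Nat.totient W

/-- the difference between the primes and the model in the class of `b` modulo `W` -/
noncomputable def FF (W Q b t : ℕ) : ℝ := th (b + W * t) - gW W * mo W Q b t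

lemma sum_range_ps (q B n : ℕ) (hq : 1 ≤ q) :
    ∑ k ∈ range n, th (B + 1 + q * k) = ps q (B + 1) (B + q * n) - ps q (B + 1) B := by
  have hsub : (Icc 1 B).filter (fun m => m ≡ B + 1 [MOD q]) ⊆
      (Icc 1 (B + q * n)).filter (fun m => m ≡ B + 1 [MOD q]) := by
    intro m hm
    rw [mem_filter, mem_Icc] at hm ⊢
    exact ⟨⟨hm.1.1, hm.1.2.trans (Nat.le_add_right _ _)⟩, hm.2⟩
  unfold ps
  rw [← sum_sdiff hsub, add_sub_cancel_right]
  symm
  apply sum_nbij' (i := fun m => (m - (B + 1)) / q) (j := fun k => B + 1 + q * k)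
  · intro m hm
    rw [mem_sdiff, mem_filter, mem_filter, mem_Icc, mem_Icc] at hm
    obtain ⟨⟨⟨hm1, hm2⟩, hm3⟩, hm4⟩ := hm
    have hB : B + 1 ≤ m := by
      by_contra hcon
      exact hm4 ⟨⟨hm1, by omega⟩, hm3⟩
    rw [mem_range, Nat.div_lt_iff_lt_mul (by omega)]
    rw [mul_comm n q]
    omega
  · intro k hk
    rw [mem_range] at hk
    rw [mem_sdiff, mem_filter, mem_filter, mem_Icc, mem_Icc]
    have h1 : q * (k + 1) ≤ q * n := Nat.mul_le_mul_left q hk
    refine ⟨⟨⟨by omega, ?_⟩, ?_⟩, ?_⟩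
    · rw [mul_add] at h1
      omega
    · unfold Nat.ModEq
      simp
    · rintro ⟨⟨_, h2⟩, _⟩
      omega
  · intro m hm
    rw [mem_sdiff, mem_filter, mem_filter, mem_Icc, mem_Icc] at hm
    obtain ⟨⟨⟨hm1, hm2⟩, hm3⟩, hm4⟩ := hm
    have hB : B + 1 ≤ m := by
      by_contra hcon
      exact hm4 ⟨⟨hm1, by omega⟩, hm3⟩
    have hd : q ∣ m - (B + 1) := (Nat.modEq_iff_dvd' hB).mp hm3.symm
    rw [Nat.mul_div_cancel' hd]
    omega
  · intro k _
    rw [Nat.add_sub_cancel_left, Nat.mul_div_cancel_left _ (by omega)]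
  · intro m hm
    rw [mem_sdiff, mem_filter, mem_filter, mem_Icc, mem_Icc] at hm
    obtain ⟨⟨⟨hm1, hm2⟩, hm3⟩, hm4⟩ := hm
    have hB : B + 1 ≤ m := by
      by_contra hcon
      exact hm4 ⟨⟨hm1, by omega⟩, hm3⟩
    have hd : q ∣ m - (B + 1) := (Nat.modEq_iff_dvd' hB).mp hm3.symm
    congr 1
    rw [Nat.mul_div_cancel' hd]
    omega

/-- the primes in arithmetic progressions, in the form of the model -/
theorem prim_ap {l : ℝ} {N W d b A n : ℕ} (hP : PAP l N) (hW : 1 ≤ W) (hb : 1 ≤ b) (hbW : b.Coprime W)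
    (hd : 1 ≤ d) (hWd : ((W * d : ℕ) : ℝ) ≤ Real.exp l) (hN : b + W * A + W * d * n ≤ N + 1) :
    |∑ k ∈ range n, th (b + W * (A + d * k)) -
      n * (gW W * ∏ p ∈ d.primeFactors.filter (fun p => ¬ p ∣ W), (if p ∣ b + W * A then 0 else (p : ℝ) / (p - 1)))| ≤
      2 * (N * Real.exp (-(20 * l))) + Real.log (N + 1) := by
  have hlogN : 0 ≤ Real.log ((N : ℝ) + 1) := Real.log_nonneg (by have := Nat.cast_nonneg (α := ℝ) N; linarith)
  set C := b + W * A with hC
  have hC1 : 1 ≤ C := by omega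
  have hterm : ∀ k, b + W * (A + d * k) = C - 1 + 1 + W * d * k := by
    intro k
    rw [Nat.sub_add_cancel hC1, hC]
    ring
  have hWd1 : 1 ≤ W * d := Nat.mul_pos hW hd
  by_cases hcop : C.Coprime d
  · have hcop2 : C.Coprime (W * d) := by
      apply Nat.Coprime.mul_right _ hcop
      rw [hC]
      have : b + W * A = b + A * W := by ring
      rw [this]
      exact (Nat.coprime_add_mul_right_left b W A).2 hbW
    have h1 : ∏ p ∈ d.primeFactors.filter (fun p => ¬ p ∣ W), (if p ∣ C then 0 else (p : ℝ) / (p - 1)) =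
        ∏ p ∈ d.primeFactors.filter (fun p => ¬ p ∣ W), ((p : ℝ) / (p - 1)) := by
      apply prod_congr rfl
      intro p hp
      rw [mem_filter] at hp
      have hp' := Nat.prime_of_mem_primeFactors hp.1
      rw [if_neg]
      intro h
      have : p ∣ Nat.gcd C d := Nat.dvd_gcd h (Nat.dvd_of_mem_primeFactors hp.1)
      rw [hcop] at this
      exact hp'.one_lt.ne' (Nat.dvd_one.mp this)
    rw [h1, ← Pool.Agent.N232.SP.FF.totient_ratio W d hW hd]
    have hphi : (Nat.totient W : ℝ) ≠ 0 := by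
      have := Nat.totient_pos.2 (show 0 < W by omega)
      exact_mod_cast this.ne'
    have hW0 : (W : ℝ) ≠ 0 := by exact_mod_cast (show W ≠ 0 by omega)
    have h2 : gW W * ((Nat.totient W : ℝ) / W * (((W * d : ℕ) : ℝ) / (Nat.totient (W * d) : ℝ))) =
        ((W * d : ℕ) : ℝ) / (Nat.totient (W * d) : ℝ) := by
      unfold gW
      field_simp
    rw [h2]
    have h3 : ∑ k ∈ range n, th (b + W * (A + d * k)) = ps (W * d) (C - 1 + 1) (C - 1 + W * d * n) - ps (W * d) (C - 1 + 1) (C - 1) := by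
      rw [← sum_range_ps (W * d) (C - 1) n hWd1]
      apply sum_congr rfl
      intro k _
      rw [hterm]
    rw [h3, Nat.sub_add_cancel hC1]
    have h4 := hP (W * d) C (C - 1 + W * d * n) hWd1 hWd hcop2 (by omega)
    have h5 := hP (W * d) C (C - 1) hWd1 hWd hcop2 (by omega)
    have h6 : ps (W * d) C (C - 1 + W * d * n) - ps (W * d) C (C - 1) -
        n * (((W * d : ℕ) : ℝ) / (Nat.totient (W * d) : ℝ)) =
        (ps (W * d) C (C - 1 + W * d * n) - ((C - 1 + W * d * n : ℕ) : ℝ) / (Nat.totient (W * d) : ℝ)) -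
        (ps (W * d) C (C - 1) - ((C - 1 : ℕ) : ℝ) / (Nat.totient (W * d) : ℝ)) := by
      push_cast
      ring
    rw [h6]
    refine (abs_sub _ _).trans ?_
    linarith
  · obtain ⟨p, hp, hpC, hpd⟩ := Nat.Prime.not_coprime_iff_dvd.1 hcop
    have hpW : ¬ p ∣ W := by
      intro h
      have h1 : p ∣ b := by
        have h2 : p ∣ W * A := dvd_mul_of_dvd_left h A
        rw [hC] at hpC
        exact (Nat.dvd_add_left h2).1 hpC
      have h2 : p ∣ Nat.gcd b W := Nat.dvd_gcd h1 h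
      rw [hbW] at h2
      exact hp.one_lt.ne' (Nat.dvd_one.mp h2)
    have h1 : ∏ p ∈ d.primeFactors.filter (fun p => ¬ p ∣ W), (if p ∣ C then 0 else (p : ℝ) / (p - 1)) = 0 := by
      apply prod_eq_zero (i := p)
      · rw [mem_filter]
        exact ⟨Nat.mem_primeFactors.2 ⟨hp, hpd, by omega⟩, hpW⟩
      · rw [if_pos hpC]
    rw [h1, mul_zero, mul_zero, sub_zero]
    have h2 : ∀ k ∈ range n, k ≠ 0 → th (b + W * (A + d * k)) = 0 := by
      intro k _ hk
      unfold th
      rw [if_neg]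
      intro hpr
      have h3 : p ∣ b + W * (A + d * k) := by
        have : b + W * (A + d * k) = C + d * (W * k) := by rw [hC]; ring
        rw [this]
        exact dvd_add hpC (dvd_mul_of_dvd_left hpd _)
      have h4 := (Nat.prime_dvd_prime_iff_eq hp hpr).1 h3
      have h5 : p ≤ C := Nat.le_of_dvd (by omega) hpC
      have h6 : b + W * (A + d * k) = C + W * d * k := by rw [hC]; ring
      have h7 : 0 < W * d * k := Nat.mul_pos hWd1 (Nat.pos_of_ne_zero hk)
      omega
    rcases Nat.eq_zero_or_pos n with rfl | hn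
    · simp; positivity
    have h3 : ∑ k ∈ range n, th (b + W * (A + d * k)) = th (b + W * (A + d * 0)) := by
      apply sum_eq_single_of_mem 0 (mem_range.2 hn)
      intro k hk hk0
      exact h2 k hk hk0
    rw [h3, abs_of_nonneg (th_nonneg _)]
    have h4 : b + W * (A + d * 0) ≤ N + 1 := by
      rw [mul_zero, add_zero]
      exact le_trans (Nat.le_add_right _ _) hN
    have h5 := th_le_of_le h4
    have h6 : Real.log ((N + 1 : ℕ) : ℝ) = Real.log (N + 1) := by push_cast; rfl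
    rw [h6] at h5
    have : 0 ≤ 2 * (N * Real.exp (-(20 * l))) := by positivity
    linarith

lemma gW_nonneg (W : ℕ) : 0 ≤ gW W := by unfold gW; positivity

lemma gW_le {W : ℕ} (hW : 1 ≤ W) : gW W ≤ W := by
  unfold gW
  have : (1 : ℝ) ≤ Nat.totient W := by exact_mod_cast Nat.totient_pos.2 (show 0 < W by omega)
  rw [div_le_iff₀ (by linarith)]
  have hW0 : (0 : ℝ) ≤ W := Nat.cast_nonneg _
  nlinarith

/-- the difference in arithmetic progressions -/
theorem FF_ap {l : ℝ} {N W Q d b A n : ℕ} (hP : PAP l N) (hW : 1 ≤ W) (hb : 1 ≤ b) (hbW : b.Coprime W)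
    (hd : 1 ≤ d) (hdQ : d ≤ Q) (hWQ : ((W * Q : ℕ) : ℝ) ≤ Real.exp l) (hN : b + W * A + W * d * n ≤ N + 1) :
    |∑ k ∈ range n, FF W Q b (A + d * k)| ≤
      2 * (N * Real.exp (-(20 * l))) + Real.log (N + 1) + W * (2 * (Q : ℝ) ^ 2) := by
  have h1 := prim_ap hP hW hb hbW hd (le_trans (by exact_mod_cast Nat.mul_le_mul_left W hdQ) hWQ) hN
  have h2 := mo_ap (W := W) (Q := Q) (d := d) b A n hd hdQ
  set P := ∏ p ∈ d.primeFactors.filter (fun p => ¬ p ∣ W), (if p ∣ b + W * A then 0 else (p : ℝ) / (p - 1)) with hPd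
  have h3 : ∑ k ∈ range n, FF W Q b (A + d * k) =
      (∑ k ∈ range n, th (b + W * (A + d * k)) - n * (gW W * P)) -
      gW W * (∑ k ∈ range n, mo W Q b (A + d * k) - n * P) := by
    unfold FF
    rw [sum_sub_distrib, ← mul_sum]
    ring
  rw [h3]
  refine (abs_sub _ _).trans ?_
  apply add_le_add h1
  rw [abs_mul, abs_of_nonneg (gW_nonneg W)]
  exact mul_le_mul (gW_le hW) h2 (abs_nonneg _) (Nat.cast_nonneg _)

/-- Abel summation -/
lemma abel_range (F : ℕ → ℂ) (γ M0 : ℝ) (x : ℕ)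
    (hA : ∀ y : ℕ, y ≤ x → ‖∑ n ∈ range y, F n‖ ≤ M0) :
    ‖∑ n ∈ range x, F n * ee (n * γ)‖ ≤ M0 * (1 + x * ‖ee γ - 1‖) := by
  have conv : ∀ (G : ℕ → ℂ) (y : ℕ), ∑ n ∈ Icc 1 y, G (n - 1) = ∑ n ∈ range y, G n := by
    intro G y
    induction y with
    | zero => simp
    | succ y ih => rw [sum_Icc_succ_top (by omega), ih, sum_range_succ, Nat.add_sub_cancel]
  have h1 := abel_ee (fun n => F (n - 1)) γ M0 x (fun y hy => by rw [conv]; exact hA y hy)
  have h2 : ∑ n ∈ Icc 1 x, F (n - 1) * ee (n * γ) = ee γ * ∑ n ∈ range x, F n * ee (n * γ) := by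
    rw [← conv (fun n => F n * ee (n * γ)), mul_sum]
    apply sum_congr rfl
    intro n hn
    rw [mem_Icc] at hn
    have h3 : ee ((n : ℝ) * γ) = ee γ * ee (((n - 1 : ℕ) : ℝ) * γ) := by
      rw [← ee_add]
      congr 1
      rw [Nat.cast_sub hn.1]
      push_cast
      ring
    rw [h3]
    ring
  rw [h2, norm_mul, norm_ee, one_mul] at h1
  exact h1

/-- sums over a range in terms of the residues -/
lemma range_residues {M : Type} [AddCommMonoid M] (f : ℕ → M) (y q : ℕ) (hq : 1 ≤ q) :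
    ∑ t ∈ range y, f t = ∑ s ∈ range q, ∑ k ∈ range ((y + q - 1 - s) / q), f (s + q * k) := by
  rw [← sum_fiberwise_of_maps_to (s := range y) (t := range q)
      (g := fun n => n % q) (fun n _ => mem_range.2 (Nat.mod_lt _ (by omega)))]
  apply sum_congr rfl
  intro s hs
  rw [mem_range] at hs
  apply sum_nbij' (i := fun t => t / q) (j := fun k => s + q * k)
  · intro t ht
    rw [mem_filter, mem_range] at ht
    obtain ⟨h1, h2⟩ := ht
    rw [mem_range, Nat.div_lt_iff_lt_mul (by omega)]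
    have h3 := Nat.mod_add_div t q
    have h4 : (y + q - 1 - s) / q * q + (y + q - 1 - s) % q = y + q - 1 - s := Nat.div_add_mod' _ _
    have h5 : (y + q - 1 - s) % q < q := Nat.mod_lt _ (by omega)
    by_contra hcon
    push Not at hcon
    -- `t ≥ K q` and `t ≡ s`
    have h6 : (y + q - 1 - s) / q ≤ t / q := by
      rw [Nat.le_div_iff_mul_le (by omega)]
      exact hcon
    have h7 : (y + q - 1 - s) / q * q ≤ t / q * q := Nat.mul_le_mul_right q h6
    have h8 : q * (t / q) = t / q * q := mul_comm _ _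
    rw [h2] at h3
    omega
  · intro k hk
    rw [mem_range] at hk
    rw [mem_filter, mem_range]
    constructor
    · have h4 : (y + q - 1 - s) / q * q ≤ y + q - 1 - s := Nat.div_mul_le_self _ _
      have h5 : (k + 1) * q ≤ (y + q - 1 - s) / q * q := Nat.mul_le_mul_right q hk
      have h6 : (k + 1) * q = q * k + q := by ring
      omega
    · rw [Nat.add_mul_mod_self_left, Nat.mod_eq_of_lt hs]
  · intro t ht
    rw [mem_filter, mem_range] at ht
    have h3 := Nat.mod_add_div t q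
    rw [ht.2] at h3
    exact h3
  · intro k _
    rw [Nat.add_mul_div_left _ _ (by omega), Nat.div_eq_of_lt hs, zero_add]
  · intro t ht
    rw [mem_filter, mem_range] at ht
    have h3 := Nat.mod_add_div t q
    rw [ht.2] at h3
    rw [h3]

/-- rational twists from sums in progressions -/
lemma twist_range (F : ℕ → ℝ) (q : ℕ) (hq : 1 ≤ q) (a : ℤ) {E : ℝ} {x : ℕ}
    (hF : ∀ s n : ℕ, s < q → s + q * n ≤ x + q → |∑ k ∈ range n, F (s + q * k)| ≤ E) {y : ℕ} (hy : y ≤ x) :
    ‖∑ t ∈ range y, ((F t : ℝ) : ℂ) * ee (t * ((a : ℝ) / q))‖ ≤ q * E := by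
  have hq0 : (q : ℝ) ≠ 0 := by exact_mod_cast (show q ≠ 0 by omega)
  rw [range_residues _ y q hq]
  refine (norm_sum_le _ _).trans ?_
  have h1 : ∀ s ∈ range q, ‖∑ k ∈ range ((y + q - 1 - s) / q), ((F (s + q * k) : ℝ) : ℂ) * ee (((s + q * k : ℕ) : ℝ) * ((a : ℝ) / q))‖ ≤ E := by
    intro s hs
    rw [mem_range] at hs
    have h2 : ∑ k ∈ range ((y + q - 1 - s) / q), ((F (s + q * k) : ℝ) : ℂ) * ee (((s + q * k : ℕ) : ℝ) * ((a : ℝ) / q)) =
        ((∑ k ∈ range ((y + q - 1 - s) / q), F (s + q * k) : ℝ) : ℂ) * ee (s * ((a : ℝ) / q)) := by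
      push_cast
      rw [sum_mul]
      apply sum_congr rfl
      intro k _
      congr 1
      have : ((s : ℝ) + q * k) * ((a : ℝ) / q) = s * ((a : ℝ) / q) + ((a * (k : ℤ) : ℤ) : ℝ) := by
        push_cast
        field_simp
      rw [this, ee_add_int]
    rw [h2, norm_mul, norm_ee, mul_one, Complex.norm_real]
    apply hF s _ hs
    have h4 : q * ((y + q - 1 - s) / q) ≤ y + q - 1 - s := Nat.mul_div_le _ _
    omega
  refine (sum_le_sum h1).trans ?_
  rw [sum_const, card_range, nsmul_eq_mul]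

/-- near a fraction with a small denominator -/
theorem major_range (F : ℕ → ℝ) {q : ℕ} (hq : 1 ≤ q) {E : ℝ} {x : ℕ} (hE : 0 ≤ E)
    (hF : ∀ s n : ℕ, s < q → s + q * n ≤ x + q → |∑ k ∈ range n, F (s + q * k)| ≤ E) (α : ℝ) :
    ‖∑ t ∈ range x, ((F t : ℝ) : ℂ) * ee (t * α)‖ ≤ q * E * (1 + 2 * x * dd (q * α)) := by
  have hq0 : (0 : ℝ) < q := by exact_mod_cast hq
  -- the nearest integer
  set t := Int.fract ((q : ℝ) * α) with ht
  have ht0 : 0 ≤ t := Int.fract_nonneg _
  have ht1 : t < 1 := Int.fract_lt_one _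
  have hdt : dd ((q : ℝ) * α) = dd t := by
    have : (q : ℝ) * α = t + ((⌊(q : ℝ) * α⌋ : ℤ) : ℝ) := by rw [ht]; exact (Int.fract_add_floor _).symm
    rw [this, dd_add_int]
  have hmin := dd_ge ht0 ht1.le
  obtain ⟨a, ha⟩ : ∃ a : ℤ, 4 * |(q : ℝ) * α - a| ≤ dd (q * α) := by
    rcases le_total t (1 - t) with h | h
    · refine ⟨⌊(q : ℝ) * α⌋, ?_⟩
      rw [min_eq_left h] at hmin
      have : (q : ℝ) * α - (⌊(q : ℝ) * α⌋ : ℤ) = t := rfl
      rw [this, abs_of_nonneg ht0, hdt]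
      exact hmin
    · refine ⟨⌊(q : ℝ) * α⌋ + 1, ?_⟩
      rw [min_eq_right h] at hmin
      have : (q : ℝ) * α - ((⌊(q : ℝ) * α⌋ + 1 : ℤ) : ℝ) = -(1 - t) := by
        rw [ht, Int.fract]; push_cast; ring
      rw [this, abs_neg, abs_of_nonneg (by linarith), hdt]
      exact hmin
  set γ := α - a / q with hγ
  have hα : α = a / q + γ := by rw [hγ]; ring
  have hγ1 : |γ| ≤ dd (q * α) / 4 := by
    have h1 : (q : ℝ) * α - a = q * γ := by rw [hγ]; field_simp
    rw [h1, abs_mul, abs_of_pos hq0] at ha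
    have h2 : (1 : ℝ) ≤ q := by exact_mod_cast hq
    have h3 : 0 ≤ |γ| := abs_nonneg _
    nlinarith
  have h1 := abel_range (fun t => ((F t : ℝ) : ℂ) * ee (t * ((a : ℝ) / q))) γ (q * E) x
    (fun y hy => twist_range F q hq a hF hy)
  have h2 : ∀ t ∈ range x, ((F t : ℝ) : ℂ) * ee (t * α) = ((F t : ℝ) : ℂ) * ee (t * ((a : ℝ) / q)) * ee (t * γ) := by
    intro t _
    rw [mul_assoc, ← ee_add]
    congr 2
    rw [hα]
    ring
  rw [sum_congr rfl h2]
  refine h1.trans ?_
  apply mul_le_mul_of_nonneg_left _ (by positivity)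
  have h3 : ‖ee γ - 1‖ ≤ 2 * dd (q * α) := by
    have h4 : ‖ee γ - 1‖ = dd γ := by unfold dd; rw [norm_sub_rev]
    rw [h4]
    refine (dd_le γ).trans ?_
    have hpi := Real.pi_lt_four
    have hpi0 := Real.pi_pos
    have h5 : 0 ≤ |γ| := abs_nonneg _
    have h6 := dd_nonneg (q * α)
    nlinarith
  have hx : (0 : ℝ) ≤ x := Nat.cast_nonneg _
  nlinarith

end Pool.Agent.P8H13.PK
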