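import Pool.Agent.H807R2.Dav1

/-!
# Correlations and the Fourier transform modulo `2 T`
-/

set_option autoImplicit false

namespace Pool.Agent.P8H13.PK

open Finset
open Pool.Agent.H807R2.Dav

lemma orth {M : ℕ} (hM : 0 < M) (k : ℤ) :
    ∑ t ∈ range M, ee ((t : ℝ) * ((k : ℝ) / M)) = if (M : ℤ) ∣ k then (M : ℂ) else 0 := by
  have hM0 : (0 : ℝ) < M := by exact_mod_cast hM
  by_cases h : (M : ℤ) ∣ k
  · rw [if_pos h]
    obtain ⟨j, rfl⟩ := h
    have h1 : ∀ t ∈ range M, ee ((t : ℝ) * ((((M : ℤ) * j : ℤ) : ℝ) / M)) = 1 := by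
      intro t _
      have : (t : ℝ) * ((((M : ℤ) * j : ℤ) : ℝ) / M) = (((t : ℤ) * j : ℤ) : ℝ) := by
        push_cast
        field_simp
      rw [this, ee_int]
    rw [sum_congr rfl h1, sum_const, card_range, nsmul_eq_mul, mul_one]
  · rw [if_neg h]
    set w := ee ((k : ℝ) / M) with hw
    have h1 : ∀ t ∈ range M, ee ((t : ℝ) * ((k : ℝ) / M)) = w ^ t := by
      intro t _
      rw [ee_pow]
    rw [sum_congr rfl h1]
    have hw1 : w ≠ 1 := by
      intro h2
      rw [hw] at h2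
      unfold ee at h2
      rw [Complex.exp_eq_one_iff] at h2
      obtain ⟨n, hn⟩ := h2
      have h3 : ((k : ℝ) / M : ℂ) = n := by
        have h4 : (2 * Real.pi * Complex.I : ℂ) ≠ 0 := by
          simp [Real.pi_ne_zero]
        have h5 : (2 * Real.pi * Complex.I : ℂ) * (((k : ℝ) / M : ℝ) : ℂ) = (2 * Real.pi * Complex.I : ℂ) * n := by
          rw [hn]; ring
        have := mul_left_cancel₀ h4 h5
        push_cast at this ⊢
        exact this
      have h4 : (k : ℝ) / M = n := by exact_mod_cast h3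
      rw [div_eq_iff hM0.ne'] at h4
      have h5 : k = n * M := by exact_mod_cast h4
      exact h ⟨n, by rw [h5]; ring⟩
    rw [geom_sum_eq hw1]
    have h2 : w ^ M = 1 := by
      rw [hw, ← ee_pow]
      have : (M : ℝ) * ((k : ℝ) / M) = ((k : ℤ) : ℝ) := by field_simp
      rw [this, ee_int]
    rw [h2]
    simp

lemma conj_ee (x : ℝ) : (starRingEnd ℂ) (ee x) = ee (-x) := by
  rw [ee_eq, ee_eq, ← Complex.exp_conj, map_mul, Complex.conj_ofReal, Complex.conj_I]
  congr 1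
  push_cast
  ring

lemma pars {X : ℕ} (hX : 0 < X) (a : ℕ → ℂ) :
    ∑ k ∈ range X, ‖∑ t ∈ range X, a t * ee (t * ((k : ℝ) / X))‖ ^ 2 = X * ∑ t ∈ range X, ‖a t‖ ^ 2 := by
  have e1 : ((∑ k ∈ range X, ‖∑ t ∈ range X, a t * ee (t * ((k : ℝ) / X))‖ ^ 2 : ℝ) : ℂ) =
      ((X * ∑ t ∈ range X, ‖a t‖ ^ 2 : ℝ) : ℂ) := by
    push_cast
    have e2 : ∀ k ∈ range X, ((‖∑ t ∈ range X, a t * ee (t * ((k : ℝ) / X))‖ : ℝ) : ℂ) ^ 2 =
        ∑ m ∈ range X, ∑ n ∈ range X, (a m * (starRingEnd ℂ) (a n)) * ee ((k : ℝ) * ((((m : ℤ) - n : ℤ) : ℝ) / X)) := by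
      intro k _
      rw [← Complex.mul_conj', map_sum, sum_mul_sum]
      apply sum_congr rfl
      intro m _
      apply sum_congr rfl
      intro n _
      rw [map_mul, conj_ee]
      have e3 : ee ((k : ℝ) * ((((m : ℤ) - n : ℤ) : ℝ) / X)) = ee (m * ((k : ℝ) / X)) * ee (-(n * ((k : ℝ) / X))) := by
        rw [← ee_add]
        congr 1
        push_cast
        ring
      rw [e3]
      ring
    rw [sum_congr rfl e2, sum_comm]
    rw [mul_sum]
    apply sum_congr rfl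
    intro m hm
    rw [sum_comm]
    have e4 : ∀ n ∈ range X, ∑ k ∈ range X, (a m * (starRingEnd ℂ) (a n)) * ee ((k : ℝ) * ((((m : ℤ) - n : ℤ) : ℝ) / X)) =
        if n = m then (X : ℂ) * (‖a m‖ : ℂ) ^ 2 else 0 := by
      intro n hn
      rw [← mul_sum, orth hX]
      by_cases h : n = m
      · subst h
        rw [if_pos rfl, sub_self, if_pos (dvd_zero _), Complex.mul_conj']
        ring
      · rw [if_neg h, if_neg, mul_zero]
        intro hd
        rw [mem_range] at hm hn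
        have h1 : ((m : ℤ) - n) = 0 := by
          apply Int.eq_zero_of_abs_lt_dvd hd
          rw [abs_lt]
          constructor <;> omega
        omega
    rw [sum_congr rfl e4, sum_ite_eq' (range X) m, if_pos hm]
  exact_mod_cast e1

/-- correlations as Fourier coefficients -/
lemma corr_four {T : ℕ} (hT : 0 < T) (u v : ℕ → ℂ) {h : ℕ} (hh : h < T) :
    ((2 * T : ℕ) : ℂ) * ∑ t ∈ range (T - h), (starRingEnd ℂ) (u t) * v (t + h) =
      ∑ k ∈ range (2 * T), ((starRingEnd ℂ) (∑ t ∈ range T, u t * ee (t * ((k : ℝ) / (2 * T : ℕ)))) *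
        (∑ s ∈ range T, v s * ee (s * ((k : ℝ) / (2 * T : ℕ))))) * ee (-(h * ((k : ℝ) / (2 * T : ℕ)))) := by
  have hX : 0 < 2 * T := by omega
  have e1 : ∀ k ∈ range (2 * T), ((starRingEnd ℂ) (∑ t ∈ range T, u t * ee (t * ((k : ℝ) / (2 * T : ℕ)))) *
        (∑ s ∈ range T, v s * ee (s * ((k : ℝ) / (2 * T : ℕ))))) * ee (-(h * ((k : ℝ) / (2 * T : ℕ)))) =
      ∑ t ∈ range T, ∑ s ∈ range T, ((starRingEnd ℂ) (u t) * v s) *
        ee ((k : ℝ) * ((((s : ℤ) - t - h : ℤ) : ℝ) / (2 * T : ℕ))) := by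
    intro k _
    rw [map_sum, sum_mul_sum, sum_mul]
    apply sum_congr rfl
    intro t _
    rw [sum_mul]
    apply sum_congr rfl
    intro s _
    rw [map_mul, conj_ee]
    have e3 : ee ((k : ℝ) * ((((s : ℤ) - t - h : ℤ) : ℝ) / (2 * T : ℕ))) =
        ee (-(t * ((k : ℝ) / (2 * T : ℕ)))) * ee (s * ((k : ℝ) / (2 * T : ℕ))) * ee (-(h * ((k : ℝ) / (2 * T : ℕ)))) := by
      rw [← ee_add, ← ee_add]
      congr 1
      push_cast
      ring
    rw [e3]
    ring
  rw [sum_congr rfl e1, sum_comm]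
  have e2 : ∀ t ∈ range T, ∑ k ∈ range (2 * T), ∑ s ∈ range T, ((starRingEnd ℂ) (u t) * v s) *
        ee ((k : ℝ) * ((((s : ℤ) - t - h : ℤ) : ℝ) / (2 * T : ℕ))) =
      if t < T - h then ((2 * T : ℕ) : ℂ) * ((starRingEnd ℂ) (u t) * v (t + h)) else 0 := by
    intro t ht
    rw [mem_range] at ht
    rw [sum_comm]
    have e4 : ∀ s ∈ range T, ∑ k ∈ range (2 * T), ((starRingEnd ℂ) (u t) * v s) *
        ee ((k : ℝ) * ((((s : ℤ) - t - h : ℤ) : ℝ) / (2 * T : ℕ))) =
        if s = t + h then ((2 * T : ℕ) : ℂ) * ((starRingEnd ℂ) (u t) * v s) else 0 := by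
      intro s hs
      rw [mem_range] at hs
      rw [← mul_sum, orth hX]
      by_cases h1 : s = t + h
      · rw [if_pos h1, if_pos]
        · ring
        · rw [h1]
          push_cast
          rw [show (t : ℤ) + h - t - h = 0 by ring]
          exact dvd_zero _
      · rw [if_neg h1, if_neg, mul_zero]
        intro hd
        have h2 : ((s : ℤ) - t - h) = 0 := by
          apply Int.eq_zero_of_abs_lt_dvd hd
          rw [abs_lt]
          constructor <;> push_cast <;> omega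
        omega
    rw [sum_congr rfl e4, sum_ite_eq']
    simp only [mem_range]
    by_cases h3 : t + h < T
    · rw [if_pos h3, if_pos (by omega)]
    · rw [if_neg h3, if_neg (by omega)]
  rw [sum_congr rfl e2, ← sum_filter, mul_sum]
  apply sum_congr _ fun _ _ => rfl
  ext t
  rw [mem_filter, mem_range, mem_range]
  omega

/-- **mean square of the correlations** -/
theorem corr_l2 {T : ℕ} (hT : 0 < T) (u v w : ℕ → ℂ) {D : ℝ}
    (hD : ∀ k : ℕ, ‖∑ t ∈ range T, u t * ee (t * ((k : ℝ) / (2 * T : ℕ)))‖ *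
      ‖∑ s ∈ range T, v s * ee (s * ((k : ℝ) / (2 * T : ℕ)))‖ ≤
      D * ‖∑ s ∈ range T, w s * ee (s * ((k : ℝ) / (2 * T : ℕ)))‖) :
    ∑ h ∈ range T, ‖∑ t ∈ range (T - h), (starRingEnd ℂ) (u t) * v (t + h)‖ ^ 2 ≤
      D ^ 2 * ∑ t ∈ range T, ‖w t‖ ^ 2 := by
  set X := 2 * T with hX
  have hX0 : 0 < X := by omega
  have hXr : (0 : ℝ) < X := by exact_mod_cast hX0
  set G : ℕ → ℂ := fun k => (starRingEnd ℂ) (∑ t ∈ range T, u t * ee (t * ((k : ℝ) / X))) *
        (∑ s ∈ range T, v s * ee (s * ((k : ℝ) / X))) with hG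
  have h1 : ∀ h ∈ range T, (X : ℝ) ^ 2 * ‖∑ t ∈ range (T - h), (starRingEnd ℂ) (u t) * v (t + h)‖ ^ 2 =
      ‖∑ k ∈ range X, (starRingEnd ℂ) (G k) * ee (k * ((h : ℝ) / X))‖ ^ 2 := by
    intro h hh
    rw [mem_range] at hh
    have h2 := corr_four hT u v hh
    rw [← hX] at h2
    have h3 : ∑ k ∈ range X, (starRingEnd ℂ) (G k) * ee (k * ((h : ℝ) / X)) =
        (starRingEnd ℂ) ((X : ℂ) * ∑ t ∈ range (T - h), (starRingEnd ℂ) (u t) * v (t + h)) := by
      rw [h2, map_sum]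
      apply sum_congr rfl
      intro k _
      rw [map_mul _ _ (ee _), conj_ee, neg_neg]
      congr 2
      ring
    rw [h3, RCLike.norm_conj, norm_mul, Complex.norm_natCast]
    ring
  have h2 : (X : ℝ) ^ 2 * ∑ h ∈ range T, ‖∑ t ∈ range (T - h), (starRingEnd ℂ) (u t) * v (t + h)‖ ^ 2 ≤
      ∑ h ∈ range X, ‖∑ k ∈ range X, (starRingEnd ℂ) (G k) * ee (k * ((h : ℝ) / X))‖ ^ 2 := by
    rw [mul_sum, sum_congr rfl h1]
    apply sum_le_sum_of_subset_of_nonneg
    · intro x hx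
      rw [mem_range] at hx ⊢
      omega
    · intro _ _ _
      positivity
  rw [pars hX0] at h2
  have h3 : ∑ k ∈ range X, ‖(starRingEnd ℂ) (G k)‖ ^ 2 ≤
      ∑ k ∈ range X, D ^ 2 * ‖∑ s ∈ range T, w s * ee (s * ((k : ℝ) / X))‖ ^ 2 := by
    apply sum_le_sum
    intro k _
    rw [RCLike.norm_conj, hG]
    simp only
    rw [norm_mul, RCLike.norm_conj, ← mul_pow]
    exact pow_le_pow_left₀ (by positivity) (hD k) 2
  have h4 : ∑ k ∈ range X, ‖∑ s ∈ range T, w s * ee (s * ((k : ℝ) / X))‖ ^ 2 = X * ∑ t ∈ range T, ‖w t‖ ^ 2 := by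
    have h5 := pars hX0 (fun t => if t < T then w t else 0)
    have h6 : ∀ k ∈ range X, ‖∑ s ∈ range T, w s * ee (s * ((k : ℝ) / X))‖ ^ 2 =
        ‖∑ t ∈ range X, (if t < T then w t else 0) * ee (t * ((k : ℝ) / X))‖ ^ 2 := by
      intro k _
      congr 2
      have h7 : ∀ t ∈ range X, (if t < T then w t else 0) * ee (t * ((k : ℝ) / X)) =
          if t < T then w t * ee (t * ((k : ℝ) / X)) else 0 := by
        intro t _
        split_ifs <;> simp
      rw [sum_congr rfl h7, ← sum_filter]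
      apply sum_congr _ fun _ _ => rfl
      ext t
      rw [mem_filter, mem_range, mem_range]
      omega
    rw [sum_congr rfl h6, h5]
    congr 1
    have h7 : ∀ t ∈ range X, ‖(if t < T then w t else 0)‖ ^ 2 = if t < T then ‖w t‖ ^ 2 else 0 := by
      intro t _
      split_ifs <;> simp
    rw [sum_congr rfl h7, ← sum_filter]
    apply sum_congr _ fun _ _ => rfl
    ext t
    rw [mem_filter, mem_range, mem_range]
    omega
  rw [← mul_sum, h4] at h3
  have h5 : (X : ℝ) ^ 2 * ∑ h ∈ range T, ‖∑ t ∈ range (T - h), (starRingEnd ℂ) (u t) * v (t + h)‖ ^ 2 ≤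
      (X : ℝ) ^ 2 * (D ^ 2 * ∑ t ∈ range T, ‖w t‖ ^ 2) := by
    refine h2.trans ?_
    calc (X : ℝ) * ∑ k ∈ range X, ‖(starRingEnd ℂ) (G k)‖ ^ 2 ≤ X * (D ^ 2 * (X * ∑ t ∈ range T, ‖w t‖ ^ 2)) :=
          mul_le_mul_of_nonneg_left h3 hXr.le
      _ = _ := by ring
  exact le_of_mul_le_mul_left h5 (by positivity)

end Pool.Agent.P8H13.PK
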