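import Pool.Agent.P8H13.PK.Sets

/-!
# Almost all admissible sets: the assembly
-/

set_option autoImplicit false

namespace Pool.Agent.P8H13.PK

open Finset

/-- the sum over the translates is controlled by their number -/
lemma ZZ_le_cnt {W S c y k N : ℕ} {a : Fin k → ℕ} (hk : 1 ≤ k) (hW : 0 < W) (hc1 : 1 ≤ c) (hcW : c ≤ W) (hS : W * S ≤ y)
    (ha : ∀ i, a i ≤ y) (hy : y ≤ N) :
    ZZ W S c a ≤ cnt y (univ.image a) * Real.log (2 * N) ^ k := by
  classical
  have hle : ∀ s, s < S → c + W * s ≤ y := by
    intro s hs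
    have h1 : W * (s + 1) ≤ W * S := Nat.mul_le_mul_left W hs
    rw [mul_add] at h1
    omega
  have hlog : 0 ≤ Real.log (2 * N) := by
    have : (2 * (N : ℝ)) = ((2 * N : ℕ) : ℝ) := by push_cast; ring
    rw [this]
    exact Real.log_natCast_nonneg _
  unfold ZZ
  have h1 : ∀ s ∈ range S, ∏ i, th (c + W * s + a i) ≤
      if (∀ i, (c + W * s + a i).Prime) then Real.log (2 * N) ^ k else 0 := by
    intro s hs
    rw [mem_range] at hs
    split_ifs with hp
    · have h2 : ∏ i, th (c + W * s + a i) ≤ ∏ _i : Fin k, Real.log (2 * N) := by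
        apply prod_le_prod (fun i _ => th_nonneg _)
        intro i _
        have h3 := th_le_of_le (n := c + W * s + a i) (N := 2 * N) (by have := hle s hs; have := ha i; omega)
        push_cast at h3
        exact h3
      rwa [prod_const, card_univ, Fintype.card_fin] at h2
    · push Not at hp
      obtain ⟨i, hi⟩ := hp
      apply le_of_eq
      apply prod_eq_zero (mem_univ i)
      unfold th
      rw [if_neg hi]
  refine (sum_le_sum h1).trans ?_
  rw [← sum_filter, sum_const, nsmul_eq_mul]
  apply mul_le_mul_of_nonneg_right _ (by positivity)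
  have h2 : ((range S).filter (fun s => ∀ i, (c + W * s + a i).Prime)).card ≤ cnt y (univ.image a) := by
    unfold cnt
    apply card_le_card_of_injOn (fun s => c + W * s)
    · intro s hs
      rw [mem_coe, mem_filter, mem_range] at hs
      rw [mem_coe, mem_filter, mem_Icc]
      refine ⟨⟨le_trans hc1 (Nat.le_add_right _ _), hle s hs.1⟩, ?_⟩
      intro b hb
      rw [mem_image] at hb
      obtain ⟨i, _, rfl⟩ := hb
      exact hs.2 i
    · intro s _ s' _ h
      have h3 : W * s = W * s' := by simp only at h; omega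
      exact Nat.eq_of_mul_eq_mul_left hW h3
  exact_mod_cast h2

open Classical in
/-- the tuples below `y` with an admissible class -/
noncomputable def TT (W y k : ℕ) : Finset (Fin k → ℕ) :=
  (Fintype.piFinset (fun _ : Fin k => range (y + 1))).filter (fun a => ∃ c : ℕ, ∀ i, (c + a i).Coprime W)

open Classical in
/-- the admissible classes -/
noncomputable def CL (W k : ℕ) : Finset (Fin k → ℕ) :=
  (Fintype.piFinset (fun _ : Fin k => range W)).filter (fun a => ∃ c : ℕ, ∀ i, (c + a i).Coprime W)

open Classical in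
/-- counting by classes -/
lemma TT_sum {W y k : ℕ} (hW : 0 < W) (Pr : (Fin k → ℕ) → Prop) [DecidablePred Pr] :
    ((TT W y k).filter Pr).card = ∑ α ∈ CL W k, ((Fintype.piFinset (fun i => Acl W y (α i))).filter Pr).card := by
  have hcop : ∀ (c : ℕ) (a b : ℕ), a % W = b % W → ((c + a).Coprime W ↔ (c + b).Coprime W) := by
    intro c a b hab
    have h1 : c + a ≡ c + b [MOD W] := Nat.ModEq.add_left c hab
    unfold Nat.Coprime
    rw [h1.gcd_eq]
  rw [card_eq_sum_card_fiberwise (f := fun a => (fun i => a i % W : Fin k → ℕ)) (t := CL W k)]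
  · apply sum_congr rfl
    intro α hα
    unfold CL at hα
    rw [mem_filter, Fintype.mem_piFinset] at hα
    congr 1
    ext a
    unfold TT
    rw [mem_filter, mem_filter, mem_filter, mem_filter, Fintype.mem_piFinset, Fintype.mem_piFinset]
    constructor
    · rintro ⟨⟨⟨h1, _⟩, h3⟩, h4⟩
      refine ⟨fun i => ?_, h3⟩
      rw [mem_Acl]
      have h5 := h1 i
      rw [mem_range] at h5
      refine ⟨by omega, ?_⟩
      rw [← h4]
      simp
    · rintro ⟨h1, h2⟩
      have h3 : ∀ i, a i ≤ y ∧ a i % W = α i % W := fun i => mem_Acl.1 (h1 i)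
      refine ⟨⟨⟨fun i => ?_, ?_⟩, h2⟩, ?_⟩
      · rw [mem_range]
        have := (h3 i).1
        omega
      · obtain ⟨c, hc⟩ := hα.2
        exact ⟨c, fun i => (hcop c _ _ (h3 i).2).2 (hc i)⟩
      · funext i
        rw [(h3 i).2, Nat.mod_eq_of_lt (mem_range.1 (hα.1 i))]
  · intro a ha
    unfold TT at ha
    rw [mem_coe, mem_filter, mem_filter] at ha
    unfold CL
    rw [mem_coe, mem_filter, Fintype.mem_piFinset]
    obtain ⟨c, hc⟩ := ha.1.2
    exact ⟨fun i => mem_range.2 (Nat.mod_lt _ hW), c, fun i => (hcop c _ _ (by simp)).2 (hc i)⟩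

open Classical in
/-- **almost all admissible sets** -/
theorem sets_bound {l κ : ℝ} {N W T y0 : ℕ} (hH : Hyp l N W T y0 κ) (hWd : ∀ p, p.Prime → (p ∣ W ↔ p ≤ y0))
    {k : ℕ} (hk : 1 ≤ k) (hky : 11 * k ≤ y0)
    {y S : ℕ} {τ η : ℝ} (hτ0 : 0 ≤ τ) (hτ : τ ≤ k / y0) (hη0 : 0 ≤ η) (hη : k * η ≤ τ) (hκ : 8 * (k * κ) ≤ τ)
    (hS : 1 ≤ S) (hyS : y + W * (S + 1) ≤ W * T)
    (hyT : (W : ℝ) * T ≤ (1 + η) * (y + 1)) (hWy : (W : ℝ) ≤ η * (y + 1))
    (hS1 : (4 * Real.log (2 * N)) ^ k ≤ τ * S)
    (hS2 : 6 * k * (T * Real.exp (-(l / 4))) * Real.log N ^ (2 * k) ≤ τ * S)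
    (hWk : (W : ℝ) * (2 * k ^ 2 + 1) ≤ y + 1) {M : ℝ} (hM : M * Real.log (2 * N) ^ k ≤ S / 6) :
    (((powersetCard k (range (y + 1))).filter (fun A => Adm A ∧ (cnt y A : ℝ) < M)).card : ℝ) ≤
      320 * (k / y0) * ((powersetCard k (range (y + 1))).filter (fun A => Adm A)).card := by
  have hpar := hH.par
  have hW0 := hpar.W0
  have hWn : 0 < W := by exact_mod_cast hW0
  have hk1 : (1 : ℝ) ≤ k := by exact_mod_cast hk
  have hk0 : (0 : ℝ) < k := by linarith
  have hy0' : (11 : ℝ) * k ≤ y0 := by exact_mod_cast hky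
  have hy0pos : (0 : ℝ) < y0 := by linarith
  have hη1 : η ≤ 1 / 11 := by
    have h1 : η ≤ k * η := le_mul_of_one_le_left hη0 hk1
    have h2 : (k : ℝ) / y0 ≤ 1 / 11 := by rw [div_le_div_iff₀ hy0pos (by norm_num)]; linarith
    linarith
  have hY1 : (1 : ℝ) ≤ (y : ℝ) + 1 := by have : (0 : ℝ) ≤ y := Nat.cast_nonneg _; linarith
  have hWSy : W * S ≤ y := by
    have h1 : ((y + W * (S + 1) : ℕ) : ℝ) ≤ ((W * T : ℕ) : ℝ) := by exact_mod_cast hyS
    push_cast at h1
    have h2 : (W : ℝ) * S + W ≤ η * (y + 1) + 1 := by nlinarith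
    have hW1 : (2 : ℝ) ≤ W := by exact_mod_cast hH.hW2
    have h3 : (W : ℝ) * S ≤ y := by nlinarith
    exact_mod_cast h3
  have hyN : y ≤ N := by have := hpar.hT1; omega
  have hlogN : 1 ≤ Real.log N := by linarith [hpar.L1, hpar.hl]
  have hlog2N : 0 < Real.log (2 * N) := by
    have : Real.log N ≤ Real.log (2 * N) := Real.log_le_log hpar.N0 (by linarith [hpar.N0])
    linarith
  -- the bad tuples
  have hA : (((TT W y k).filter (fun a => (cnt y (univ.image a) : ℝ) < M)).card : ℝ) ≤
      160 * (k / y0) * (TT W y k).card := by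
    have e1 := TT_sum (y := y) hWn (fun a : Fin k → ℕ => (cnt y (univ.image a) : ℝ) < M)
    have e2 := TT_sum (y := y) hWn (fun _ : Fin k → ℕ => True)
    rw [filter_true] at e2
    rw [e1, e2]
    push_cast
    rw [mul_sum]
    apply sum_le_sum
    intro α hα
    rw [filter_true]
    unfold CL at hα
    rw [mem_filter] at hα
    obtain ⟨c, hc⟩ := hα.2
    set c' := (c + (W - 1)) % W + 1 with hc'
    have hc'1 : 1 ≤ c' := by omega
    have hc'W : c' ≤ W := by
      have : (c + (W - 1)) % W < W := Nat.mod_lt _ hWn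
      omega
    have hmod : c' ≡ c [MOD W] := by
      have h1 : (c + (W - 1)) % W + 1 ≡ c + (W - 1) + 1 [MOD W] := Nat.ModEq.add_right 1 (Nat.mod_modEq _ _)
      have h2 : c + (W - 1) + 1 = c + W := by omega
      rw [h2] at h1
      exact h1.trans (by unfold Nat.ModEq; simp)
    have hal : ∀ i, (c' + α i).Coprime W := by
      intro i
      have h1 : c' + α i ≡ c + α i [MOD W] := Nat.ModEq.add_right _ hmod
      unfold Nat.Coprime
      rw [h1.gcd_eq]
      exact hc i
    refine le_trans ?_ (class_bound hH hk hky hτ0 hτ hη0 hη hκ hS hc'1 hc'W hyS hyT hWy hS1 hS2 α hal)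
    have hsub : (Fintype.piFinset (fun i => Acl W y (α i))).filter (fun a => (cnt y (univ.image a) : ℝ) < M) ⊆
        (Fintype.piFinset (fun i => Acl W y (α i))).filter (fun a => ZZ W S c' a ≤ S / 6) := by
      intro a ha
      rw [mem_filter] at ha ⊢
      refine ⟨ha.1, ?_⟩
      have h1 : ∀ i, a i ≤ y := fun i => (mem_Acl.1 (Fintype.mem_piFinset.1 ha.1 i)).1
      have h2 := ZZ_le_cnt (a := a) hk hWn hc'1 hc'W hWSy h1 hyN
      refine h2.trans (le_trans ?_ hM)
      exact mul_le_mul_of_nonneg_right ha.2.le (by positivity)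
    exact_mod_cast card_le_card hsub
  -- most tuples are injective
  have hB : ((TT W y k).card : ℝ) ≤ 2 * ((TT W y k).filter (fun a => Function.Injective a)).card := by
    have e1 := TT_sum (y := y) hWn (fun a : Fin k → ℕ => ¬ Function.Injective a)
    have e2 := TT_sum (y := y) hWn (fun _ : Fin k → ℕ => True)
    rw [filter_true] at e2
    have h1 : (((TT W y k).filter (fun a => ¬ Function.Injective a)).card : ℝ) ≤ (TT W y k).card / 2 := by
      rw [e1, e2]
      push_cast
      rw [sum_div]
      apply sum_le_sum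
      intro α _
      rw [filter_true]
      have hm : ∀ j, 2 * (k : ℝ) ^ 2 ≤ (Acl W y (α j)).card := by
        intro j
        have h2 := (card_Acl hWn y (α j)).2
        have h3 : 2 * (k : ℝ) ^ 2 + 1 ≤ ((y : ℝ) + 1) / W := by
          rw [le_div_iff₀ hW0]; linarith
        linarith
      have h2 := noninj_card (fun i => Acl W y (α i)) (m := 2 * (k : ℝ) ^ 2) (by positivity) hm
      have hk2 : (0 : ℝ) < (k : ℝ) ^ 2 := by positivity
      rw [le_div_iff₀ (by norm_num)]
      have h3 : (((Fintype.piFinset (fun i => Acl W y (α i))).filter (fun a => ¬ Function.Injective a)).card : ℝ) * 2 * (k : ℝ) ^ 2 ≤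
          (Fintype.piFinset (fun i => Acl W y (α i))).card * (k : ℝ) ^ 2 := by linarith
      exact le_of_mul_le_mul_right h3 hk2
    have h2 := card_filter_add_card_filter_not (s := TT W y k) (fun a => Function.Injective a)
    have h3 : (((TT W y k).filter (fun a => Function.Injective a)).card : ℝ) +
        ((TT W y k).filter (fun a => ¬ Function.Injective a)).card = (TT W y k).card := by exact_mod_cast h2
    linarith
  -- tuples and sets
  have hC : ∀ (Pr : Finset ℕ → Prop) [DecidablePred Pr], ((TT W y k).filter (fun a => Function.Injective a ∧ Pr (univ.image a))).card =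
      k.factorial * ((powersetCard k (range (y + 1))).filter (fun A => Adm A ∧ Pr A)).card := by
    intro Pr _
    rw [← inj_count]
    · congr 1
      ext a
      unfold TT
      rw [mem_filter, mem_filter, mem_filter, mem_filter, mem_powersetCard, Fintype.mem_piFinset]
      have key : Function.Injective a → ((Adm (univ.image a)) ↔ ∃ c : ℕ, ∀ i, (c + a i).Coprime W) := by
        intro hinj
        have hcard : (univ.image a).card = k := by
          rw [card_image_of_injective _ hinj, card_univ, Fintype.card_fin]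
        rw [adm_iff (y0 := y0) (W := W) (by rw [hcard]; omega) hWd hWn.ne']
        constructor
        · rintro ⟨c, hc⟩
          exact ⟨c, fun i => hc _ (mem_image_of_mem _ (mem_univ i))⟩
        · rintro ⟨c, hc⟩
          refine ⟨c, fun b hb => ?_⟩
          rw [mem_image] at hb
          obtain ⟨i, _, rfl⟩ := hb
          exact hc i
      constructor
      · rintro ⟨⟨h1, h2⟩, h3, h4⟩
        refine ⟨h1, h3, ⟨?_, ?_⟩, (key h3).2 h2, h4⟩
        · intro b hb
          rw [mem_image] at hb
          obtain ⟨i, _, rfl⟩ := hb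
          exact h1 i
        · rw [card_image_of_injective _ h3, card_univ, Fintype.card_fin]
      · rintro ⟨h1, h3, _, h5, h6⟩
        exact ⟨⟨h1, (key h3).1 h5⟩, h3, h6⟩
    · intro A hA
      rw [mem_filter, mem_powersetCard] at hA
      exact hA.1
  have hC1 := hC (fun A => (cnt y A : ℝ) < M)
  have hC2 := hC (fun _ => True)
  simp only [and_true] at hC2
  have hfac : (0 : ℝ) < k.factorial := by exact_mod_cast Nat.factorial_pos k
  have h1 : (k.factorial : ℝ) * ((powersetCard k (range (y + 1))).filter (fun A => Adm A ∧ (cnt y A : ℝ) < M)).card ≤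
      k.factorial * (320 * (k / y0) * ((powersetCard k (range (y + 1))).filter (fun A => Adm A)).card) := by
    have e1 : ((k.factorial * ((powersetCard k (range (y + 1))).filter (fun A => Adm A ∧ (cnt y A : ℝ) < M)).card : ℕ) : ℝ) =
        ((TT W y k).filter (fun a => Function.Injective a ∧ (cnt y (univ.image a) : ℝ) < M)).card := by
      exact_mod_cast hC1.symm
    have e2 : ((k.factorial * ((powersetCard k (range (y + 1))).filter (fun A => Adm A)).card : ℕ) : ℝ) =
        ((TT W y k).filter (fun a => Function.Injective a)).card := by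
      exact_mod_cast hC2.symm
    push_cast at e1 e2
    rw [e1]
    have e3 : (k.factorial : ℝ) * (320 * (k / y0) * ((powersetCard k (range (y + 1))).filter (fun A => Adm A)).card) =
        320 * (k / y0) * ((TT W y k).filter (fun a => Function.Injective a)).card := by
      rw [← e2]; ring
    rw [e3]
    have h2 : (((TT W y k).filter (fun a => Function.Injective a ∧ (cnt y (univ.image a) : ℝ) < M)).card : ℝ) ≤
        ((TT W y k).filter (fun a => (cnt y (univ.image a) : ℝ) < M)).card := by
      exact_mod_cast card_le_card (by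
        intro a ha
        rw [mem_filter] at ha ⊢
        exact ⟨ha.1, ha.2.2⟩)
    have h3 : 160 * ((k : ℝ) / y0) * (TT W y k).card ≤ 160 * ((k : ℝ) / y0) * (2 * ((TT W y k).filter (fun a => Function.Injective a)).card) :=
      mul_le_mul_of_nonneg_left hB (by positivity)
    linarith
  exact le_of_mul_le_mul_left h1 hfac

end Pool.Agent.P8H13.PK
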