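import Pool.Agent.P8H13.PK.APsum
import Pool.Agent.P8H13.PK.Corr

/-!
# The exponential sum of the primes minus the model, at every point
-/

set_option autoImplicit false

namespace Pool.Agent.P8H13.PK

open Finset
open Pool.Agent.H807R2.Dav

lemma th_zero : th 0 = 0 := by unfold th; simp [Nat.not_prime_zero]

/-- from the von Mangoldt function to the primes -/
lemma th_exp {N n : ℕ} (hN : 1 ≤ N) (hn : n ≤ N) {α B : ℝ}
    (h : ‖∑ m ∈ Icc 1 n, ((ArithmeticFunction.vonMangoldt m : ℝ) : ℂ) * ee ((m : ℝ) * α)‖ ≤ B) :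
    ‖∑ m ∈ range (n + 1), ((th m : ℝ) : ℂ) * ee ((m : ℝ) * α)‖ ≤ B + 2 * √(N : ℝ) * Real.log N := by
  have h0 : ∑ m ∈ range (n + 1), ((th m : ℝ) : ℂ) * ee ((m : ℝ) * α) =
      ∑ m ∈ Icc 1 n, ((ArithmeticFunction.vonMangoldt m : ℝ) : ℂ) * ee ((m : ℝ) * α) -
      ∑ m ∈ Icc 1 n, ((ArithmeticFunction.vonMangoldt m - th m : ℝ) : ℂ) * ee ((m : ℝ) * α) := by
    rw [← sum_sub_distrib, sum_range_succ', th_zero]
    simp only [Complex.ofReal_zero, zero_mul, add_zero]
    have e : Icc 1 n = Ico 1 (n + 1) := by ext x; rw [mem_Icc, mem_Ico]; omega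
    rw [e, sum_Ico_eq_sum_range, Nat.add_sub_cancel]
    apply sum_congr rfl
    intro m _
    rw [add_comm 1 m]
    push_cast
    ring
  rw [h0]
  refine (norm_sub_le _ _).trans ?_
  apply add_le_add h
  refine (norm_sum_le _ _).trans ?_
  have h1 : ∀ m ∈ Icc 1 n, ‖((ArithmeticFunction.vonMangoldt m - th m : ℝ) : ℂ) * ee ((m : ℝ) * α)‖ =
      ArithmeticFunction.vonMangoldt m - th m := by
    intro m _
    rw [norm_mul, norm_ee, mul_one, Complex.norm_real, Real.norm_of_nonneg]
    linarith [th_le m]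
  rw [sum_congr rfl h1]
  refine le_trans ?_ (sum_La_sub_th hN)
  apply sum_le_sum_of_subset_of_nonneg
  · exact Icc_subset_Icc_right hn
  · intro m _ _
    linarith [th_le m]

/-- detection of a residue class by additive characters -/
lemma class_detect {W b T : ℕ} (hW : 0 < W) (hb : b < W) (f : ℕ → ℝ) (α : ℝ) :
    (W : ℂ) * ∑ t ∈ range T, ((f (b + W * t) : ℝ) : ℂ) * ee (t * α) =
      ∑ j ∈ range W, ee (-(b * ((α + j) / W))) * ∑ n ∈ range (W * T), ((f n : ℝ) : ℂ) * ee (n * ((α + j) / W)) := by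
  have hW0 : (W : ℝ) ≠ 0 := by exact_mod_cast hW.ne'
  have h1 : ∀ j ∈ range W, ee (-(b * ((α + j) / W))) * ∑ n ∈ range (W * T), ((f n : ℝ) : ℂ) * ee (n * ((α + j) / W)) =
      ∑ n ∈ range (W * T), (((f n : ℝ) : ℂ) * ee (((n : ℝ) - b) * α / W)) * ee ((j : ℝ) * ((((n : ℤ) - b : ℤ) : ℝ) / W)) := by
    intro j _
    rw [mul_sum]
    apply sum_congr rfl
    intro n _
    rw [mul_assoc, ← ee_add, mul_left_comm, ← ee_add]
    congr 2
    push_cast
    field_simp
    ring
  rw [sum_congr rfl h1, sum_comm]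
  have h2 : ∀ n ∈ range (W * T), ∑ j ∈ range W, (((f n : ℝ) : ℂ) * ee (((n : ℝ) - b) * α / W)) * ee ((j : ℝ) * ((((n : ℤ) - b : ℤ) : ℝ) / W)) =
      (((f n : ℝ) : ℂ) * ee (((n : ℝ) - b) * α / W)) * (if (W : ℤ) ∣ ((n : ℤ) - b) then (W : ℂ) else 0) := by
    intro n _
    rw [← mul_sum, orth hW]
  rw [sum_congr rfl h2, range_residues _ (W * T) W hW]
  have h3 : ∀ s ∈ range W, (W * T + W - 1 - s) / W = T := by
    intro s hs
    rw [mem_range] at hs
    have : W * T + W - 1 - s = (W - 1 - s) + W * T := by omega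
    rw [this, Nat.add_mul_div_left _ _ hW, Nat.div_eq_of_lt (by omega), zero_add]
  symm
  rw [sum_eq_single b]
  · rw [h3 b (mem_range.2 hb), mul_sum]
    apply sum_congr rfl
    intro t _
    rw [if_pos]
    · have : (((b + W * t : ℕ) : ℝ) - b) * α / W = t * α := by
        push_cast
        field_simp
        ring
      rw [this]
      ring
    · push_cast
      exact ⟨t, by ring⟩
  · intro s hs hsb
    apply sum_eq_zero
    intro k _
    rw [if_neg, mul_zero]
    intro hd
    apply hsb
    rw [mem_range] at hs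
    have h4 : (W : ℤ) ∣ ((s : ℤ) - b) := by
      have h5 : (((s + W * k : ℕ) : ℤ) - b) = ((s : ℤ) - b) + W * k := by push_cast; ring
      rw [h5] at hd
      exact (Int.dvd_add_left (dvd_mul_right _ _)).1 hd
    have h5 : ((s : ℤ) - b) = 0 := by
      apply Int.eq_zero_of_abs_lt_dvd h4
      rw [abs_lt]
      constructor <;> omega
    omega
  · intro h
    exact absurd (mem_range.2 hb) h

/-- parameters and their sizes -/
structure Par (l : ℝ) (N W T : ℕ) : Prop where
  hl : 10 ≤ l
  hN : Real.exp (100 * l) ≤ N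
  hL : (10 : ℝ) ^ 8 * Real.log N ^ 10 ≤ Real.exp (l / 100)
  hW1 : 1 ≤ W
  hW : (W : ℝ) ≤ Real.exp (l / 100)
  hT1 : W * T ≤ N
  hT2 : N ≤ 2 * (W * T)

variable {l : ℝ} {N W T : ℕ}

lemma Par.N0 (h : Par l N W T) : (0 : ℝ) < N := (Real.exp_pos _).trans_le h.hN

lemma Par.L1 (h : Par l N W T) : 100 * l ≤ Real.log N := by
  rw [Real.le_log_iff_exp_le h.N0]; exact h.hN

lemma Par.W0 (h : Par l N W T) : (0 : ℝ) < W := by exact_mod_cast h.hW1

lemma Par.L2 (h : Par l N W T) : Real.log N ≤ Real.exp (l / 100) := by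
  have h1 := h.L1
  have h2 := h.hl
  have h3 : (1 : ℝ) ≤ Real.log N := by linarith
  refine le_trans ?_ h.hL
  have h4 : Real.log N ≤ Real.log N ^ 10 := le_self_pow₀ h3 (by norm_num)
  have h5 : 0 ≤ Real.log N ^ 10 := by positivity
  linarith

lemma Par.NT (h : Par l N W T) : (N : ℝ) ≤ 2 * Real.exp (l / 100) * T := by
  have h1 : (N : ℝ) ≤ 2 * (W * T) := by exact_mod_cast h.hT2
  have h2 := h.hW
  have h3 : (0 : ℝ) ≤ T := Nat.cast_nonneg _
  nlinarith

lemma Par.T0 (h : Par l N W T) : (0 : ℝ) < T := by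
  have h1 := h.NT
  have h2 := h.N0
  by_contra hc
  have h3 : (T : ℝ) = 0 := le_antisymm (not_lt.1 hc) (Nat.cast_nonneg _)
  rw [h3, mul_zero] at h1
  linarith

/-- an exponential beats a constant -/
lemma exp_big {l c : ℝ} (hl : 10 ≤ l) (hc : 1 / 2 ≤ c) : 100 ≤ Real.exp (c * l) := by
  have h1 : Real.exp 5 ≤ Real.exp (c * l) := Real.exp_le_exp.2 (by nlinarith)
  have h2 : Real.exp 5 = Real.exp 1 ^ 5 := by rw [← Real.exp_nat_mul]; norm_num
  have h3 := Real.exp_one_gt_d9
  have h4 : (2.7 : ℝ) ^ 5 ≤ Real.exp 1 ^ 5 := pow_le_pow_left₀ (by norm_num) (by linarith) 5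
  rw [h2] at h1
  norm_num at h4
  linarith

/-- the primes in a residue class on the minor arcs -/
theorem prim_minor (h : Par l N W T) {b : ℕ} (hb : b < W) {α : ℝ}
    (hα : ∀ r : ℕ, 1 ≤ r → r ≤ ⌊Real.exp (l / 2)⌋₊ → 7 * W * Real.exp (3 * l) / N ≤ dd (r * α)) :
    ‖∑ t ∈ range T, ((th (b + W * t) : ℝ) : ℂ) * ee (t * α)‖ ≤
      N * Real.exp (-(6 * l / 25)) + 2 * √(N : ℝ) * Real.log N := by
  have hl := h.hl
  have hN0 := h.N0
  have hW0 := h.W0
  have hNn : 1 ≤ N := by exact_mod_cast (Nat.cast_pos.1 hN0)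
  set C := N * Real.exp (-(6 * l / 25)) + 2 * √(N : ℝ) * Real.log N with hC
  have hC0 : 0 ≤ C := by
    have : 0 ≤ Real.log N := by linarith [h.L1]
    positivity
  -- each frequency
  have hj : ∀ j ∈ range W, ‖ee (-(b * ((α + j) / W))) * ∑ n ∈ range (W * T), ((th n : ℝ) : ℂ) * ee (n * ((α + j) / W))‖ ≤ C := by
    intro j _
    rw [norm_mul, norm_ee, one_mul]
    rcases Nat.eq_zero_or_pos (W * T) with h0 | h0
    · rw [h0]; simp; exact hC0
    have e1 : W * T = (W * T - 1) + 1 := by omega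
    rw [e1]
    apply th_exp hNn (le_trans (Nat.sub_le _ _) h.hT1)
    set θ := (α + j) / W with hθ
    set R := ⌊(N : ℝ) * Real.exp (-(3 * l))⌋₊ with hR
    have hNe : (1 : ℝ) ≤ N * Real.exp (-(3 * l)) := by
      calc (1 : ℝ) = Real.exp 0 := Real.exp_zero.symm
        _ ≤ Real.exp (100 * l) * Real.exp (-(3 * l)) := by rw [← Real.exp_add]; exact Real.exp_le_exp.2 (by linarith)
        _ ≤ _ := mul_le_mul_of_nonneg_right h.hN (Real.exp_pos _).le
    have hRpos : 0 < R := Nat.floor_pos.2 hNe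
    obtain ⟨r, hr1, hr2⟩ := Real.exists_rat_abs_sub_le_and_den_le θ hRpos
    have hden : (0 : ℝ) < r.den := by exact_mod_cast r.pos
    have hden1 : (1 : ℝ) ≤ r.den := by exact_mod_cast r.pos
    have hR1 : (N : ℝ) * Real.exp (-(3 * l)) < R + 1 := Nat.lt_floor_add_one _
    have hR0 : (R : ℝ) ≤ N * Real.exp (-(3 * l)) := Nat.floor_le (by positivity)
    have hrcast : (r : ℝ) = r.num / r.den := by exact_mod_cast (Rat.num_div_den r).symm
    have hdenR : (r.den : ℝ) ≤ R := by exact_mod_cast hr2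
    have hbig : Real.exp (l / 2) ≤ r.den := by
      by_contra hcon
      push Not at hcon
      have h1 : r.den ≤ ⌊Real.exp (l / 2)⌋₊ := Nat.le_floor hcon.le
      have h2 := hα r.den r.pos h1
      have h3 : (r.den : ℝ) * α = (W * (r.den * (θ - r))) + (((W : ℤ) * r.num - (r.den : ℤ) * j : ℤ) : ℝ) := by
        have h4 : α = W * θ - j := by rw [hθ]; field_simp; ring
        rw [h4, hrcast]
        push_cast
        field_simp
        ring
      rw [h3, dd_add_int] at h2
      have h4 := dd_le (W * (r.den * (θ - r)))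
      have h5 : |(W : ℝ) * (r.den * (θ - r))| ≤ W * (1 / (R + 1)) := by
        rw [abs_mul, abs_of_pos hW0, abs_mul, abs_of_pos hden]
        apply mul_le_mul_of_nonneg_left _ hW0.le
        calc (r.den : ℝ) * |θ - r| ≤ r.den * (1 / ((R + 1) * r.den)) := mul_le_mul_of_nonneg_left hr1 hden.le
          _ = 1 / (R + 1) := by field_simp
      have h6 : (1 : ℝ) / (R + 1) < Real.exp (3 * l) / N := by
        rw [div_lt_div_iff₀ (by positivity) hN0, one_mul]
        have h7 : Real.exp (3 * l) * Real.exp (-(3 * l)) = 1 := by rw [← Real.exp_add]; simp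
        calc (N : ℝ) = Real.exp (3 * l) * (N * Real.exp (-(3 * l))) := by rw [mul_left_comm, h7, mul_one]
          _ < Real.exp (3 * l) * (R + 1) := mul_lt_mul_of_pos_left hR1 (Real.exp_pos _)
      have hpi := Real.pi_lt_d2
      have hpi0 := Real.pi_pos
      have h8 : 2 * Real.pi * |(W : ℝ) * (r.den * (θ - r))| ≤ 7 * W * (1 / (R + 1)) := by
        calc _ ≤ 2 * Real.pi * (W * (1 / (R + 1))) := mul_le_mul_of_nonneg_left h5 (by positivity)
          _ ≤ 7 * (W * (1 / (R + 1))) := by
              apply mul_le_mul_of_nonneg_right (by linarith) (by positivity)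
          _ = _ := by ring
      have h9 : 7 * (W : ℝ) * (1 / (R + 1)) < 7 * W * (Real.exp (3 * l) / N) :=
        mul_lt_mul_of_pos_left h6 (by positivity)
      have h10 : 7 * (W : ℝ) * Real.exp (3 * l) / N = 7 * W * (Real.exp (3 * l) / N) := by ring
      rw [h10] at h2
      linarith
    have hα' : |θ - r.num / r.den| ≤ 1 / (r.den : ℝ) ^ 2 := by
      rw [← hrcast]
      refine hr1.trans ?_
      apply one_div_le_one_div_of_le (by positivity)
      rw [sq]
      apply mul_le_mul_of_nonneg_right _ hden.le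
      linarith
    have hcop : IsCoprime r.num (r.den : ℤ) := by
      rw [Int.isCoprime_iff_nat_coprime]
      simpa using r.reduced
    exact minor_La (by linarith) h.hN h.hL hbig (hdenR.trans hR0) hcop hα' (le_trans (Nat.sub_le _ _) h.hT1)
  have h1 := class_detect (W := W) (b := b) (T := T) (by exact_mod_cast h.hW1) hb th α
  have h2 : (W : ℝ) * ‖∑ t ∈ range T, ((th (b + W * t) : ℝ) : ℂ) * ee (t * α)‖ ≤ W * C := by
    have h3 := congrArg norm h1
    rw [norm_mul, Complex.norm_natCast] at h3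
    rw [h3]
    refine (norm_sum_le _ _).trans ?_
    refine (sum_le_sum hj).trans ?_
    rw [sum_const, card_range, nsmul_eq_mul]
  exact le_of_mul_le_mul_left h2 hW0

/-- **the exponential sum of the difference** -/
theorem sup_FF (h : Par l N W T) (hP : PAP l (2 * N)) {b : ℕ} (hb1 : 1 ≤ b) (hb : b < W) (hbW : b.Coprime W) (α : ℝ) :
    ‖∑ t ∈ range T, ((FF W ⌊Real.exp (l / 2)⌋₊ b t : ℝ) : ℂ) * ee (t * α)‖ ≤ T * Real.exp (-(l / 5)) := by
  have hl := h.hl
  have hN0 := h.N0
  have hW0 := h.W0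
  have hT0 := h.T0
  have hL1 := h.L1
  have hL2 := h.L2
  have hNT := h.NT
  have hWe := h.hW
  have hNn : 1 ≤ N := by exact_mod_cast (Nat.cast_pos.1 hN0)
  set Q := ⌊Real.exp (l / 2)⌋₊ with hQ
  have hQ1 : (Q : ℝ) ≤ Real.exp (l / 2) := Nat.floor_le (Real.exp_pos _).le
  have hQ0 : (0 : ℝ) ≤ Q := Nat.cast_nonneg _
  have hQQ : (Q : ℝ) ^ 2 ≤ Real.exp l := by
    calc (Q : ℝ) ^ 2 ≤ Real.exp (l / 2) ^ 2 := pow_le_pow_left₀ hQ0 hQ1 2
      _ = Real.exp l := by rw [← Real.exp_nat_mul]; congr 1; push_cast; ring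
  set ρ := 7 * W * Real.exp (3 * l) / N with hρ
  have hρ0 : 0 < ρ := by positivity
  have hWTN : (W : ℝ) * T ≤ N := by exact_mod_cast h.hT1
  have hTρ : T * ρ ≤ 7 * Real.exp (3 * l) := by
    rw [hρ, mul_div_assoc', div_le_iff₀ hN0]
    have : 0 < Real.exp (3 * l) := Real.exp_pos _
    nlinarith
  have hWN : (W : ℝ) * Q + W ≤ N := by
    have e1 : (W : ℝ) * Q + W ≤ Real.exp l + Real.exp l := by
      have a1 : (W : ℝ) * Q ≤ Real.exp l := by
        calc (W : ℝ) * Q ≤ Real.exp (l / 100) * Real.exp (l / 2) := mul_le_mul hWe hQ1 hQ0 (Real.exp_pos _).le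
          _ ≤ Real.exp l := by rw [← Real.exp_add]; exact Real.exp_le_exp.2 (by linarith)
      have a2 : (W : ℝ) ≤ Real.exp l := hWe.trans (Real.exp_le_exp.2 (by linarith))
      linarith
    refine e1.trans (le_trans ?_ h.hN)
    have e2 := exp_big (l := l) (c := 1) hl (by norm_num)
    rw [one_mul] at e2
    calc Real.exp l + Real.exp l ≤ Real.exp l * Real.exp l := by nlinarith
      _ = Real.exp (2 * l) := by rw [← Real.exp_add]; ring_nf
      _ ≤ _ := Real.exp_le_exp.2 (by linarith)
  by_cases hmaj : ∃ q : ℕ, 1 ≤ q ∧ q ≤ Q ∧ dd (q * α) < ρ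
  · obtain ⟨q, hq1, hqQ, hdq⟩ := hmaj
    set E := 2 * ((2 * N : ℕ) * Real.exp (-(20 * l))) + Real.log ((2 * N : ℕ) + 1) + W * (2 * (Q : ℝ) ^ 2) with hE
    have hlog0 : 0 ≤ Real.log (((2 * N : ℕ) : ℝ) + 1) := Real.log_nonneg (by have := Nat.cast_nonneg (α := ℝ) (2 * N); linarith)
    have hE0 : 0 ≤ E := by positivity
    have hF : ∀ s n : ℕ, s < q → s + q * n ≤ T + q → |∑ k ∈ range n, FF W Q b (s + q * k)| ≤ E := by
      intro s n hs hsn
      apply FF_ap hP h.hW1 hb1 hbW hq1 hqQ
      · push_cast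
        calc (W : ℝ) * Q ≤ Real.exp (l / 100) * Real.exp (l / 2) := mul_le_mul hWe hQ1 hQ0 (Real.exp_pos _).le
          _ ≤ Real.exp l := by rw [← Real.exp_add]; exact Real.exp_le_exp.2 (by linarith)
      · have e1 : b + W * s + W * q * n = b + W * (s + q * n) := by ring
        have e2 : W * (s + q * n) ≤ W * (T + q) := Nat.mul_le_mul_left W hsn
        have e3 : W * q ≤ W * Q := Nat.mul_le_mul_left W hqQ
        have e4 : W * Q + W ≤ N := by exact_mod_cast hWN
        have e5 := h.hT1
        have e6 : W * (T + q) = W * T + W * q := mul_add _ _ _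
        rw [e1]
        omega
    have h1 := major_range (FF W Q b) hq1 hE0 hF α
    refine h1.trans ?_
    have hElog : Real.log (((2 * N : ℕ) : ℝ) + 1) ≤ 3 * Real.exp l := by
      have a1 : Real.log (((2 * N : ℕ) : ℝ) + 1) ≤ Real.log ((N : ℝ) ^ 3) := by
        apply Real.log_le_log (by positivity)
        push_cast
        have e1 : (100 : ℝ) ≤ N := by
          have := exp_big (l := l) (c := 100) hl (by norm_num)
          linarith [h.hN]
        have e2 : (N : ℝ) ^ 3 = N * N * N := by ring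
        rw [e2]
        nlinarith [mul_pos hN0 hN0]
      rw [Real.log_pow] at a1
      push_cast at a1
      have a2 : Real.exp (l / 100) ≤ Real.exp l := Real.exp_le_exp.2 (by linarith)
      push_cast
      linarith
    have hEb : E ≤ N * Real.exp (-(19 * l)) := by
      have b1 : 2 * (((2 * N : ℕ) : ℝ) * Real.exp (-(20 * l))) ≤ 1 / 2 * (N * Real.exp (-(19 * l))) := by
        push_cast
        have e2 := exp_big (l := l) (c := 1) hl (by norm_num)
        rw [one_mul] at e2
        have e3 : Real.exp (-(19 * l)) = Real.exp (-(20 * l)) * Real.exp l := by rw [← Real.exp_add]; ring_nf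
        rw [e3]
        have e4 : 0 < N * Real.exp (-(20 * l)) := by positivity
        nlinarith
      have b2 : Real.log (((2 * N : ℕ) : ℝ) + 1) + W * (2 * (Q : ℝ) ^ 2) ≤ 1 / 2 * (N * Real.exp (-(19 * l))) := by
        have c1 : (W : ℝ) * (2 * (Q : ℝ) ^ 2) ≤ 2 * Real.exp (2 * l) := by
          calc (W : ℝ) * (2 * (Q : ℝ) ^ 2) ≤ Real.exp l * (2 * Real.exp l) := by
                apply mul_le_mul (hWe.trans (Real.exp_le_exp.2 (by linarith))) (by linarith) (by positivity) (Real.exp_pos _).le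
            _ = 2 * Real.exp (2 * l) := by rw [mul_left_comm, ← Real.exp_add]; ring_nf
        have c2 : Real.exp l ≤ Real.exp (2 * l) := Real.exp_le_exp.2 (by linarith)
        have c3 : 10 * Real.exp (2 * l) ≤ N * Real.exp (-(19 * l)) := by
          have e2 := exp_big (l := l) (c := 1) hl (by norm_num)
          rw [one_mul] at e2
          calc 10 * Real.exp (2 * l) ≤ Real.exp l * Real.exp (2 * l) := mul_le_mul_of_nonneg_right (by linarith) (Real.exp_pos _).le
            _ = Real.exp (3 * l) := by rw [← Real.exp_add]; ring_nf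
            _ ≤ Real.exp (100 * l) * Real.exp (-(19 * l)) := by rw [← Real.exp_add]; exact Real.exp_le_exp.2 (by linarith)
            _ ≤ _ := mul_le_mul_of_nonneg_right h.hN (Real.exp_pos _).le
        linarith
      rw [hE]
      linarith
    have hqr : (q : ℝ) ≤ Real.exp (l / 2) := le_trans (by exact_mod_cast hqQ) hQ1
    have hlast : 1 + 2 * T * dd (q * α) ≤ 15 * Real.exp (3 * l) := by
      have e1 : (T : ℝ) * dd (q * α) ≤ T * ρ := mul_le_mul_of_nonneg_left hdq.le hT0.le
      have e2 := exp_big (l := l) (c := 3) hl (by norm_num)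
      nlinarith
    calc (q : ℝ) * E * (1 + 2 * T * dd (q * α)) ≤ (Real.exp (l / 2) * (N * Real.exp (-(19 * l)))) * (15 * Real.exp (3 * l)) := by
          apply mul_le_mul (mul_le_mul hqr hEb hE0 (Real.exp_pos _).le) hlast _ (by positivity)
          have := dd_nonneg (q * α)
          positivity
      _ = 15 * N * (Real.exp (l / 2) * Real.exp (-(19 * l)) * Real.exp (3 * l)) := by ring
      _ = 15 * N * Real.exp (-(31 * l / 2)) := by rw [← Real.exp_add, ← Real.exp_add]; ring_nf
      _ ≤ 15 * (2 * Real.exp (l / 100) * T) * Real.exp (-(31 * l / 2)) := by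
          apply mul_le_mul_of_nonneg_right _ (Real.exp_pos _).le
          linarith
      _ = T * (30 * (Real.exp (l / 100) * Real.exp (-(31 * l / 2)))) := by ring
      _ ≤ T * Real.exp (-(l / 5)) := by
          apply mul_le_mul_of_nonneg_left _ hT0.le
          have e2 := exp_big (l := l) (c := 1) hl (by norm_num)
          rw [one_mul] at e2
          calc 30 * (Real.exp (l / 100) * Real.exp (-(31 * l / 2))) ≤ Real.exp l * (Real.exp (l / 100) * Real.exp (-(31 * l / 2))) :=
                mul_le_mul_of_nonneg_right (by linarith) (by positivity)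
            _ ≤ Real.exp (-(l / 5)) := by rw [← Real.exp_add, ← Real.exp_add]; exact Real.exp_le_exp.2 (by linarith)
  · push Not at hmaj
    have h1 := prim_minor h hb (α := α) (fun r hr1 hr2 => hmaj r hr1 hr2)
    have h2 := mo_minor (W := W) (Q := Q) b T (α := α) hρ0 (fun r hr1 hr2 => hmaj r hr1 hr2)
    have h3 : ∑ t ∈ range T, ((FF W Q b t : ℝ) : ℂ) * ee (t * α) =
        ∑ t ∈ range T, ((th (b + W * t) : ℝ) : ℂ) * ee (t * α) -
        (gW W : ℂ) * ∑ t ∈ range T, ((mo W Q b t : ℝ) : ℂ) * ee (t * α) := by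
      rw [mul_sum, ← sum_sub_distrib]
      apply sum_congr rfl
      intro t _
      unfold FF
      push_cast
      ring
    rw [h3]
    refine (norm_sub_le _ _).trans ?_
    rw [norm_mul, Complex.norm_real, Real.norm_of_nonneg (gW_nonneg W)]
    -- the three contributions
    have c1 : N * Real.exp (-(6 * l / 25)) ≤ T * (2 * Real.exp (-(23 * l / 100))) := by
      calc N * Real.exp (-(6 * l / 25)) ≤ (2 * Real.exp (l / 100) * T) * Real.exp (-(6 * l / 25)) :=
            mul_le_mul_of_nonneg_right hNT (Real.exp_pos _).le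
        _ = T * (2 * (Real.exp (l / 100) * Real.exp (-(6 * l / 25)))) := by ring
        _ = _ := by rw [← Real.exp_add]; ring_nf
    have c2 : 2 * √(N : ℝ) * Real.log N ≤ T * (2 * Real.exp (-(23 * l / 100))) := by
      have e1 : √(N : ℝ) ≤ N * Real.exp (-(50 * l)) := by
        have a1 : Real.exp (50 * l) ≤ √(N : ℝ) := by
          rw [show Real.exp (50 * l) = √(Real.exp (50 * l) ^ 2) by rw [Real.sqrt_sq (Real.exp_pos _).le]]
          apply Real.sqrt_le_sqrt
          rw [← Real.exp_nat_mul]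
          refine le_trans (Real.exp_le_exp.2 ?_) h.hN
          push_cast
          linarith
        have a2 : √(N : ℝ) * √(N : ℝ) = N := Real.mul_self_sqrt hN0.le
        have a3 : Real.exp (50 * l) * Real.exp (-(50 * l)) = 1 := by rw [← Real.exp_add]; simp
        have a4 : 0 < Real.exp (-(50 * l)) := Real.exp_pos _
        have a5 : 0 ≤ √(N : ℝ) := Real.sqrt_nonneg _
        calc √(N : ℝ) = √(N : ℝ) * (Real.exp (50 * l) * Real.exp (-(50 * l))) := by rw [a3, mul_one]
          _ ≤ √(N : ℝ) * (√(N : ℝ) * Real.exp (-(50 * l))) := by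
              apply mul_le_mul_of_nonneg_left _ a5
              exact mul_le_mul_of_nonneg_right a1 a4.le
          _ = _ := by rw [← mul_assoc, a2]
      calc 2 * √(N : ℝ) * Real.log N ≤ 2 * (N * Real.exp (-(50 * l))) * Real.exp (l / 100) := by
            apply mul_le_mul (by linarith) hL2 (by linarith) (by positivity)
        _ ≤ 2 * ((2 * Real.exp (l / 100) * T) * Real.exp (-(50 * l))) * Real.exp (l / 100) := by
            apply mul_le_mul_of_nonneg_right _ (Real.exp_pos _).le
            apply mul_le_mul_of_nonneg_left _ (by norm_num)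
            exact mul_le_mul_of_nonneg_right hNT (Real.exp_pos _).le
        _ = T * (2 * (2 * (Real.exp (l / 100) * Real.exp (-(50 * l)) * Real.exp (l / 100)))) := by ring
        _ ≤ T * (2 * Real.exp (-(23 * l / 100))) := by
            apply mul_le_mul_of_nonneg_left _ hT0.le
            apply mul_le_mul_of_nonneg_left _ (by norm_num)
            have e2 := exp_big (l := l) (c := 1) hl (by norm_num)
            rw [one_mul] at e2
            calc 2 * (Real.exp (l / 100) * Real.exp (-(50 * l)) * Real.exp (l / 100)) ≤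
                Real.exp l * (Real.exp (l / 100) * Real.exp (-(50 * l)) * Real.exp (l / 100)) :=
                  mul_le_mul_of_nonneg_right (by linarith) (by positivity)
              _ ≤ _ := by
                rw [← Real.exp_add, ← Real.exp_add, ← Real.exp_add]
                exact Real.exp_le_exp.2 (by linarith)
    have c3 : gW W * ‖∑ t ∈ range T, ((mo W Q b t : ℝ) : ℂ) * ee (t * α)‖ ≤ T * (2 * Real.exp (-(23 * l / 100))) := by
      calc gW W * ‖∑ t ∈ range T, ((mo W Q b t : ℝ) : ℂ) * ee (t * α)‖ ≤ W * (2 * (Q : ℝ) ^ 2 / ρ) :=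
            mul_le_mul (gW_le h.hW1) h2 (norm_nonneg _) hW0.le
        _ = 2 / 7 * (Q : ℝ) ^ 2 * N / Real.exp (3 * l) := by rw [hρ]; field_simp
        _ = 2 / 7 * (Q : ℝ) ^ 2 * N * Real.exp (-(3 * l)) := by rw [Real.exp_neg]; rfl
        _ ≤ 2 / 7 * Real.exp l * (2 * Real.exp (l / 100) * T) * Real.exp (-(3 * l)) := by
            apply mul_le_mul_of_nonneg_right _ (Real.exp_pos _).le
            apply mul_le_mul (by linarith) hNT hN0.le (by positivity)
        _ = T * (4 / 7 * (Real.exp l * Real.exp (l / 100) * Real.exp (-(3 * l)))) := by ring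
        _ ≤ T * (2 * Real.exp (-(23 * l / 100))) := by
            apply mul_le_mul_of_nonneg_left _ hT0.le
            rw [← Real.exp_add, ← Real.exp_add]
            have e1 : Real.exp (l + l / 100 + -(3 * l)) ≤ Real.exp (-(23 * l / 100)) := Real.exp_le_exp.2 (by linarith)
            have e2 := Real.exp_pos (-(23 * l / 100))
            linarith
    have c4 : 6 * Real.exp (-(23 * l / 100)) ≤ Real.exp (-(l / 5)) := by
      have e1 : Real.exp (-(l / 5)) = Real.exp (-(23 * l / 100)) * Real.exp (3 * l / 100) := by rw [← Real.exp_add]; ring_nf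
      rw [e1]
      have e2 : 6 ≤ Real.exp (3 * l / 100) := by
        -- from the size condition
        have a1 : (1 : ℝ) ≤ Real.log N ^ 10 := one_le_pow₀ (by linarith)
        have a2 : (10 : ℝ) ^ 8 ≤ Real.exp (l / 100) := by
          have := h.hL
          nlinarith
        have a3 : Real.exp (l / 100) ≤ Real.exp (3 * l / 100) := Real.exp_le_exp.2 (by linarith)
        linarith
      have e3 := Real.exp_pos (-(23 * l / 100))
      nlinarith
    have c5 : T * (6 * Real.exp (-(23 * l / 100))) ≤ T * Real.exp (-(l / 5)) := mul_le_mul_of_nonneg_left c4 hT0.le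
    linarith

end Pool.Agent.P8H13.PK
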