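import Pool.Agent.P8H13.PK.Sup
import Pool.Agent.Helper112.Arith

/-!
# Pairs of primes in a residue class with a given difference
-/

set_option autoImplicit false

namespace Pool.Agent.P8H13.PK

open Finset
open Pool.Agent.H807R2.Dav

/-- the weighted number of pairs of primes with difference `W h` in the class of `b` -/
noncomputable def rb (W b T h : ℕ) : ℝ := ∑ t ∈ range (T - h), th (b + W * t) * th (b + W * (t + h))

lemma mo_sq : ∃ C : ℝ, 0 < C ∧ ∀ W Q b n : ℕ, 1 ≤ Q →
    ∑ t ∈ range n, mo W Q b t ^ 2 ≤ n * (C * (1 + Real.log Q)) + 2 * (Q : ℝ) ^ 4 := by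
  obtain ⟨C, hC, h⟩ := Pool.Agent.Helper112.sum_ratio_sq
  refine ⟨C, hC, fun W Q b n hQ => ?_⟩
  have h1 := mo_corr0 (W := W) (Q := Q) b 0 n
  have h2 : ∑ t ∈ range n, mo W Q b t ^ 2 = ∑ t ∈ range n, mo W Q b t * mo W Q b (t + 0) := by
    apply sum_congr rfl
    intro t _
    rw [add_zero, sq]
  rw [h2]
  refine h1.trans ?_
  have h3 : ∑ r ∈ RQ W Q, ∏ p ∈ r.primeFactors, xp p 0 ≤ C * (1 + Real.log Q) := by
    refine le_trans ?_ (h Q hQ)
    have h4 : ∀ r ∈ RQ W Q, ∏ p ∈ r.primeFactors, xp p 0 ≤ (1 / (r : ℝ)) * ((r : ℝ) / (Nat.totient r : ℝ)) ^ 2 := by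
      intro r hr
      rw [mem_RQ] at hr
      have hr0 : (0 : ℝ) < r := by exact_mod_cast (show 0 < r by omega)
      have h5 : ∏ p ∈ r.primeFactors, xp p 0 = (1 / (r : ℝ)) * ((r : ℝ) / (Nat.totient r : ℝ)) := by
        rw [Pool.Agent.Helper112.ratio_eq r (by omega)]
        have h6 := prod_pf hr.2.1
        conv_rhs => rw [← h6]
        rw [one_div, ← prod_inv_distrib, ← prod_mul_distrib]
        apply prod_congr rfl
        intro p hp
        have hp' := Nat.prime_of_mem_primeFactors hp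
        have h2 : (2 : ℝ) ≤ p := by exact_mod_cast hp'.two_le
        have h3 : (p : ℝ) - 1 ≠ 0 := by linarith
        have h4 : (p : ℝ) ≠ 0 := by linarith
        unfold xp
        rw [if_pos (dvd_zero _)]
        field_simp
      rw [h5]
      have h6 : (1 : ℝ) ≤ (r : ℝ) / (Nat.totient r : ℝ) := by
        have : (0 : ℝ) < Nat.totient r := by exact_mod_cast Nat.totient_pos.2 (show 0 < r by omega)
        rw [le_div_iff₀ this, one_mul]
        exact_mod_cast Nat.totient_le r
      apply mul_le_mul_of_nonneg_left _ (by positivity)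
      nlinarith
    refine (sum_le_sum h4).trans ?_
    apply sum_le_sum_of_subset_of_nonneg
    · intro r hr
      rw [mem_RQ] at hr
      rw [mem_Icc]
      exact hr.1
    · intro r _ _
      positivity
  have h4 : (0 : ℝ) ≤ n := Nat.cast_nonneg n
  nlinarith

lemma card_big {S : Finset ℕ} {f : ℕ → ℝ} {δ E : ℝ} (hδ : 0 < δ) (hf : ∑ h ∈ S, f h ^ 2 ≤ E) :
    ((S.filter (fun h => δ < |f h|)).card : ℝ) * δ ^ 2 ≤ E := by
  refine le_trans ?_ hf
  rw [← nsmul_eq_mul, ← sum_const]
  refine le_trans (sum_le_sum fun h hh => ?_) (sum_le_sum_of_subset_of_nonneg (filter_subset _ _) fun _ _ _ => sq_nonneg _)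
  rw [mem_filter] at hh
  rw [← sq_abs (f h)]
  exact pow_le_pow_left₀ hδ.le hh.2.le 2

/-- **pairs of primes**: the upper bound outside few differences -/
theorem pair_bound : ∃ l0 : ℝ, ∀ l : ℝ, l0 ≤ l → ∀ N W T : ℕ, Par l N W T → PAP l (2 * N) →
    ∀ b : ℕ, 1 ≤ b → b < W → b.Coprime W → ∃ X : Finset ℕ, (X.card : ℝ) ≤ T * Real.exp (-(l / 4)) ∧
      ∀ h : ℕ, h < T → h ∉ X → rb W b T h ≤
        T * gW W ^ 2 * (∏ p ∈ (Icc 1 ⌊Real.exp (l / 2)⌋₊).filter (fun p => p.Prime ∧ ¬ p ∣ W), (1 + xp p h) +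
          2 * Real.exp (-(l / 20))) := by
  obtain ⟨C, hC, hmo⟩ := mo_sq
  obtain ⟨l1, hl1⟩ : ∃ l1 : ℝ, ∀ l : ℝ, l1 ≤ l → C * (1 + l) + 3 ≤ Real.exp (l / 200) := by
    have h1 := Real.tendsto_pow_mul_exp_neg_atTop_nhds_zero 1
    have h2 : Filter.Tendsto (fun l : ℝ => l / 200) Filter.atTop Filter.atTop :=
      Filter.tendsto_id.atTop_div_const (by norm_num)
    have h3 := (h1.comp h2).eventually (gt_mem_nhds (show (0 : ℝ) < 1 / (200 * (C + C + 3)) by positivity))
    obtain ⟨l1, hl1⟩ := Filter.eventually_atTop.1 h3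
    refine ⟨max l1 1, fun l hl => ?_⟩
    have h4 := hl1 l ((le_max_left _ _).trans hl)
    have h5 : 1 ≤ l := (le_max_right _ _).trans hl
    simp only [Function.comp_apply, pow_one] at h4
    rw [Real.exp_neg, ← div_eq_mul_inv, div_lt_div_iff₀ (Real.exp_pos _) (by positivity)] at h4
    nlinarith
  refine ⟨max l1 10, fun l hl N W T h hP b hb1 hb hbW => ?_⟩
  have hll1 : l1 ≤ l := (le_max_left _ _).trans hl
  have hpoly := hl1 l hll1
  have hl10 := h.hl
  have hT0 := h.T0
  have hTn : 0 < T := by exact_mod_cast hT0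
  have hN0 := h.N0
  have hL2 := h.L2
  have hNT := h.NT
  have hWe := h.hW
  have hW0 := h.W0
  set Q := ⌊Real.exp (l / 2)⌋₊ with hQ
  have hQ1 : (Q : ℝ) ≤ Real.exp (l / 2) := Nat.floor_le (Real.exp_pos _).le
  have hQ0 : (0 : ℝ) ≤ Q := Nat.cast_nonneg _
  have hQn : 1 ≤ Q := Nat.floor_pos.2 (Real.one_le_exp (by linarith))
  have hQ4 : (Q : ℝ) ^ 4 ≤ Real.exp (2 * l) := by
    calc (Q : ℝ) ^ 4 ≤ Real.exp (l / 2) ^ 4 := pow_le_pow_left₀ hQ0 hQ1 4
      _ = _ := by rw [← Real.exp_nat_mul]; congr 1; push_cast; ring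
  have hTbig : Real.exp (90 * l) ≤ T := by
    have h1 := h.hN
    have e2 := exp_big (l := l) (c := 1) hl10 (by norm_num)
    rw [one_mul] at e2
    have h2 : Real.exp (100 * l) ≤ Real.exp (2 * l) * T := by
      refine (h1.trans hNT).trans ?_
      apply mul_le_mul_of_nonneg_right _ hT0.le
      calc 2 * Real.exp (l / 100) ≤ Real.exp l * Real.exp l := by
            apply mul_le_mul (by linarith) (Real.exp_le_exp.2 (by linarith)) (Real.exp_pos _).le (Real.exp_pos _).le
        _ = Real.exp (2 * l) := by rw [← Real.exp_add]; ring_nf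
    have h3 : Real.exp (100 * l) = Real.exp (2 * l) * Real.exp (98 * l) := by rw [← Real.exp_add]; ring_nf
    rw [h3] at h2
    have h4 := le_of_mul_le_mul_left h2 (Real.exp_pos _)
    exact (Real.exp_le_exp.2 (by linarith)).trans h4
  set D := T * Real.exp (-(l / 5)) with hD
  have hD0 : 0 ≤ D := by positivity
  have hsup := sup_FF h hP hb1 hb hbW
  rw [← hQ] at hsup
  have hg0 := gW_nonneg W
  have hgW := gW_le h.hW1
  have hg1 : 1 ≤ gW W := by
    unfold gW
    have : (0 : ℝ) < Nat.totient W := by exact_mod_cast Nat.totient_pos.2 (show 0 < W by exact h.hW1)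
    rw [le_div_iff₀ this, one_mul]
    exact_mod_cast Nat.totient_le W
  have hgW2 : gW W ^ 2 ≤ Real.exp (l / 50) := by
    calc gW W ^ 2 ≤ Real.exp (l / 100) ^ 2 := pow_le_pow_left₀ hg0 (hgW.trans hWe) 2
      _ = _ := by rw [← Real.exp_nat_mul]; congr 1; push_cast; ring
  -- the two error terms
  set E1 : ℕ → ℝ := fun h => ∑ t ∈ range (T - h), FF W Q b t * th (b + W * (t + h)) with hE1
  set E2 : ℕ → ℝ := fun h => ∑ t ∈ range (T - h), (gW W * mo W Q b t) * FF W Q b (t + h) with hE2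
  have hdec : ∀ h, rb W b T h = E1 h + E2 h + gW W ^ 2 * ∑ t ∈ range (T - h), mo W Q b t * mo W Q b (t + h) := by
    intro h
    rw [hE1, hE2]
    unfold rb
    simp only
    rw [mul_sum, ← sum_add_distrib, ← sum_add_distrib]
    apply sum_congr rfl
    intro t _
    unfold FF
    ring
  have hb1' := corr_l2 hTn (fun t => ((FF W Q b t : ℝ) : ℂ)) (fun t => ((th (b + W * t) : ℝ) : ℂ))
    (fun t => ((th (b + W * t) : ℝ) : ℂ)) (D := D) (fun k => mul_le_mul_of_nonneg_right (hsup _) (norm_nonneg _))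
  have hb2' := corr_l2 hTn (fun t => ((gW W * mo W Q b t : ℝ) : ℂ)) (fun t => ((FF W Q b t : ℝ) : ℂ))
    (fun t => ((gW W * mo W Q b t : ℝ) : ℂ)) (D := D) (fun k => by
      rw [mul_comm]
      exact mul_le_mul_of_nonneg_right (hsup _) (norm_nonneg _))
  have e1 : ∑ h ∈ range T, E1 h ^ 2 ≤ D ^ 2 * (T * Real.exp (l / 50)) := by
    have h1 : ∑ h ∈ range T, E1 h ^ 2 = ∑ h ∈ range T, ‖∑ t ∈ range (T - h), (starRingEnd ℂ) ((FF W Q b t : ℝ) : ℂ) * ((th (b + W * (t + h)) : ℝ) : ℂ)‖ ^ 2 := by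
      apply sum_congr rfl
      intro h _
      rw [hE1]
      simp only [Complex.conj_ofReal]
      rw [← sq_abs, ← Real.norm_eq_abs, ← Complex.norm_real]
      push_cast
      rfl
    rw [h1]
    refine hb1'.trans ?_
    apply mul_le_mul_of_nonneg_left _ (by positivity)
    have h2 : ∀ t ∈ range T, ‖((th (b + W * t) : ℝ) : ℂ)‖ ^ 2 ≤ Real.exp (l / 50) := by
      intro t ht
      rw [mem_range] at ht
      rw [Complex.norm_real, Real.norm_of_nonneg (th_nonneg _)]
      have h3 : b + W * t ≤ N := by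
        have h4 : W * (t + 1) ≤ W * T := Nat.mul_le_mul_left W ht
        have h5 := h.hT1
        rw [mul_add] at h4
        omega
      calc th (b + W * t) ^ 2 ≤ Real.exp (l / 100) ^ 2 := pow_le_pow_left₀ (th_nonneg _) ((th_le_of_le h3).trans hL2) 2
        _ = _ := by rw [← Real.exp_nat_mul]; congr 1; push_cast; ring
    refine (sum_le_sum h2).trans ?_
    rw [sum_const, card_range, nsmul_eq_mul]
  have e2 : ∑ h ∈ range T, E2 h ^ 2 ≤ D ^ 2 * (T * Real.exp (l / 40)) := by
    have h1 : ∑ h ∈ range T, E2 h ^ 2 = ∑ h ∈ range T, ‖∑ t ∈ range (T - h), (starRingEnd ℂ) ((gW W * mo W Q b t : ℝ) : ℂ) * ((FF W Q b (t + h) : ℝ) : ℂ)‖ ^ 2 := by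
      apply sum_congr rfl
      intro h _
      rw [hE2]
      simp only [Complex.conj_ofReal]
      rw [← sq_abs, ← Real.norm_eq_abs, ← Complex.norm_real]
      push_cast
      rfl
    rw [h1]
    refine hb2'.trans ?_
    apply mul_le_mul_of_nonneg_left _ (by positivity)
    have h2 : ∀ t ∈ range T, ‖((gW W * mo W Q b t : ℝ) : ℂ)‖ ^ 2 = gW W ^ 2 * mo W Q b t ^ 2 := by
      intro t _
      rw [Complex.norm_real, Real.norm_eq_abs, sq_abs, mul_pow]
    rw [sum_congr rfl h2, ← mul_sum]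
    have h3 := hmo W Q b T hQn
    have h4 : Real.log Q ≤ l := by
      rw [Real.log_le_iff_le_exp (by exact_mod_cast hQn)]
      exact hQ1.trans (Real.exp_le_exp.2 (by linarith))
    have h5 : (T : ℝ) * (C * (1 + Real.log Q)) + 2 * (Q : ℝ) ^ 4 ≤ T * Real.exp (l / 200) := by
      have a1 : 2 * (Q : ℝ) ^ 4 ≤ T * 2 := by
        have : Real.exp (2 * l) ≤ T := (Real.exp_le_exp.2 (by linarith)).trans hTbig
        linarith
      have a2 : C * (1 + Real.log Q) ≤ C * (1 + l) := mul_le_mul_of_nonneg_left (by linarith) hC.le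
      calc (T : ℝ) * (C * (1 + Real.log Q)) + 2 * (Q : ℝ) ^ 4 ≤ T * (C * (1 + l)) + T * 2 :=
            add_le_add (mul_le_mul_of_nonneg_left a2 hT0.le) a1
        _ = T * (C * (1 + l) + 2) := by ring
        _ ≤ _ := mul_le_mul_of_nonneg_left (by linarith) hT0.le
    calc gW W ^ 2 * ∑ t ∈ range T, mo W Q b t ^ 2 ≤ Real.exp (l / 50) * (T * Real.exp (l / 200)) :=
          mul_le_mul hgW2 (h3.trans h5) (sum_nonneg fun _ _ => sq_nonneg _) (Real.exp_pos _).le
      _ = T * Real.exp (l / 40) := by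
          rw [mul_left_comm, ← Real.exp_add]; ring_nf
  set δ := T * Real.exp (-(l / 20)) / 2 with hδ
  have hδ0 : 0 < δ := by positivity
  refine ⟨(range T).filter (fun h => δ < |E1 h|) ∪ (range T).filter (fun h => δ < |E2 h|), ?_, ?_⟩
  · have h1 := card_big hδ0 e1
    have h2 := card_big hδ0 e2
    have h3 : (((range T).filter (fun h => δ < |E1 h|) ∪ (range T).filter (fun h => δ < |E2 h|)).card : ℝ) ≤
        ((range T).filter (fun h => δ < |E1 h|)).card + ((range T).filter (fun h => δ < |E2 h|)).card := by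
      exact_mod_cast card_union_le _ _
    have h4 : (((range T).filter (fun h => δ < |E1 h|)).card + ((range T).filter (fun h => δ < |E2 h|)).card : ℝ) * δ ^ 2 ≤
        D ^ 2 * (T * (2 * Real.exp (l / 40))) := by
      have : Real.exp (l / 50) ≤ Real.exp (l / 40) := Real.exp_le_exp.2 (by linarith)
      have h5 : D ^ 2 * (T * Real.exp (l / 50)) ≤ D ^ 2 * (T * Real.exp (l / 40)) := by gcongr
      linarith
    have h5 : D ^ 2 * (T * (2 * Real.exp (l / 40))) = (T * (8 * Real.exp (-(11 * l / 40)))) * δ ^ 2 := by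
      rw [hD, hδ]
      have x1 : Real.exp (-(l / 5)) ^ 2 * Real.exp (l / 40) = Real.exp (-(11 * l / 40)) * Real.exp (-(l / 20)) ^ 2 := by
        rw [← Real.exp_nat_mul, ← Real.exp_nat_mul, ← Real.exp_add, ← Real.exp_add]
        congr 1
        push_cast
        ring
      calc (T * Real.exp (-(l / 5))) ^ 2 * (T * (2 * Real.exp (l / 40))) = 2 * T ^ 3 * (Real.exp (-(l / 5)) ^ 2 * Real.exp (l / 40)) := by ring
        _ = 2 * T ^ 3 * (Real.exp (-(11 * l / 40)) * Real.exp (-(l / 20)) ^ 2) := by rw [x1]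
        _ = _ := by ring
    rw [h5] at h4
    have h6 := le_of_mul_le_mul_right h4 (by positivity)
    have h7 : 8 * Real.exp (-(11 * l / 40)) ≤ Real.exp (-(l / 4)) := by
      have x1 : Real.exp (-(l / 4)) = Real.exp (-(11 * l / 40)) * Real.exp (l / 40) := by rw [← Real.exp_add]; ring_nf
      rw [x1]
      have x2 : 8 ≤ Real.exp (l / 40) := by
        have a1 : (1 : ℝ) ≤ Real.log N ^ 10 := one_le_pow₀ (by linarith [h.L1])
        have a2 : (10 : ℝ) ^ 8 ≤ Real.exp (l / 100) := by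
          have := h.hL
          nlinarith
        have a3 : Real.exp (l / 100) ≤ Real.exp (l / 40) := Real.exp_le_exp.2 (by linarith)
        linarith
      have x3 := Real.exp_pos (-(11 * l / 40))
      nlinarith
    have h8 := mul_le_mul_of_nonneg_left h7 hT0.le
    linarith
  · intro h' hh' hX
    rw [mem_union, mem_filter, mem_filter] at hX
    push Not at hX
    have x1 := hX.1 (mem_range.2 hh')
    have x2 := hX.2 (mem_range.2 hh')
    have x3 := (le_abs_self _).trans x1
    have x4 := (le_abs_self _).trans x2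
    rw [hdec]
    have x5 := mo_corr (W := W) (Q := Q) b h' (T - h')
    have hPnn : 0 ≤ ∏ p ∈ (Icc 1 Q).filter (fun p => p.Prime ∧ ¬ p ∣ W), (1 + xp p h') := by
      apply prod_nonneg
      intro p hp
      rw [mem_filter] at hp
      have := xp_nonneg hp.2.1 h'
      linarith
    have x6 : ((T - h' : ℕ) : ℝ) ≤ T := by exact_mod_cast Nat.sub_le _ _
    have x7 : ∑ t ∈ range (T - h'), mo W Q b t * mo W Q b (t + h') ≤
        T * (∏ p ∈ (Icc 1 Q).filter (fun p => p.Prime ∧ ¬ p ∣ W), (1 + xp p h') + Real.exp (-(l / 20))) := by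
      refine x5.trans ?_
      have y1 := mul_le_mul_of_nonneg_right x6 hPnn
      have y2 : 2 * (Q : ℝ) ^ 4 ≤ T * Real.exp (-(l / 20)) := by
        have e2 := exp_big (l := l) (c := 1) hl10 (by norm_num)
        rw [one_mul] at e2
        calc 2 * (Q : ℝ) ^ 4 ≤ Real.exp l * Real.exp (2 * l) := by
              apply mul_le_mul (by linarith) hQ4 (by positivity) (Real.exp_pos _).le
          _ ≤ Real.exp (90 * l) * Real.exp (-(l / 20)) := by
              rw [← Real.exp_add, ← Real.exp_add]; exact Real.exp_le_exp.2 (by linarith)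
          _ ≤ _ := mul_le_mul_of_nonneg_right hTbig (Real.exp_pos _).le
      linarith
    have x8 := mul_le_mul_of_nonneg_left x7 (sq_nonneg (gW W))
    have x9 : T * Real.exp (-(l / 20)) ≤ gW W ^ 2 * (T * Real.exp (-(l / 20))) := by
      have : 1 ≤ gW W ^ 2 := one_le_pow₀ hg1
      have y : 0 ≤ T * Real.exp (-(l / 20)) := by positivity
      nlinarith
    have x10 : E1 h' + E2 h' ≤ T * Real.exp (-(l / 20)) := by
      rw [hδ] at x3 x4
      linarith
    nlinarith

end Pool.Agent.P8H13.PK
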