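import Pool.Agent.P8H13.PK.Model

/-!
# The average of a power of the singular series
-/

set_option autoImplicit false

namespace Pool.Agent.P8H13.PK

open Finset

lemma one_add_pow_le {x : ℝ} (hx : 0 ≤ x) {k : ℕ} (hk : k * x ≤ 1) : (1 + x) ^ k ≤ 1 + 2 * k * x := by
  have h1 : (1 + x) ^ k ≤ Real.exp (k * x) := by
    rw [Real.exp_nat_mul]
    exact pow_le_pow_left₀ (by linarith) (by linarith [Real.add_one_le_exp x]) k
  have h0 : 0 ≤ (k : ℝ) * x := by positivity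
  have h2 := Real.abs_exp_sub_one_le (x := k * x) (by rw [abs_of_nonneg h0]; exact hk)
  rw [abs_of_nonneg h0] at h2
  have h3 := (abs_le.1 h2).2
  linarith

lemma sum_inv_sq {y0 : ℕ} (hy : 2 ≤ y0) (S : Finset ℕ) (hS : ∀ p ∈ S, y0 < p) :
    ∑ p ∈ S, 1 / ((p : ℝ) - 1) ^ 2 ≤ 1 / ((y0 : ℝ) - 1) := by
  have hy' : (2 : ℝ) ≤ y0 := by exact_mod_cast hy
  -- telescoping
  have key : ∀ n : ℕ, ∑ p ∈ Ioc y0 (y0 + n), 1 / ((p : ℝ) - 1) ^ 2 ≤ 1 / ((y0 : ℝ) - 1) - 1 / ((y0 : ℝ) + n - 1) := by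
    intro n
    induction n with
    | zero => simp
    | succ n ih =>
      rw [← add_assoc, ← insert_Ioc_right_eq_Ioc_add_one (by omega), sum_insert (by simp)]
      have hn : (0 : ℝ) ≤ n := Nat.cast_nonneg n
      have h1 : 1 / ((((y0 + n + 1 : ℕ) : ℝ)) - 1) ^ 2 ≤ 1 / ((y0 : ℝ) + n - 1) - 1 / ((y0 : ℝ) + (n + 1 : ℕ) - 1) := by
        push_cast
        rw [div_sub_div _ _ (by linarith) (by linarith), div_le_div_iff₀ (by nlinarith) (by nlinarith)]
        nlinarith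
      linarith
  obtain ⟨M, hM⟩ : ∃ M, ∀ p ∈ S, p ≤ M := ⟨S.sup id, fun p hp => le_sup (f := id) hp⟩
  have h1 : S ⊆ Ioc y0 (y0 + M) := by
    intro p hp
    rw [mem_Ioc]
    have := hM p hp
    exact ⟨hS p hp, by omega⟩
  refine (sum_le_sum_of_subset_of_nonneg h1 fun p _ _ => by positivity).trans ?_
  refine (key M).trans ?_
  have hn : (0 : ℝ) ≤ M := Nat.cast_nonneg M
  have : 0 ≤ 1 / ((y0 : ℝ) + M - 1) := by
    apply div_nonneg zero_le_one
    linarith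
  linarith

/-- average of a product over the divisors -/
lemma avg_prod (P : Finset ℕ) (hP : ∀ p ∈ P, p.Prime) (u : ℕ → ℝ) (hu : ∀ p ∈ P, 0 ≤ u p) (H : ℕ) :
    ∑ h ∈ Icc 1 H, ∏ p ∈ P, (1 + if p ∣ h then u p else 0) ≤ H * ∏ p ∈ P, (1 + u p / p) := by
  have h1 : ∀ h ∈ Icc 1 H, ∏ p ∈ P, (1 + if p ∣ h then u p else 0) =
      ∑ S ∈ P.powerset, if (∏ p ∈ S, p) ∣ h then ∏ p ∈ S, u p else 0 := by
    intro h _
    rw [prod_one_add]
    apply sum_congr rfl
    intro S hS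
    rw [mem_powerset] at hS
    have hdvd : (∏ p ∈ S, p) ∣ h ↔ ∀ p ∈ S, p ∣ h := by
      constructor
      · intro hd p hp
        exact (dvd_prod_of_mem (fun q : ℕ => q) hp).trans hd
      · intro hall
        apply Finset.prod_primes_dvd
        · intro p hp
          exact (hP p (hS hp)).prime
        · exact hall
    by_cases hall : ∀ p ∈ S, p ∣ h
    · rw [if_pos (hdvd.2 hall)]
      apply prod_congr rfl
      intro p hp
      rw [if_pos (hall p hp)]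
    · rw [if_neg (fun hd => hall (hdvd.1 hd))]
      push Not at hall
      obtain ⟨p, hp, hpn⟩ := hall
      apply prod_eq_zero hp
      rw [if_neg hpn]
  rw [sum_congr rfl h1, sum_comm, prod_one_add, mul_sum]
  apply sum_le_sum
  intro S hS
  rw [mem_powerset] at hS
  rw [← sum_filter, sum_const, nsmul_eq_mul]
  have h2 : ((Icc 1 H).filter (fun h => (∏ p ∈ S, p) ∣ h)).card = H / ∏ p ∈ S, p := by
    have e : Icc 1 H = Ioc 0 H := by ext x; rw [mem_Icc, mem_Ioc]; omega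
    rw [e]
    exact Nat.Ioc_filter_dvd_card_eq_div H _
  rw [h2]
  have h3 : ((H / ∏ p ∈ S, p : ℕ) : ℝ) ≤ H / ∏ p ∈ S, (p : ℝ) := by
    have := Nat.cast_div_le (α := ℝ) (m := H) (n := ∏ p ∈ S, p)
    push_cast at this
    exact this
  have h4 : 0 ≤ ∏ p ∈ S, u p := prod_nonneg fun p hp => hu p (hS hp)
  calc ((H / ∏ p ∈ S, p : ℕ) : ℝ) * ∏ p ∈ S, u p ≤ (H / ∏ p ∈ S, (p : ℝ)) * ∏ p ∈ S, u p :=
        mul_le_mul_of_nonneg_right h3 h4
    _ = H * ∏ p ∈ S, (u p / p) := by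
        rw [prod_div_distrib]
        ring

/-- **average of the power of the singular series** -/
theorem avg_xp {y0 k : ℕ} (hy : 2 ≤ y0) (hk : k ≤ y0) (P : Finset ℕ) (hP : ∀ p ∈ P, p.Prime ∧ y0 < p) (H : ℕ) :
    ∑ h ∈ Icc 1 H, (∏ p ∈ P, (1 + xp p h)) ^ k ≤ H * Real.exp (4 * k / ((y0 : ℝ) - 1)) := by
  have hpr : ∀ p ∈ P, (k : ℝ) ≤ p - 1 ∧ (2 : ℝ) ≤ p := by
    intro p hp
    have h1 : k + 1 ≤ p := by have := (hP p hp).2; omega
    have h2 : (k : ℝ) + 1 ≤ p := by exact_mod_cast h1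
    have h3 : (2 : ℝ) ≤ p := by exact_mod_cast (hP p hp).1.two_le
    exact ⟨by linarith, h3⟩
  have hk0 : (0 : ℝ) ≤ k := Nat.cast_nonneg k
  have h1 : ∀ h ∈ Icc 1 H, (∏ p ∈ P, (1 + xp p h)) ^ k ≤
      (∏ p ∈ P, (1 + 2 * k / ((p : ℝ) - 1) ^ 2)) * ∏ p ∈ P, (1 + if p ∣ h then 2 * k / ((p : ℝ) - 1) else 0) := by
    intro h _
    rw [← prod_pow, ← prod_mul_distrib]
    apply prod_le_prod
    · intro p hp
      have := xp_nonneg (hP p hp).1 h
      positivity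
    · intro p hp
      obtain ⟨hkp, hp2⟩ := hpr p hp
      have hp1 : 0 < (p : ℝ) - 1 := by linarith
      unfold xp
      by_cases hd : p ∣ h
      · rw [if_pos hd, if_pos hd]
        have e1 : (1 + 1 / ((p : ℝ) - 1)) ^ k ≤ 1 + 2 * k * (1 / ((p : ℝ) - 1)) := by
          apply one_add_pow_le (by positivity)
          rw [mul_one_div, div_le_one hp1]
          exact hkp
        have e2 : 1 + 2 * k * (1 / ((p : ℝ) - 1)) = 1 + 2 * k / ((p : ℝ) - 1) := by ring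
        rw [e2] at e1
        refine e1.trans ?_
        have e3 : 0 ≤ 2 * k / ((p : ℝ) - 1) ^ 2 := by positivity
        have e4 : 0 ≤ 2 * k / ((p : ℝ) - 1) := by positivity
        nlinarith
      · rw [if_neg hd, if_neg hd, add_zero, mul_one]
        have e1 : (1 + 1 / ((p : ℝ) - 1) ^ 2) ^ k ≤ 1 + 2 * k * (1 / ((p : ℝ) - 1) ^ 2) := by
          apply one_add_pow_le (by positivity)
          rw [mul_one_div, div_le_one (by positivity)]
          have : (1 : ℝ) ≤ p - 1 := by linarith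
          nlinarith
        refine e1.trans (le_of_eq ?_)
        ring
  refine (sum_le_sum h1).trans ?_
  rw [← mul_sum]
  have h2 := avg_prod P (fun p hp => (hP p hp).1) (fun p => 2 * k / ((p : ℝ) - 1)) (fun p hp => by
    have := (hpr p hp).2
    apply div_nonneg (by positivity); linarith) H
  have hA0 : 0 ≤ ∏ p ∈ P, (1 + 2 * k / ((p : ℝ) - 1) ^ 2) := prod_nonneg fun p _ => by positivity
  refine (mul_le_mul_of_nonneg_left h2 hA0).trans ?_
  rw [mul_left_comm]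
  apply mul_le_mul_of_nonneg_left _ (Nat.cast_nonneg H)
  rw [← prod_mul_distrib]
  have h3 : ∀ p ∈ P, (1 + 2 * k / ((p : ℝ) - 1) ^ 2) * (1 + 2 * k / ((p : ℝ) - 1) / p) ≤
      Real.exp (4 * k * (1 / ((p : ℝ) - 1) ^ 2)) := by
    intro p hp
    obtain ⟨hkp, hp2⟩ := hpr p hp
    have hp1 : 0 < (p : ℝ) - 1 := by linarith
    have e1 : 1 + 2 * k / ((p : ℝ) - 1) ^ 2 ≤ Real.exp (2 * k / ((p : ℝ) - 1) ^ 2) := by
      have := Real.add_one_le_exp (2 * k / ((p : ℝ) - 1) ^ 2)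
      linarith
    have e2 : 1 + 2 * k / ((p : ℝ) - 1) / p ≤ Real.exp (2 * k / ((p : ℝ) - 1) ^ 2) := by
      have a1 : 2 * k / ((p : ℝ) - 1) / p ≤ 2 * k / ((p : ℝ) - 1) ^ 2 := by
        rw [div_div]
        apply div_le_div_of_nonneg_left (by positivity) (by positivity)
        nlinarith
      have := Real.add_one_le_exp (2 * k / ((p : ℝ) - 1) ^ 2)
      linarith
    calc _ ≤ Real.exp (2 * k / ((p : ℝ) - 1) ^ 2) * Real.exp (2 * k / ((p : ℝ) - 1) ^ 2) := by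
          apply mul_le_mul e1 e2 (by positivity) (Real.exp_pos _).le
      _ = _ := by rw [← Real.exp_add]; ring_nf
  refine (prod_le_prod (fun p hp => ?_) h3).trans ?_
  · have := (hpr p hp).2
    have hp1 : 0 < (p : ℝ) - 1 := by linarith
    positivity
  rw [← Real.exp_sum]
  apply Real.exp_le_exp.2
  rw [← mul_sum]
  have h4 := sum_inv_sq hy P (fun p hp => (hP p hp).2)
  calc 4 * (k : ℝ) * ∑ p ∈ P, 1 / ((p : ℝ) - 1) ^ 2 ≤ 4 * k * (1 / ((y0 : ℝ) - 1)) :=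
        mul_le_mul_of_nonneg_left h4 (by positivity)
    _ = _ := by ring

end Pool.Agent.P8H13.PK
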