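import Pool.Agent.P8H13.PK.Second

/-!
# Almost all tuples of shifts in an admissible class
-/

set_option autoImplicit false

namespace Pool.Agent.P8H13.PK

open Finset

/-- the input from the primes at one scale -/
structure Hyp (l : ℝ) (N W T y0 : ℕ) (κ : ℝ) : Prop where
  par : Par l N W T
  hy : 2 ≤ y0
  hW2 : 2 ≤ W
  hWp : ∀ p, p.Prime → ¬ p ∣ W → y0 < p
  hκ0 : 0 ≤ κ
  P1 : ∀ b z : ℕ, b.Coprime W → z ≤ 2 * N → |ps W b z - z / (Nat.totient W : ℝ)| ≤ κ * (N / (Nat.totient W : ℝ))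
  P2 : ∀ b : ℕ, 1 ≤ b → b < W → b.Coprime W → ∃ X : Finset ℕ, (X.card : ℝ) ≤ T * Real.exp (-(l / 4)) ∧
      ∀ h : ℕ, h < T → h ∉ X → rb W b T h ≤
        T * gW W ^ 2 * (∏ p ∈ (Icc 1 ⌊Real.exp (l / 2)⌋₊).filter (fun p => p.Prime ∧ ¬ p ∣ W), (1 + xp p h) + κ)

/-- from `PAP` to the input -/
theorem hyp_of_PAP : ∃ l0 : ℝ, ∀ l : ℝ, l0 ≤ l → ∀ N W T y0 : ℕ, Par l N W T → PAP l (2 * N) → 2 ≤ y0 → 2 ≤ W →
    (∀ p, p.Prime → ¬ p ∣ W → y0 < p) → Hyp l N W T y0 (2 * Real.exp (-(l / 20))) := by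
  obtain ⟨l0, h0⟩ := pair_bound
  refine ⟨l0, fun l hl N W T y0 hpar hP hy hW2 hWp => ⟨hpar, hy, hW2, hWp, by positivity, ?_, ?_⟩⟩
  · intro b z hb hz
    have hl10 := hpar.hl
    have h1 := hP W b z hpar.hW1 (hpar.hW.trans (Real.exp_le_exp.2 (by linarith))) hb hz
    refine h1.trans ?_
    have hN0 := hpar.N0
    have hphi : (0 : ℝ) < Nat.totient W := by exact_mod_cast Nat.totient_pos.2 hpar.hW1
    have hphiW : (Nat.totient W : ℝ) ≤ Real.exp (l / 100) :=
      le_trans (by exact_mod_cast Nat.totient_le W) hpar.hW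
    rw [mul_div_assoc', le_div_iff₀ hphi]
    have e1 : Real.exp (-(20 * l)) * Real.exp (l / 100) ≤ Real.exp (-(l / 20)) := by
      rw [← Real.exp_add]; exact Real.exp_le_exp.2 (by linarith)
    calc ((2 * N : ℕ) : ℝ) * Real.exp (-(20 * l)) * (Nat.totient W : ℝ) ≤
        ((2 * N : ℕ) : ℝ) * Real.exp (-(20 * l)) * Real.exp (l / 100) :=
          mul_le_mul_of_nonneg_left hphiW (by positivity)
      _ = 2 * N * (Real.exp (-(20 * l)) * Real.exp (l / 100)) := by push_cast; ring
      _ ≤ 2 * N * Real.exp (-(l / 20)) := mul_le_mul_of_nonneg_left e1 (by positivity)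
      _ = _ := by ring
  · intro b hb1 hb hbW
    exact h0 l hl N W T hpar hP b hb1 hb hbW

lemma rb_trivial {l : ℝ} {N W T : ℕ} (h : Par l N W T) {b : ℕ} (hb : b < W) (h' : ℕ) :
    rb W b T h' ≤ T * Real.log N ^ 2 := by
  unfold rb
  have hL0 : 0 ≤ Real.log N := by linarith [h.L1, h.hl]
  have h1 : ∀ t ∈ range (T - h'), th (b + W * t) * th (b + W * (t + h')) ≤ Real.log N ^ 2 := by
    intro t ht
    rw [mem_range] at ht
    have key : ∀ u, u < T → th (b + W * u) ≤ Real.log N := by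
      intro u hu
      apply th_le_of_le
      have h4 : W * (u + 1) ≤ W * T := Nat.mul_le_mul_left W hu
      have h5 := h.hT1
      rw [mul_add] at h4
      omega
    rw [sq]
    exact mul_le_mul (key t (by omega)) (key (t + h') (by omega)) (th_nonneg _) hL0
  refine (sum_le_sum h1).trans ?_
  rw [sum_const, card_range, nsmul_eq_mul]
  apply mul_le_mul_of_nonneg_right _ (sq_nonneg _)
  exact_mod_cast Nat.sub_le _ _

/-- the numerical part of the second moment argument -/
lemma collect {Fk P Bk dg E τ S r XL M1 M2 : ℝ} (hFk : 0 < Fk) (hP0 : 0 < P) (hBk : 0 ≤ Bk) (hτ0 : 0 ≤ τ)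
    (hτr : τ ≤ r) (hr : r ≤ 1 / 11) (hE0 : 0 ≤ E) (hE : E ≤ 22 / 5 * r + τ / 8) (hPF : P ≤ Real.exp τ * Fk)
    (hPT : P * Bk ≤ Real.exp (2 * τ) * (Fk * Fk)) (hS0 : 0 < S) (hXL0 : 0 ≤ XL) (hXL : 6 * XL ≤ τ * S)
    (hdg : dg ≤ τ * S * Fk) (hM1 : S * Fk * (1 - τ) ≤ M1)
    (hM2 : M2 ≤ S * (dg + S * (Bk * Real.exp E) + 2 * (Bk * XL))) :
    0 < S * Fk / P ∧ S / 6 ≤ S * Fk / P / 2 ∧
      M2 - 2 * (S * Fk / P) * M1 + (S * Fk / P) ^ 2 * P ≤ (40 * r * P) * (S * Fk / P) ^ 2 := by
  have hτ1 : τ ≤ 1 / 11 := hτr.trans hr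
  have expb : ∀ x : ℝ, 0 ≤ x → x ≤ 1 → Real.exp x ≤ 1 + 2 * x := by
    intro x hx hx1
    have h1 := Real.abs_exp_sub_one_le (x := x) (by rw [abs_of_nonneg hx]; exact hx1)
    rw [abs_of_nonneg hx] at h1
    have := (abs_le.1 h1).2
    linarith
  have e1 : Real.exp τ ≤ 2 := by have := expb τ hτ0 (by linarith); linarith
  have e2 : Real.exp (2 * τ) ≤ 3 := by have := expb (2 * τ) (by linarith) (by linarith); linarith
  have e3 : Real.exp (2 * τ + E) ≤ 1 + 2 * (2 * τ + E) := expb _ (by linarith) (by linarith)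
  have hFF : 0 < Fk * Fk := by positivity
  have c1 : dg * P ≤ τ * S * (Fk * Fk) * 2 := by
    calc dg * P ≤ (τ * S * Fk) * P := mul_le_mul_of_nonneg_right hdg hP0.le
      _ ≤ (τ * S * Fk) * (2 * Fk) := by
          apply mul_le_mul_of_nonneg_left _ (by positivity)
          exact hPF.trans (mul_le_mul_of_nonneg_right e1 hFk.le)
      _ = _ := by ring
  have c2 : Bk * Real.exp E * P ≤ (1 + 2 * (2 * τ + E)) * (Fk * Fk) := by
    calc Bk * Real.exp E * P = (P * Bk) * Real.exp E := by ring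
      _ ≤ (Real.exp (2 * τ) * (Fk * Fk)) * Real.exp E := mul_le_mul_of_nonneg_right hPT (Real.exp_pos _).le
      _ = Real.exp (2 * τ + E) * (Fk * Fk) := by rw [Real.exp_add]; ring
      _ ≤ _ := mul_le_mul_of_nonneg_right e3 hFF.le
  have c3 : 2 * (Bk * XL) * P ≤ τ * S * (Fk * Fk) := by
    calc 2 * (Bk * XL) * P = 2 * XL * (P * Bk) := by ring
      _ ≤ 2 * XL * (3 * (Fk * Fk)) := by
          apply mul_le_mul_of_nonneg_left _ (by positivity)
          exact hPT.trans (mul_le_mul_of_nonneg_right e2 hFF.le)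
      _ = (6 * XL) * (Fk * Fk) := by ring
      _ ≤ _ := mul_le_mul_of_nonneg_right hXL hFF.le
  have hM2P : M2 * P ≤ (S * Fk) ^ 2 * (1 + (40 * r - 2 * τ)) := by
    calc M2 * P ≤ (S * (dg + S * (Bk * Real.exp E) + 2 * (Bk * XL))) * P := mul_le_mul_of_nonneg_right hM2 hP0.le
      _ = S * (dg * P + S * (Bk * Real.exp E * P) + 2 * (Bk * XL) * P) := by ring
      _ ≤ S * (τ * S * (Fk * Fk) * 2 + S * ((1 + 2 * (2 * τ + E)) * (Fk * Fk)) + τ * S * (Fk * Fk)) := by
          apply mul_le_mul_of_nonneg_left _ hS0.le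
          have c5 := mul_le_mul_of_nonneg_left c2 hS0.le
          linarith
      _ = (S * Fk) ^ 2 * (1 + (7 * τ + 2 * E)) := by ring
      _ ≤ (S * Fk) ^ 2 * (1 + (40 * r - 2 * τ)) := by
          apply mul_le_mul_of_nonneg_left _ (by positivity)
          linarith
  set z0 : ℝ := S * Fk / P with hz0
  have hz0pos : 0 < z0 := by positivity
  refine ⟨hz0pos, ?_, ?_⟩
  · have h1 : S / 3 ≤ z0 := by
      rw [hz0, div_le_div_iff₀ (by norm_num) hP0]
      have : P ≤ 2 * Fk := hPF.trans (mul_le_mul_of_nonneg_right e1 hFk.le)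
      nlinarith
    linarith
  · have h1 : 2 * z0 * (S * Fk * (1 - τ)) ≤ 2 * z0 * M1 := mul_le_mul_of_nonneg_left hM1 (by positivity)
    have h2 : M2 ≤ z0 ^ 2 * P * (1 + (40 * r - 2 * τ)) := by
      have h3 : z0 ^ 2 * P * (1 + (40 * r - 2 * τ)) = (S * Fk) ^ 2 * (1 + (40 * r - 2 * τ)) / P := by
        rw [hz0]; field_simp
      rw [h3, le_div_iff₀ hP0]
      exact hM2P
    have h4 : 2 * z0 * (S * Fk * (1 - τ)) = z0 ^ 2 * P * (2 - 2 * τ) := by
      rw [hz0]; field_simp
    rw [h4] at h1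
    have h5 : 40 * r * P * z0 ^ 2 = z0 ^ 2 * P * (40 * r) := by ring
    rw [h5]
    linarith

/-- **almost all tuples in an admissible class** -/
theorem class_bound {l κ : ℝ} {N W T y0 : ℕ} (hH : Hyp l N W T y0 κ) {k : ℕ} (hk : 1 ≤ k) (hky : 11 * k ≤ y0)
    {y S c : ℕ} {τ η : ℝ} (hτ0 : 0 ≤ τ) (hτ : τ ≤ k / y0) (hη0 : 0 ≤ η) (hη : k * η ≤ τ) (hκ : 8 * (k * κ) ≤ τ)
    (hS : 1 ≤ S) (hc1 : 1 ≤ c) (hcW : c ≤ W) (hyS : y + W * (S + 1) ≤ W * T)
    (hyT : (W : ℝ) * T ≤ (1 + η) * (y + 1)) (hWy : (W : ℝ) ≤ η * (y + 1))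
    (hS1 : (4 * Real.log (2 * N)) ^ k ≤ τ * S)
    (hS2 : 6 * k * (T * Real.exp (-(l / 4))) * Real.log N ^ (2 * k) ≤ τ * S)
    (al : Fin k → ℕ) (hal : ∀ i, (c + al i).Coprime W) :
    (((Fintype.piFinset (fun i => Acl W y (al i))).filter (fun a => ZZ W S c a ≤ S / 6)).card : ℝ) ≤
      160 * (k / y0) * (Fintype.piFinset (fun i => Acl W y (al i))).card := by
  have hpar := hH.par
  have hN0 := hpar.N0
  have hW0 := hpar.W0
  have hT0 := hpar.T0
  have hκ0 := hH.hκ0
  have hWn : 0 < W := by exact_mod_cast hW0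
  have hk1 : (1 : ℝ) ≤ k := by exact_mod_cast hk
  have hk0 : (0 : ℝ) < k := by linarith
  have hy0' : (11 : ℝ) * k ≤ y0 := by exact_mod_cast hky
  have hy0pos : (0 : ℝ) < y0 := by linarith
  have hS0 : (0 : ℝ) < S := by exact_mod_cast hS
  have hky1 : (k : ℝ) / y0 ≤ 1 / 11 := by rw [div_le_div_iff₀ hy0pos (by norm_num)]; linarith
  have hη1 : η ≤ 1 / 11 := by
    have : η ≤ k * η := le_mul_of_one_le_left hη0 hk1
    linarith
  have hY0 : (0 : ℝ) < (y : ℝ) + 1 := by positivity
  have hphi : (0 : ℝ) < Nat.totient W := by exact_mod_cast Nat.totient_pos.2 hWn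
  have hphiW : (Nat.totient W : ℝ) ≤ W := by exact_mod_cast Nat.totient_le W
  set F : ℝ := ((y : ℝ) + 1) / Nat.totient W with hF
  have hF0 : 0 < F := by positivity
  have hlogN : 1 ≤ Real.log N := by linarith [hpar.L1, hpar.hl]
  have hlog2N : Real.log N ≤ Real.log (2 * N) := Real.log_le_log hN0 (by linarith)
  have hNy : (N : ℝ) ≤ 3 * (y + 1) := by
    have h1 : (N : ℝ) ≤ 2 * (W * T) := by exact_mod_cast hpar.hT2
    nlinarith
  -- cardinalities
  set A : Fin k → ℝ := fun i => ((Acl W y (al i)).card : ℝ) with hA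
  have hA1 : ∀ i, A i ≤ (1 + η) * (((y : ℝ) + 1) / W) := by
    intro i
    have h1 := (card_Acl hWn y (al i)).1
    have h2 : (1 : ℝ) ≤ η * (((y : ℝ) + 1) / W) := by
      rw [mul_div_assoc', le_div_iff₀ hW0]; linarith
    linarith
  have hApos : ∀ i, 0 < A i := by
    intro i
    have h1 := (card_Acl hWn y (al i)).2
    have h2 : (11 : ℝ) ≤ ((y : ℝ) + 1) / W := by
      rw [le_div_iff₀ hW0]; nlinarith
    have h3 : ((y : ℝ) + 1) / W - 1 ≤ A i := h1
    linarith
  have hA2 : ∀ i, A i ≤ (1 + η) * F := by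
    intro i
    refine (hA1 i).trans ?_
    apply mul_le_mul_of_nonneg_left _ (by linarith)
    exact div_le_div_of_nonneg_left hY0.le hphi hphiW
  have hA3 : ∀ i, A i * (T * gW W ^ 2) ≤ (1 + η) ^ 2 * F ^ 2 := by
    intro i
    have h1 : A i * (T * gW W ^ 2) ≤ ((1 + η) * (((y : ℝ) + 1) / W)) * (T * gW W ^ 2) :=
      mul_le_mul_of_nonneg_right (hA1 i) (by positivity)
    refine h1.trans ?_
    have h2 : ((1 + η) * (((y : ℝ) + 1) / W)) * (T * gW W ^ 2) = (W * T) * ((1 + η) * (y + 1)) / (Nat.totient W : ℝ) ^ 2 := by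
      unfold gW
      field_simp
    have h3 : (1 + η) ^ 2 * F ^ 2 = ((1 + η) * (y + 1)) * ((1 + η) * (y + 1)) / (Nat.totient W : ℝ) ^ 2 := by
      rw [hF]
      field_simp
    rw [h2, h3]
    apply div_le_div_of_nonneg_right _ (by positivity)
    exact mul_le_mul_of_nonneg_right hyT (by positivity)
  set PP : Finset (Fin k → ℕ) := Fintype.piFinset (fun i => Acl W y (al i)) with hPP
  have hPcard : (PP.card : ℝ) = ∏ i, A i := by
    rw [hPP, Fintype.card_piFinset]
    push_cast
    rfl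
  set P : ℝ := ∏ i, A i with hP
  have hP0 : 0 < P := prod_pos fun i _ => hApos i
  have hηk : (1 + η) ^ k ≤ Real.exp τ := by
    calc (1 + η) ^ k ≤ Real.exp (k * η) := by
          rw [Real.exp_nat_mul]
          exact pow_le_pow_left₀ (by linarith) (by linarith [Real.add_one_le_exp η]) k
      _ ≤ _ := Real.exp_le_exp.2 hη
  have hPF : P ≤ Real.exp τ * F ^ k := by
    have h1 : P ≤ ∏ _i : Fin k, (1 + η) * F := prod_le_prod (fun i _ => (hApos i).le) fun i _ => hA2 i
    rw [prod_const, card_univ, Fintype.card_fin, mul_pow] at h1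
    refine h1.trans ?_
    exact mul_le_mul_of_nonneg_right hηk (by positivity)
  have hPT : P * (T * gW W ^ 2) ^ k ≤ Real.exp (2 * τ) * F ^ (2 * k) := by
    have h1 : P * (T * gW W ^ 2) ^ k = ∏ i, (A i * (T * gW W ^ 2)) := by
      rw [prod_mul_distrib, prod_const, card_univ, Fintype.card_fin]
    rw [h1]
    have h2 : ∏ i, (A i * (T * gW W ^ 2)) ≤ ∏ _i : Fin k, (1 + η) ^ 2 * F ^ 2 :=
      prod_le_prod (fun i _ => mul_nonneg (hApos i).le (by positivity)) fun i _ => hA3 i
    rw [prod_const, card_univ, Fintype.card_fin, mul_pow, ← pow_mul, ← pow_mul] at h2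
    refine h2.trans ?_
    apply mul_le_mul_of_nonneg_right _ (by positivity)
    calc (1 + η) ^ (2 * k) = ((1 + η) ^ k) ^ 2 := by rw [← pow_mul, mul_comm]
      _ ≤ Real.exp τ ^ 2 := pow_le_pow_left₀ (by positivity) hηk 2
      _ = _ := by rw [← Real.exp_nat_mul]; push_cast; rfl
  -- first moments
  set κ1 := 8 * κ with hκ1
  have hκ1k : k * κ1 ≤ τ := by rw [hκ1]; linarith
  have hκ1' : κ1 ≤ 1 / 11 := by
    have : κ1 ≤ k * κ1 := le_mul_of_one_le_left (by positivity) hk1
    linarith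
  have hnle : ∀ s, s < S → c + W * s + y ≤ 2 * N := by
    intro s hs
    have h1 : W * (s + 1) ≤ W * S := Nat.mul_le_mul_left W hs
    rw [mul_add] at h1 hyS
    have := hpar.hT1
    omega
  have hfirst : ∀ s, s < S → ∀ i, |∑ a ∈ Acl W y (al i), th (c + W * s + a) - F| ≤ κ1 * F := by
    intro s hs i
    have hcop : (c + W * s + al i).Coprime W := by
      have : c + W * s + al i = (c + al i) + s * W := by ring
      rw [this]
      exact (Nat.coprime_add_mul_right_left _ W s).2 (hal i)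
    rw [first_one y (al i) (c + W * s) (by omega)]
    have h1 := hH.P1 (c + W * s + al i) (c + W * s + y) hcop (hnle s hs)
    have h2 := hH.P1 (c + W * s + al i) (c + W * s - 1) hcop (by have := hnle s hs; omega)
    have h3 : ps W (c + W * s + al i) (c + W * s + y) - ps W (c + W * s + al i) (c + W * s - 1) - F =
        (ps W (c + W * s + al i) (c + W * s + y) - ((c + W * s + y : ℕ) : ℝ) / (Nat.totient W : ℝ)) -
        (ps W (c + W * s + al i) (c + W * s - 1) - ((c + W * s - 1 : ℕ) : ℝ) / (Nat.totient W : ℝ)) := by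
      rw [hF, Nat.cast_sub (by omega)]
      push_cast
      ring
    rw [h3]
    refine (abs_sub _ _).trans ?_
    have h4 : κ * (N / (Nat.totient W : ℝ)) ≤ 3 * κ * F := by
      have h5 : (N : ℝ) / (Nat.totient W : ℝ) ≤ 3 * F := by
        rw [hF, mul_div_assoc']
        exact div_le_div_of_nonneg_right hNy hphi.le
      nlinarith
    have h6 : 0 ≤ κ * F := by positivity
    rw [hκ1]
    linarith
  have hM1 : S * F ^ k * (1 - τ) ≤ ∑ a ∈ PP, ZZ W S c a := by
    rw [hPP, moment_one]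
    have h1 : ∀ s ∈ range S, F ^ k * (1 - τ) ≤ ∏ i, ∑ a ∈ Acl W y (al i), th (c + W * s + a) := by
      intro s hs
      rw [mem_range] at hs
      have h2 : ∏ _i : Fin k, F * (1 - κ1) ≤ ∏ i, ∑ a ∈ Acl W y (al i), th (c + W * s + a) := by
        apply prod_le_prod
        · intro i _
          have : 0 ≤ 1 - κ1 := by linarith
          positivity
        · intro i _
          have := (abs_le.1 (hfirst s hs i)).1
          linarith
      rw [prod_const, card_univ, Fintype.card_fin, mul_pow] at h2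
      refine le_trans ?_ h2
      apply mul_le_mul_of_nonneg_left _ (by positivity)
      have h3 := one_add_mul_le_pow (a := -κ1) (by linarith) k
      have h4 : (1 + -κ1) ^ k = (1 - κ1) ^ k := by ring
      rw [h4] at h3
      linarith
    refine le_trans ?_ (sum_le_sum h1)
    rw [sum_const, card_range, nsmul_eq_mul]
    apply le_of_eq; ring
  -- the exceptional differences
  have hbi : ∀ i, 1 ≤ (c + al i) % W ∧ (c + al i) % W < W ∧ ((c + al i) % W).Coprime W := by
    intro i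
    have h1 : ((c + al i) % W).Coprime W := by
      unfold Nat.Coprime
      rw [← Nat.gcd_rec, Nat.gcd_comm]
      exact hal i
    refine ⟨?_, Nat.mod_lt _ hWn, h1⟩
    rw [Nat.one_le_iff_ne_zero]
    intro h0
    rw [h0, Nat.coprime_zero_left] at h1
    have := hH.hW2
    omega
  choose X hX1 hX2 using fun i => hH.P2 ((c + al i) % W) (hbi i).1 (hbi i).2.1 (hbi i).2.2
  set XX : Finset ℕ := univ.biUnion X with hXX
  have hXXcard : (XX.card : ℝ) ≤ k * (T * Real.exp (-(l / 4))) := by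
    have h1 : XX.card ≤ ∑ i, (X i).card := card_biUnion_le
    have h2 : (XX.card : ℝ) ≤ ∑ i, ((X i).card : ℝ) := by exact_mod_cast h1
    refine h2.trans ((sum_le_sum fun i _ => hX1 i).trans ?_)
    rw [sum_const, card_univ, Fintype.card_fin, nsmul_eq_mul]
  set PR := (Icc 1 ⌊Real.exp (l / 2)⌋₊).filter (fun p => p.Prime ∧ ¬ p ∣ W) with hPR
  have hPR1 : ∀ p ∈ PR, p.Prime ∧ y0 < p := by
    intro p hp
    rw [hPR, mem_filter] at hp
    exact ⟨hp.2.1, hH.hWp p hp.2.1 hp.2.2⟩
  set Pi : ℕ → ℝ := fun h => ∏ p ∈ PR, (1 + xp p h) with hPi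
  have hPi1 : ∀ h, 1 ≤ Pi h := by
    intro h
    rw [hPi]
    simp only
    calc (1 : ℝ) = ∏ _p ∈ PR, (1 : ℝ) := by simp
      _ ≤ _ := prod_le_prod (fun _ _ => zero_le_one) fun p hp => by
        have := xp_nonneg (hPR1 p hp).1 h
        linarith
  set B : ℝ := T * gW W ^ 2 with hB
  have hg1 : 1 ≤ gW W := by
    unfold gW
    rw [le_div_iff₀ hphi, one_mul]
    exact hphiW
  have hB0 : 0 < B := by positivity
  set g : ℕ → ℝ := fun h => B ^ k * ((Pi h + κ) ^ k + if h ∈ XX then Real.log N ^ (2 * k) else 0) with hg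
  have hoff : ∀ s s' : ℕ, s < s' → s' < S → ∏ i, ∑ a ∈ Acl W y (al i), th (c + W * s + a) * th (c + W * s' + a) ≤ g (s' - s) := by
    intro s s' hss hs'
    set h := s' - s with hh
    have hs'e : c + W * s' = c + W * s + W * h := by
      have : s' = s + h := by omega
      rw [this]; ring
    have hlt : c + W * s + W * h + y < W * T := by
      rw [← hs'e]
      have h1 : W * (s' + 1) ≤ W * S := Nat.mul_le_mul_left W hs'
      rw [mul_add] at h1 hyS
      omega
    have hhT : h < T := by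
      have h1 : W * h < W * T := by omega
      exact Nat.lt_of_mul_lt_mul_left h1
    have h1 : ∀ i, ∑ a ∈ Acl W y (al i), th (c + W * s + a) * th (c + W * s' + a) ≤ rb W ((c + al i) % W) T h := by
      intro i
      rw [hs'e]
      have h2 := second_one hWn y (al i) (c + W * s) h T hlt
      have h3 : (c + W * s + al i) % W = (c + al i) % W := by
        have : c + W * s + al i = (c + al i) + W * s := by ring
        rw [this, Nat.add_mul_mod_self_left]
      rw [h3] at h2
      exact h2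
    have hnn : ∀ i, 0 ≤ ∑ a ∈ Acl W y (al i), th (c + W * s + a) * th (c + W * s' + a) :=
      fun i => sum_nonneg fun a _ => mul_nonneg (th_nonneg _) (th_nonneg _)
    by_cases hX : h ∈ XX
    · have h2 : ∏ i, ∑ a ∈ Acl W y (al i), th (c + W * s + a) * th (c + W * s' + a) ≤ ∏ _i : Fin k, B * Real.log N ^ 2 := by
        apply prod_le_prod (fun i _ => hnn i)
        intro i _
        refine (h1 i).trans ((rb_trivial hpar (hbi i).2.1 h).trans ?_)
        apply mul_le_mul_of_nonneg_right _ (by positivity)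
        rw [hB]
        have : (1 : ℝ) ≤ gW W ^ 2 := one_le_pow₀ hg1
        nlinarith
      refine h2.trans ?_
      rw [prod_const, card_univ, Fintype.card_fin, mul_pow, hg]
      simp only
      rw [if_pos hX, ← pow_mul]
      apply mul_le_mul_of_nonneg_left _ (by positivity)
      have : 0 ≤ (Pi h + κ) ^ k := by have := hPi1 h; positivity
      linarith
    · have h2 : ∏ i, ∑ a ∈ Acl W y (al i), th (c + W * s + a) * th (c + W * s' + a) ≤ ∏ _i : Fin k, B * (Pi h + κ) := by
        apply prod_le_prod (fun i _ => hnn i)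
        intro i _
        refine (h1 i).trans (hX2 i h hhT ?_)
        intro hc
        exact hX (by rw [hXX, mem_biUnion]; exact ⟨i, mem_univ _, hc⟩)
      refine h2.trans ?_
      rw [prod_const, card_univ, Fintype.card_fin, mul_pow, hg]
      simp only
      rw [if_neg hX, add_zero]
  -- the average of `g`
  set E : ℝ := 4 * k / ((y0 : ℝ) - 1) + k * κ with hE
  have hgsum : ∀ H < S, ∑ h ∈ Icc 1 H, g h ≤ H * (B ^ k * Real.exp E) + B ^ k * (XX.card * Real.log N ^ (2 * k)) := by
    intro H _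
    rw [hg]
    simp only
    rw [← mul_sum, sum_add_distrib, mul_add]
    have h1 : ∑ h ∈ Icc 1 H, (Pi h + κ) ^ k ≤ H * Real.exp E := by
      have h2 : ∀ h ∈ Icc 1 H, (Pi h + κ) ^ k ≤ Real.exp (k * κ) * Pi h ^ k := by
        intro h _
        have e1 : Pi h + κ ≤ Real.exp κ * Pi h := by
          have := Real.add_one_le_exp κ
          have := hPi1 h
          nlinarith
        calc (Pi h + κ) ^ k ≤ (Real.exp κ * Pi h) ^ k := pow_le_pow_left₀ (by have := hPi1 h; positivity) e1 k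
          _ = _ := by rw [mul_pow, ← Real.exp_nat_mul]
      refine (sum_le_sum h2).trans ?_
      rw [← mul_sum]
      have h3 := avg_xp hH.hy (show k ≤ y0 by omega) PR hPR1 H
      calc Real.exp (k * κ) * ∑ h ∈ Icc 1 H, Pi h ^ k ≤ Real.exp (k * κ) * (H * Real.exp (4 * k / ((y0 : ℝ) - 1))) :=
            mul_le_mul_of_nonneg_left h3 (Real.exp_pos _).le
        _ = H * Real.exp E := by rw [hE, Real.exp_add]; ring
    have h2 : ∑ h ∈ Icc 1 H, (if h ∈ XX then Real.log N ^ (2 * k) else 0) ≤ XX.card * Real.log N ^ (2 * k) := by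
      rw [← sum_filter, sum_const, nsmul_eq_mul]
      apply mul_le_mul_of_nonneg_right _ (by positivity)
      have : ((Icc 1 H).filter (fun h => h ∈ XX)).card ≤ XX.card := card_le_card (by
        intro x hx; rw [mem_filter] at hx; exact hx.2)
      exact_mod_cast this
    have h3 := mul_le_mul_of_nonneg_left h1 (show 0 ≤ B ^ k by positivity)
    have h4 := mul_le_mul_of_nonneg_left h2 (show 0 ≤ B ^ k by positivity)
    linarith
  -- the second moment
  set dg : ℝ := (Real.log (2 * N) * (F * 2)) ^ k with hdg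
  have hdiag : ∀ s, s < S → ∏ i, ∑ a ∈ Acl W y (al i), th (c + W * s + a) * th (c + W * s + a) ≤ dg := by
    intro s hs
    rw [hdg]
    have h2 : ∏ i, ∑ a ∈ Acl W y (al i), th (c + W * s + a) * th (c + W * s + a) ≤ ∏ _i : Fin k, Real.log (2 * N) * (F * 2) := by
      apply prod_le_prod (fun i _ => sum_nonneg fun a _ => mul_nonneg (th_nonneg _) (th_nonneg _))
      intro i _
      have h3 : ∑ a ∈ Acl W y (al i), th (c + W * s + a) * th (c + W * s + a) ≤
          ∑ a ∈ Acl W y (al i), Real.log (2 * N) * th (c + W * s + a) := by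
        apply sum_le_sum
        intro a ha
        rw [mem_Acl] at ha
        apply mul_le_mul_of_nonneg_right _ (th_nonneg _)
        have h4 := hnle s hs
        have h5 := th_le_of_le (show c + W * s + a ≤ 2 * N by omega)
        push_cast at h5
        exact h5
      refine h3.trans ?_
      rw [← mul_sum]
      apply mul_le_mul_of_nonneg_left _ (by linarith)
      have := (abs_le.1 (hfirst s hs i)).2
      nlinarith
    rwa [prod_const, card_univ, Fintype.card_fin] at h2
  have hM2 : ∑ a ∈ PP, ZZ W S c a ^ 2 ≤ S * (dg + S * (B ^ k * Real.exp E) + 2 * (B ^ k * (XX.card * Real.log N ^ (2 * k)))) := by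
    rw [hPP, moment_two]
    have h1 : ∀ s ∈ range S, ∑ s' ∈ range S, ∏ i, ∑ a ∈ Acl W y (al i), th (c + W * s + a) * th (c + W * s' + a) ≤
        dg + S * (B ^ k * Real.exp E) + 2 * (B ^ k * (XX.card * Real.log N ^ (2 * k))) := by
      intro s hs
      rw [mem_range] at hs
      apply two_sided (fun s s' => ∏ i, ∑ a ∈ Acl W y (al i), th (c + W * s + a) * th (c + W * s' + a)) g S hs
        dg (B ^ k * Real.exp E) _ (by positivity) (hdiag s hs) _ hgsum
      intro s' hs' hne
      split_ifs with hlt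
      · exact hoff s s' hlt hs'
      · have h2 := hoff s' s (by omega) hs
        refine le_trans (le_of_eq ?_) h2
        apply prod_congr rfl
        intro i _
        apply sum_congr rfl
        intro a _
        ring
    refine (sum_le_sum h1).trans ?_
    rw [sum_const, card_range, nsmul_eq_mul]
  -- collecting
  have hy01 : (10 : ℝ) * k ≤ y0 - 1 := by linarith
  have hky2 : 4 * (k : ℝ) / ((y0 : ℝ) - 1) ≤ 22 / 5 * (k / y0) := by
    rw [mul_div_assoc', div_le_div_iff₀ (by linarith) hy0pos]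
    nlinarith
  have hkκ : k * κ ≤ τ / 8 := by linarith
  have hEb : E ≤ 22 / 5 * (k / y0) + τ / 8 := by rw [hE]; linarith
  have hE0 : 0 ≤ E := by
    rw [hE]
    have : 0 ≤ 4 * (k : ℝ) / ((y0 : ℝ) - 1) := div_nonneg (by positivity) (by linarith)
    positivity
  have hF2 : F ^ (2 * k) = F ^ k * F ^ k := by rw [two_mul, pow_add]
  have hdg2 : dg ≤ τ * S * F ^ k := by
    have e1 : dg = (2 * Real.log (2 * N)) ^ k * F ^ k := by rw [hdg, ← mul_pow]; ring
    rw [e1]
    apply mul_le_mul_of_nonneg_right _ (by positivity)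
    exact le_trans (pow_le_pow_left₀ (by linarith) (by linarith) k) hS1
  have hXL : 6 * (XX.card * Real.log N ^ (2 * k)) ≤ τ * S := by
    refine le_trans ?_ hS2
    have e3 : XX.card * Real.log N ^ (2 * k) ≤ k * (T * Real.exp (-(l / 4))) * Real.log N ^ (2 * k) :=
      mul_le_mul_of_nonneg_right hXXcard (by positivity)
    linarith
  rw [hF2] at hPT
  obtain ⟨z1, z2, z3⟩ := collect (Fk := F ^ k) (P := P) (Bk := B ^ k) (dg := dg) (E := E) (τ := τ) (S := S)
    (r := k / y0) (XL := XX.card * Real.log N ^ (2 * k)) (by positivity) hP0 (by positivity) hτ0 hτ hky1 hE0 hEb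
    hPF hPT hS0 (by positivity) hXL hdg2 hM1 hM2
  have hmain := cheb PP (fun a => ZZ W S c a) (S * F ^ k / P) (40 * (k / y0) * P) z1 (by
    rw [hPcard]
    exact z3)
  have hsub : PP.filter (fun a => ZZ W S c a ≤ S / 6) ⊆ PP.filter (fun a => ZZ W S c a ≤ S * F ^ k / P / 2) := by
    intro a ha
    rw [mem_filter] at ha ⊢
    exact ⟨ha.1, ha.2.trans z2⟩
  have h1 : ((PP.filter (fun a => ZZ W S c a ≤ S / 6)).card : ℝ) ≤ (PP.filter (fun a => ZZ W S c a ≤ S * F ^ k / P / 2)).card := by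
    exact_mod_cast card_le_card hsub
  rw [hPcard]
  linarith

end Pool.Agent.P8H13.PK
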