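import Pool.Agent.P8H13.PK.Per
import Pool.Agent.H807R2.Dav1

/-!
# The truncated model of the primes in a residue class
-/

set_option autoImplicit false

namespace Pool.Agent.P8H13.PK

open Finset
open Pool.Agent.H807R2.Dav

/-- local factor -/
noncomputable def lf (p n : ℕ) : ℝ := if p ∣ n then -1 else 1 / ((p : ℝ) - 1)

/-- `μ(r) c_r(n) / φ(r)` for squarefree `r` -/
noncomputable def hr (r n : ℕ) : ℝ := ∏ p ∈ r.primeFactors, lf p n

/-- the moduli of the model -/
def RQ (W Q : ℕ) : Finset ℕ := (Icc 1 Q).filter (fun r => Squarefree r ∧ r.Coprime W)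

/-- the model -/
noncomputable def mo (W Q b t : ℕ) : ℝ := ∑ r ∈ RQ W Q, hr r (b + W * t)

lemma mem_RQ {W Q r : ℕ} : r ∈ RQ W Q ↔ (1 ≤ r ∧ r ≤ Q) ∧ Squarefree r ∧ r.Coprime W := by
  unfold RQ; rw [mem_filter, mem_Icc]

lemma card_RQ (W Q : ℕ) : (RQ W Q).card ≤ Q := (card_filter_le _ _).trans (by simp)

lemma abs_lf_le {p : ℕ} (hp : p.Prime) (n : ℕ) : |lf p n| ≤ 1 := by
  have h2 : (2 : ℝ) ≤ p := by exact_mod_cast hp.two_le
  unfold lf
  split_ifs
  · simp
  · rw [abs_of_nonneg (by apply div_nonneg <;> linarith), div_le_one (by linarith)]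
    linarith

lemma abs_hr_le (r n : ℕ) : |hr r n| ≤ 1 := by
  unfold hr
  rw [abs_prod]
  exact prod_le_one (fun _ _ => abs_nonneg _) (fun p hp => abs_lf_le (Nat.prime_of_mem_primeFactors hp) n)

lemma lf_congr {p a b : ℕ} (h : p ∣ a ↔ p ∣ b) : lf p a = lf p b := by
  unfold lf
  by_cases h1 : p ∣ a
  · rw [if_pos h1, if_pos (h.mp h1)]
  · rw [if_neg h1, if_neg (fun h2 => h1 (h.mpr h2))]

lemma lf_add {p : ℕ} (n k : ℕ) : lf p (n + p * k) = lf p n :=
  lf_congr (by rw [Nat.dvd_add_left (dvd_mul_right _ _)])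

lemma hr_add {r : ℕ} (n k : ℕ) : hr r (n + r * k) = hr r n := by
  unfold hr
  apply prod_congr rfl
  intro p hp
  obtain ⟨c, hc⟩ := Nat.dvd_of_mem_primeFactors hp
  conv_lhs => rw [hc, mul_assoc]
  exact lf_add _ _

/-- one residue class is divisible by `p` -/
lemma dvd_unique {p D : ℕ} (hp : p.Prime) (hD : ¬ p ∣ D) (C : ℕ) :
    ∃ b0 ∈ range p, ∀ b ∈ range p, (p ∣ C + D * b ↔ b = b0) := by
  have : Fact p.Prime := ⟨hp⟩
  have hD0 : (D : ZMod p) ≠ 0 := by
    rwa [Ne, ZMod.natCast_eq_zero_iff]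
  refine ⟨(-(C : ZMod p) / D).val, mem_range.mpr (ZMod.val_lt _), ?_⟩
  intro b hb
  rw [mem_range] at hb
  rw [← ZMod.natCast_eq_zero_iff]
  push_cast
  constructor
  · intro h
    have h1 : (b : ZMod p) = -(C : ZMod p) / D := by
      rw [eq_div_iff hD0]
      linear_combination h
    rw [← h1, ZMod.val_natCast, Nat.mod_eq_of_lt hb]
  · intro h
    rw [h, ZMod.natCast_zmod_val]
    field_simp
    ring

lemma sum_lf {p D : ℕ} (hp : p.Prime) (hD : ¬ p ∣ D) (C : ℕ) :
    ∑ b ∈ range p, lf p (C + D * b) = 0 := by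
  obtain ⟨b0, hb0', hiff⟩ := dvd_unique hp hD C
  have h2 : (2 : ℝ) ≤ p := by exact_mod_cast hp.two_le
  have h3 : ∑ b ∈ range p, lf p (C + D * b) =
      ∑ b ∈ range p, (1 / ((p : ℝ) - 1) + if b = b0 then (-1 - 1 / ((p : ℝ) - 1)) else 0) := by
    refine sum_congr rfl fun b hb => ?_
    unfold lf
    by_cases h : b = b0
    · rw [if_pos ((hiff b hb).mpr h), if_pos h]; ring
    · rw [if_neg (fun h' => h ((hiff b hb).mp h')), if_neg h, add_zero]
  rw [h3, sum_add_distrib, sum_ite_eq', if_pos hb0']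
  simp only [sum_const, card_range, nsmul_eq_mul]
  have : (p : ℝ) - 1 ≠ 0 := by linarith
  field_simp
  ring

/-- the mean of a product of two local factors -/
noncomputable def xp (p h : ℕ) : ℝ := if p ∣ h then 1 / ((p : ℝ) - 1) else 1 / ((p : ℝ) - 1) ^ 2

lemma xp_nonneg {p : ℕ} (hp : p.Prime) (h : ℕ) : 0 ≤ xp p h := by
  have h2 : (2 : ℝ) ≤ p := by exact_mod_cast hp.two_le
  unfold xp
  split_ifs
  · apply div_nonneg zero_le_one; linarith
  · positivity

lemma sum_lf_two {p D : ℕ} (hp : p.Prime) (hD : ¬ p ∣ D) (C h : ℕ) :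
    |(∑ b ∈ range p, lf p (C + D * b) * lf p (C + D * b + D * h)) / p| ≤ xp p h := by
  have h2 : (2 : ℝ) ≤ p := by exact_mod_cast hp.two_le
  have hp0 : (p : ℝ) ≠ 0 := by linarith
  have hp1 : (p : ℝ) - 1 ≠ 0 := by linarith
  obtain ⟨b0, hb0', hiff⟩ := dvd_unique hp hD C
  obtain ⟨b1, hb1', hiff1⟩ := dvd_unique hp hD (C + D * h)
  have hadd : ∀ b, C + D * b + D * h = C + D * h + D * b := fun b => by ring
  unfold xp
  by_cases hph : p ∣ h
  · rw [if_pos hph]
    have h3 : ∑ b ∈ range p, lf p (C + D * b) * lf p (C + D * b + D * h) =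
        ∑ b ∈ range p, (1 / ((p : ℝ) - 1) ^ 2 + if b = b0 then (1 - 1 / ((p : ℝ) - 1) ^ 2) else 0) := by
      refine sum_congr rfl fun b hb => ?_
      have h4 : lf p (C + D * b + D * h) = lf p (C + D * b) :=
        lf_congr (by rw [Nat.dvd_add_left (dvd_mul_of_dvd_right hph _)])
      rw [h4]
      unfold lf
      by_cases h : b = b0
      · rw [if_pos ((hiff b hb).mpr h), if_pos h]; ring
      · rw [if_neg (fun h' => h ((hiff b hb).mp h')), if_neg h, add_zero]; field_simp
    rw [h3, sum_add_distrib, sum_ite_eq', if_pos hb0']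
    simp only [sum_const, card_range, nsmul_eq_mul]
    have h5 : ((p : ℝ) * (1 / ((p : ℝ) - 1) ^ 2) + (1 - 1 / ((p : ℝ) - 1) ^ 2)) / p = 1 / ((p : ℝ) - 1) := by
      field_simp
      ring
    rw [h5, abs_of_nonneg (by apply div_nonneg zero_le_one; linarith)]
  · rw [if_neg hph]
    have hne : b0 ≠ b1 := by
      rintro rfl
      have e1 := (hiff b0 hb0').2 rfl
      have e2 := (hiff1 b0 hb0').2 rfl
      have e3 : C + D * h + D * b0 = C + D * b0 + D * h := by ring
      rw [e3, Nat.dvd_add_right e1] at e2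
      rcases (hp.dvd_mul).1 e2 with h | h
      · exact hD h
      · exact hph h
    have h3 : ∑ b ∈ range p, lf p (C + D * b) * lf p (C + D * b + D * h) =
        ∑ b ∈ range p, (1 / ((p : ℝ) - 1) ^ 2 + (if b = b0 then (-1 / ((p : ℝ) - 1) - 1 / ((p : ℝ) - 1) ^ 2) else 0) +
          (if b = b1 then (-1 / ((p : ℝ) - 1) - 1 / ((p : ℝ) - 1) ^ 2) else 0)) := by
      refine sum_congr rfl fun b hb => ?_
      rw [hadd]
      unfold lf
      by_cases h : b = b0
      · have h1 : b ≠ b1 := by rw [h]; exact hne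
        rw [if_pos ((hiff b hb).mpr h), if_pos h, if_neg (fun h' => h1 ((hiff1 b hb).mp h')), if_neg h1]; ring
      · rw [if_neg (fun h' => h ((hiff b hb).mp h')), if_neg h]
        by_cases h1 : b = b1
        · rw [if_pos ((hiff1 b hb).mpr h1), if_pos h1]; ring
        · rw [if_neg (fun h' => h1 ((hiff1 b hb).mp h')), if_neg h1, add_zero, add_zero]; field_simp
    rw [h3, sum_add_distrib, sum_add_distrib, sum_ite_eq', if_pos hb0', sum_ite_eq', if_pos hb1']
    simp only [sum_const, card_range, nsmul_eq_mul]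
    have h5 : ((p : ℝ) * (1 / ((p : ℝ) - 1) ^ 2) + (-1 / ((p : ℝ) - 1) - 1 / ((p : ℝ) - 1) ^ 2) +
        (-1 / ((p : ℝ) - 1) - 1 / ((p : ℝ) - 1) ^ 2)) / p = -(1 / ((p : ℝ) - 1) ^ 2) := by
      field_simp
      ring
    rw [h5, abs_neg, abs_of_nonneg (by positivity)]

lemma prod_pf {r : ℕ} (hr : Squarefree r) : ∏ p ∈ r.primeFactors, (p : ℝ) = r := by
  have h := Nat.prod_primeFactors_of_squarefree hr
  conv_rhs => rw [← h]
  push_cast
  rfl

/-- **the model in arithmetic progressions** -/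
theorem mo_ap {W Q d : ℕ} (b A n : ℕ) (hd : 1 ≤ d) (hdQ : d ≤ Q) :
    |∑ k ∈ range n, mo W Q b (A + d * k) -
      n * ∏ p ∈ d.primeFactors.filter (fun p => ¬ p ∣ W), (if p ∣ b + W * A then 0 else (p : ℝ) / (p - 1))| ≤
      2 * (Q : ℝ) ^ 2 := by
  set S := d.primeFactors.filter (fun p => ¬ p ∣ W) with hS
  -- the main term
  have h1 : ∏ p ∈ S, (if p ∣ b + W * A then 0 else (p : ℝ) / (p - 1)) =
      ∏ p ∈ S, (1 + lf p (b + W * A)) := by
    refine prod_congr rfl fun p hp => ?_
    have hp' : p.Prime := Nat.prime_of_mem_primeFactors (mem_filter.mp hp).1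
    have h2 : (2 : ℝ) ≤ p := by exact_mod_cast hp'.two_le
    have h3 : (p : ℝ) - 1 ≠ 0 := by linarith
    unfold lf
    split_ifs
    · ring
    · field_simp
      ring
  have hprime : ∀ T ∈ S.powerset, ∀ p ∈ T, p.Prime := fun T hT p hp =>
    Nat.prime_of_mem_primeFactors (mem_filter.mp (mem_powerset.mp hT hp)).1
  have hmain : ∑ r ∈ (RQ W Q).filter (fun r => r ∣ d), hr r (b + W * A) = ∏ p ∈ S, (1 + lf p (b + W * A)) := by
    rw [prod_one_add]
    refine sum_bij' (fun r _ => r.primeFactors) (fun T _ => ∏ p ∈ T, p) ?_ ?_ ?_ ?_ ?_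
    · intro r hr
      rw [mem_filter, mem_RQ] at hr
      rw [mem_powerset, hS]
      intro p hp
      rw [mem_filter]
      refine ⟨Nat.primeFactors_mono hr.2 (by omega) hp, ?_⟩
      intro hpM
      have h2 : p ∣ Nat.gcd r W := Nat.dvd_gcd (Nat.dvd_of_mem_primeFactors hp) hpM
      rw [hr.1.2.2] at h2
      exact (Nat.prime_of_mem_primeFactors hp).one_lt.ne' (Nat.dvd_one.mp h2)
    · intro T hT
      have hT' := hprime T hT
      have hdvd : (∏ p ∈ T, p) ∣ d := by
        refine dvd_trans ?_ (Nat.prod_primeFactors_dvd d)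
        apply prod_dvd_prod_of_subset
        intro p hp
        exact (mem_filter.mp (mem_powerset.mp hT hp)).1
      rw [mem_filter, mem_RQ]
      refine ⟨⟨⟨?_, (Nat.le_of_dvd (by omega) hdvd).trans hdQ⟩, ?_, ?_⟩, hdvd⟩
      · exact Nat.one_le_iff_ne_zero.mpr (prod_ne_zero_iff.mpr fun p hp => (hT' p hp).ne_zero)
      · exact squarefree_prod_of_pairwise_isCoprime
          (fun p hp q hq hpq => Nat.coprime_iff_isRelPrime.mp
            ((Nat.coprime_primes (hT' p hp) (hT' q hq)).mpr hpq))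
          (fun p hp => (hT' p hp).squarefree)
      · rw [Nat.coprime_prod_left_iff]
        intro p hp
        rw [(hT' p hp).coprime_iff_not_dvd]
        exact (mem_filter.mp (mem_powerset.mp hT hp)).2
    · intro r hr
      rw [mem_filter, mem_RQ] at hr
      exact Nat.prod_primeFactors_of_squarefree hr.1.2.1
    · intro T hT
      exact Nat.primeFactors_prod (hprime T hT)
    · intro r _
      rfl
  -- each modulus
  have hone : ∀ r ∈ RQ W Q, |∑ k ∈ range n, hr r (b + W * (A + d * k)) -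
      (if r ∣ d then n * hr r (b + W * A) else 0)| ≤ 2 * Q := by
    intro r hr'
    rw [mem_RQ] at hr'
    obtain ⟨⟨hr1, hrQ⟩, hsq, hcop⟩ := hr'
    have hrQ' : (r : ℝ) ≤ Q := by exact_mod_cast hrQ
    have hper : ∀ p ∈ r.primeFactors, ∀ t, (fun p k => lf p (b + W * (A + d * k))) p (t + p) =
        (fun p k => lf p (b + W * (A + d * k))) p t := by
      intro p _ t
      simp only
      rw [show b + W * (A + d * (t + p)) = b + W * (A + d * t) + p * (W * d) by ring]
      exact lf_add _ _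
    have h2 := per_prod_inc (S := r.primeFactors) (fun p hp => Nat.prime_of_mem_primeFactors hp)
      (f := fun p k => lf p (b + W * (A + d * k))) hper
      (fun p hp t => abs_lf_le (Nat.prime_of_mem_primeFactors hp) _) n
    rw [prod_pf hsq] at h2
    have h3 : (n : ℝ) * ∏ p ∈ r.primeFactors, ((∑ t ∈ range p, lf p (b + W * (A + d * t))) / p) =
        (if r ∣ d then n * hr r (b + W * A) else 0) := by
      split_ifs with hrd
      · congr 1
        unfold hr
        apply prod_congr rfl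
        intro p hp
        have hp' := Nat.prime_of_mem_primeFactors hp
        have hp0 : (p : ℝ) ≠ 0 := by exact_mod_cast hp'.ne_zero
        have hpd : p ∣ d := (Nat.dvd_of_mem_primeFactors hp).trans hrd
        obtain ⟨c, hc⟩ := hpd
        have h4 : ∀ t ∈ range p, lf p (b + W * (A + d * t)) = lf p (b + W * A) := by
          intro t _
          rw [show b + W * (A + d * t) = b + W * A + p * (W * c * t) by rw [hc]; ring]
          exact lf_add _ _
        rw [sum_congr rfl h4, sum_const, card_range, nsmul_eq_mul]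
        field_simp
      · obtain ⟨p, hp, hpr, hpd⟩ : ∃ p, p.Prime ∧ p ∣ r ∧ ¬ p ∣ d := by
          by_contra hcon
          push Not at hcon
          apply hrd
          have hd0 : d ≠ 0 := by omega
          rw [← Nat.prod_primeFactors_of_squarefree hsq]
          refine dvd_trans ?_ (Nat.prod_primeFactors_dvd d)
          apply prod_dvd_prod_of_subset
          intro p hp
          have hp' := Nat.prime_of_mem_primeFactors hp
          exact Nat.mem_primeFactors.mpr ⟨hp', hcon p hp' (Nat.dvd_of_mem_primeFactors hp), hd0⟩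
        rw [prod_eq_zero (i := p) (Nat.mem_primeFactors.mpr ⟨hp, hpr, by omega⟩), mul_zero]
        have hpW : ¬ p ∣ W := by
          intro h
          have h1 : p ∣ Nat.gcd r W := Nat.dvd_gcd hpr h
          rw [hcop] at h1
          exact hp.one_lt.ne' (Nat.dvd_one.mp h1)
        have hB : ¬ p ∣ W * d := fun h => by
          rcases (hp.dvd_mul).mp h with h | h
          · exact hpW h
          · exact hpd h
        have h4 : ∀ t ∈ range p, lf p (b + W * (A + d * t)) = lf p ((b + W * A) + (W * d) * t) := by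
          intro t _
          congr 1
          ring
        rw [sum_congr rfl h4, sum_lf hp hB, zero_div]
    rw [h3] at h2
    refine h2.trans ?_
    linarith
  have h5 : ∑ k ∈ range n, mo W Q b (A + d * k) - n * ∏ p ∈ S, (1 + lf p (b + W * A)) =
      ∑ r ∈ RQ W Q, (∑ k ∈ range n, hr r (b + W * (A + d * k)) -
      (if r ∣ d then n * hr r (b + W * A) else 0)) := by
    unfold mo
    rw [sum_comm, sum_sub_distrib, ← hmain, sum_filter, mul_sum]
    congr 1
    apply sum_congr rfl
    intro r _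
    split_ifs <;> simp
  rw [h1, h5]
  refine (abs_sum_le_sum_abs _ _).trans ?_
  refine (sum_le_sum hone).trans ?_
  rw [sum_const, nsmul_eq_mul]
  have : ((RQ W Q).card : ℝ) ≤ Q := by exact_mod_cast card_RQ W Q
  nlinarith [Nat.cast_nonneg (α := ℝ) Q]

/-- sum of nonnegative multiplicative weights over the moduli -/
lemma sum_RQ_le {W Q : ℕ} (x : ℕ → ℝ) (hx : ∀ p, p.Prime → 0 ≤ x p) :
    ∑ r ∈ RQ W Q, ∏ p ∈ r.primeFactors, x p ≤
      ∏ p ∈ (Icc 1 Q).filter (fun p => p.Prime ∧ ¬ p ∣ W), (1 + x p) := by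
  set S := (Icc 1 Q).filter (fun p => p.Prime ∧ ¬ p ∣ W) with hS
  rw [prod_one_add]
  have hinj : Set.InjOn (fun r : ℕ => r.primeFactors) (RQ W Q : Set ℕ) := by
    intro r hr r' hr' h
    rw [mem_coe, mem_RQ] at hr hr'
    simp only at h
    rw [← Nat.prod_primeFactors_of_squarefree hr.2.1, ← Nat.prod_primeFactors_of_squarefree hr'.2.1, h]
  rw [← sum_image (f := fun T : Finset ℕ => ∏ p ∈ T, x p) hinj]
  apply sum_le_sum_of_subset_of_nonneg
  · intro T hT
    rw [mem_image] at hT
    obtain ⟨r, hr, rfl⟩ := hT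
    rw [mem_RQ] at hr
    rw [mem_powerset]
    intro p hp
    have hp' := Nat.prime_of_mem_primeFactors hp
    rw [hS, mem_filter, mem_Icc]
    refine ⟨⟨hp'.one_le, ?_⟩, hp', ?_⟩
    · exact (Nat.le_of_dvd (by omega) (Nat.dvd_of_mem_primeFactors hp)).trans hr.1.2
    · intro hpM
      have h2 : p ∣ Nat.gcd r W := Nat.dvd_gcd (Nat.dvd_of_mem_primeFactors hp) hpM
      rw [hr.2.2] at h2
      exact hp'.one_lt.ne' (Nat.dvd_one.mp h2)
  · intro T hT _
    rw [mem_powerset] at hT
    apply prod_nonneg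
    intro p hp
    have := hT hp
    rw [hS, mem_filter] at this
    exact hx p this.2.1

/-- the correlations of the model -/
theorem mo_corr0 {W Q : ℕ} (b h n : ℕ) :
    ∑ t ∈ range n, mo W Q b t * mo W Q b (t + h) ≤
      n * ∑ r ∈ RQ W Q, ∏ p ∈ r.primeFactors, xp p h + 2 * (Q : ℝ) ^ 4 := by
  have hpair : ∀ r ∈ RQ W Q, ∀ r' ∈ RQ W Q, |∑ t ∈ range n, hr r (b + W * t) * hr r' (b + W * (t + h))| ≤
      (if r = r' then n * ∏ p ∈ r.primeFactors, xp p h else 0) + 2 * (Q : ℝ) ^ 2 := by
    intro r hr1 r' hr2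
    rw [mem_RQ] at hr1 hr2
    obtain ⟨⟨hr1, hrQ⟩, hsq, hcop⟩ := hr1
    obtain ⟨⟨hr1', hrQ'⟩, hsq', hcop'⟩ := hr2
    set S := r.primeFactors ∪ r'.primeFactors with hS
    have hSp : ∀ p ∈ S, p.Prime ∧ ¬ p ∣ W := by
      intro p hp
      rw [hS, mem_union] at hp
      rcases hp with hp | hp
      · refine ⟨Nat.prime_of_mem_primeFactors hp, fun hpM => ?_⟩
        have h2 : p ∣ Nat.gcd r W := Nat.dvd_gcd (Nat.dvd_of_mem_primeFactors hp) hpM
        rw [hcop] at h2
        exact (Nat.prime_of_mem_primeFactors hp).one_lt.ne' (Nat.dvd_one.mp h2)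
      · refine ⟨Nat.prime_of_mem_primeFactors hp, fun hpM => ?_⟩
        have h2 : p ∣ Nat.gcd r' W := Nat.dvd_gcd (Nat.dvd_of_mem_primeFactors hp) hpM
        rw [hcop'] at h2
        exact (Nat.prime_of_mem_primeFactors hp).one_lt.ne' (Nat.dvd_one.mp h2)
    set f : ℕ → ℕ → ℝ := fun p t => (if p ∈ r.primeFactors then lf p (b + W * t) else 1) *
      (if p ∈ r'.primeFactors then lf p (b + W * (t + h)) else 1) with hf
    have hfprod : ∀ t, hr r (b + W * t) * hr r' (b + W * (t + h)) = ∏ p ∈ S, f p t := by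
      intro t
      rw [hf, prod_mul_distrib]
      rw [prod_ite, prod_ite]
      simp only [prod_const_one, mul_one]
      congr 1
      · unfold hr
        apply prod_congr _ fun _ _ => rfl
        ext p
        rw [mem_filter, hS, mem_union]
        tauto
      · unfold hr
        apply prod_congr _ fun _ _ => rfl
        ext p
        rw [mem_filter, hS, mem_union]
        tauto
    have h2 := per_prod_inc (S := S) (fun p hp => (hSp p hp).1) (f := f) (by
        intro p _ t
        rw [hf]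
        simp only
        congr 1
        · split_ifs
          · rw [show b + W * (t + p) = b + W * t + p * W by ring]
            exact lf_add _ _
          · rfl
        · split_ifs
          · rw [show b + W * (t + p + h) = b + W * (t + h) + p * W by ring]
            exact lf_add _ _
          · rfl) (by
        intro p hp t
        rw [hf]
        simp only
        rw [abs_mul]
        have e1 : |if p ∈ r.primeFactors then lf p (b + W * t) else 1| ≤ 1 := by
          split_ifs
          · exact abs_lf_le (hSp p hp).1 _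
          · simp
        have e2 : |if p ∈ r'.primeFactors then lf p (b + W * (t + h)) else 1| ≤ 1 := by
          split_ifs
          · exact abs_lf_le (hSp p hp).1 _
          · simp
        exact mul_le_one₀ e1 (abs_nonneg _) e2) n
    have h3 : 2 * ∏ p ∈ S, (p : ℝ) ≤ 2 * (Q : ℝ) ^ 2 := by
      have e1 : ∏ p ∈ S, (p : ℝ) ≤ (∏ p ∈ r.primeFactors, (p : ℝ)) * ∏ p ∈ r'.primeFactors, (p : ℝ) := by
        rw [← prod_union_inter]
        have e2 : (1 : ℝ) ≤ ∏ p ∈ r.primeFactors ∩ r'.primeFactors, (p : ℝ) := by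
          have : (1 : ℕ) ≤ ∏ p ∈ r.primeFactors ∩ r'.primeFactors, p :=
            prod_pos fun p hp => (Nat.prime_of_mem_primeFactors (mem_inter.1 hp).1).pos
          have h' := (Nat.one_le_cast (α := ℝ)).2 this
          push_cast at h'
          exact h'
        have e3 : (0 : ℝ) ≤ ∏ p ∈ S, (p : ℝ) := prod_nonneg fun _ _ => Nat.cast_nonneg _
        rw [← hS]
        nlinarith
      rw [prod_pf hsq, prod_pf hsq'] at e1
      have e2 : (r : ℝ) ≤ Q := by exact_mod_cast hrQ
      have e3 : (r' : ℝ) ≤ Q := by exact_mod_cast hrQ'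
      have e4 : (r : ℝ) * r' ≤ Q * Q := mul_le_mul e2 e3 (by positivity) (by positivity)
      nlinarith
    have h4 : |(n : ℝ) * ∏ p ∈ S, ((∑ t ∈ range p, f p t) / p)| ≤
        (if r = r' then n * ∏ p ∈ r.primeFactors, xp p h else 0) := by
      split_ifs with hrr
      · subst hrr
        have hSr : S = r.primeFactors := by rw [hS, union_self]
        rw [hSr, abs_mul, abs_of_nonneg (Nat.cast_nonneg n)]
        apply mul_le_mul_of_nonneg_left _ (Nat.cast_nonneg n)
        rw [abs_prod]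
        apply prod_le_prod (fun _ _ => abs_nonneg _)
        intro p hp
        have hp' := hSp p (by rw [hSr]; exact hp)
        have e1 : ∀ t ∈ range p, f p t = lf p (b + W * t) * lf p (b + W * t + W * h) := by
          intro t _
          rw [hf]
          simp only
          rw [if_pos hp, if_pos hp]
          congr 2
          ring
        rw [sum_congr rfl e1]
        exact sum_lf_two hp'.1 hp'.2 b h
      · obtain ⟨p, hpS, hp1⟩ : ∃ p ∈ S, ∑ t ∈ range p, f p t = 0 := by
          have hne : r.primeFactors ≠ r'.primeFactors := by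
            intro he
            apply hrr
            rw [← Nat.prod_primeFactors_of_squarefree hsq, ← Nat.prod_primeFactors_of_squarefree hsq', he]
          have : ∃ p, (p ∈ r.primeFactors ∧ p ∉ r'.primeFactors) ∨ (p ∉ r.primeFactors ∧ p ∈ r'.primeFactors) := by
            by_contra hcon
            push Not at hcon
            apply hne
            ext p
            have := hcon p
            tauto
          obtain ⟨p, ⟨hp1, hp2⟩ | ⟨hp1, hp2⟩⟩ := this
          · have hpS : p ∈ S := by rw [hS, mem_union]; exact Or.inl hp1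
            refine ⟨p, hpS, ?_⟩
            have e1 : ∀ t ∈ range p, f p t = lf p (b + W * t) := by
              intro t _
              rw [hf]
              simp only
              rw [if_pos hp1, if_neg hp2, mul_one]
            rw [sum_congr rfl e1]
            exact sum_lf (hSp p hpS).1 (hSp p hpS).2 b
          · have hpS : p ∈ S := by rw [hS, mem_union]; exact Or.inr hp2
            refine ⟨p, hpS, ?_⟩
            have e1 : ∀ t ∈ range p, f p t = lf p (b + W * h + W * t) := by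
              intro t _
              rw [hf]
              simp only
              rw [if_neg hp1, if_pos hp2, one_mul]
              congr 1
              ring
            rw [sum_congr rfl e1]
            exact sum_lf (hSp p hpS).1 (hSp p hpS).2 _
        rw [prod_eq_zero hpS (by rw [hp1, zero_div]), mul_zero, abs_zero]
    have h5 : ∑ t ∈ range n, hr r (b + W * t) * hr r' (b + W * (t + h)) = ∑ t ∈ range n, ∏ p ∈ S, f p t :=
      sum_congr rfl fun t _ => hfprod t
    rw [h5]
    have h6 := abs_sub_abs_le_abs_sub (∑ t ∈ range n, ∏ p ∈ S, f p t) ((n : ℝ) * ∏ p ∈ S, ((∑ t ∈ range p, f p t) / p))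
    linarith
  have h1 : ∑ t ∈ range n, mo W Q b t * mo W Q b (t + h) =
      ∑ r ∈ RQ W Q, ∑ r' ∈ RQ W Q, ∑ t ∈ range n, hr r (b + W * t) * hr r' (b + W * (t + h)) := by
    unfold mo
    simp_rw [sum_mul_sum]
    rw [sum_comm]
    apply sum_congr rfl
    intro r _
    rw [sum_comm]
  rw [h1]
  have h2 : ∑ r ∈ RQ W Q, ∑ r' ∈ RQ W Q, ∑ t ∈ range n, hr r (b + W * t) * hr r' (b + W * (t + h)) ≤
      ∑ r ∈ RQ W Q, ∑ r' ∈ RQ W Q, ((if r = r' then n * ∏ p ∈ r.primeFactors, xp p h else 0) + 2 * (Q : ℝ) ^ 2) :=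
    sum_le_sum fun r hr1 => sum_le_sum fun r' hr2 => (le_abs_self _).trans (hpair r hr1 r' hr2)
  refine h2.trans ?_
  simp only [sum_add_distrib, sum_const, nsmul_eq_mul]
  apply add_le_add
  · have h3 : ∑ r ∈ RQ W Q, ∑ r' ∈ RQ W Q, (if r = r' then n * ∏ p ∈ r.primeFactors, xp p h else 0) =
        n * ∑ r ∈ RQ W Q, ∏ p ∈ r.primeFactors, xp p h := by
      rw [mul_sum]
      apply sum_congr rfl
      intro r hr1
      rw [sum_ite_eq, if_pos hr1]
    rw [h3]
  · have h3 : ((RQ W Q).card : ℝ) ≤ Q := by exact_mod_cast card_RQ W Q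
    have h4 : (0 : ℝ) ≤ (RQ W Q).card := Nat.cast_nonneg _
    have h5 : ((RQ W Q).card : ℝ) * (RQ W Q).card ≤ Q * Q := mul_le_mul h3 h3 h4 (by positivity)
    calc ((RQ W Q).card : ℝ) * ((RQ W Q).card * (2 * (Q : ℝ) ^ 2)) = (((RQ W Q).card : ℝ) * (RQ W Q).card) * (2 * (Q : ℝ) ^ 2) := by ring
      _ ≤ (Q * Q) * (2 * (Q : ℝ) ^ 2) := mul_le_mul_of_nonneg_right h5 (by positivity)
      _ = 2 * (Q : ℝ) ^ 4 := by ring

/-- **the correlations of the model** -/
theorem mo_corr {W Q : ℕ} (b h n : ℕ) :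
    ∑ t ∈ range n, mo W Q b t * mo W Q b (t + h) ≤
      n * ∏ p ∈ (Icc 1 Q).filter (fun p => p.Prime ∧ ¬ p ∣ W), (1 + xp p h) + 2 * (Q : ℝ) ^ 4 := by
  refine (mo_corr0 b h n).trans ?_
  have := mul_le_mul_of_nonneg_left (sum_RQ_le (W := W) (Q := Q) (fun p => xp p h) fun p hp => xp_nonneg hp h)
    (Nat.cast_nonneg (α := ℝ) n)
  linarith

/-- the exponential sum of a periodic function -/
lemma per_exp {g : ℕ → ℝ} {r : ℕ} (hper : ∀ t, g (t + r) = g t) (hg : ∀ t, |g t| ≤ 1) (n : ℕ) (α : ℝ) :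
    ‖∑ t ∈ range n, ((g t : ℝ) : ℂ) * ee (t * α)‖ * dd (r * α) ≤ 2 * r := by
  have h1 : (∑ t ∈ range n, ((g t : ℝ) : ℂ) * ee (t * α)) * (1 - ee (r * α)) =
      ∑ t ∈ range r, ((g t : ℝ) : ℂ) * ee (t * α) - ∑ t ∈ range r, ((g (n + t) : ℝ) : ℂ) * ee ((n + t : ℕ) * α) := by
    have e1 : (∑ t ∈ range n, ((g t : ℝ) : ℂ) * ee (t * α)) * ee (r * α) =
        ∑ t ∈ range n, ((g (r + t) : ℝ) : ℂ) * ee ((r + t : ℕ) * α) := by
      rw [sum_mul]
      apply sum_congr rfl
      intro t _
      rw [mul_assoc, ← ee_add, add_comm r t, hper]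
      congr 2
      push_cast
      ring
    have e2 := sum_range_add (fun t => ((g t : ℝ) : ℂ) * ee ((t : ℕ) * α)) r n
    have e3 := sum_range_add (fun t => ((g t : ℝ) : ℂ) * ee ((t : ℕ) * α)) n r
    rw [add_comm n r] at e3
    rw [mul_sub, mul_one, e1]
    have e4 := e2.symm.trans e3
    linear_combination -e4
  have h2 : ∀ (k : ℕ), ‖∑ t ∈ range r, ((g (k + t) : ℝ) : ℂ) * ee ((k + t : ℕ) * α)‖ ≤ r := by
    intro k
    refine (norm_sum_le _ _).trans ?_
    refine (sum_le_card_nsmul _ _ 1 fun t _ => ?_).trans ?_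
    · rw [norm_mul, norm_ee, mul_one, Complex.norm_real]
      exact hg _
    · rw [card_range, nsmul_eq_mul, mul_one]
  have h3 := h2 0
  simp only [zero_add] at h3
  have h4 := congrArg norm h1
  rw [norm_mul] at h4
  have h5 : ‖1 - ee ((r : ℝ) * α)‖ = dd (r * α) := rfl
  rw [h5] at h4
  rw [h4]
  refine (norm_sub_le _ _).trans ?_
  have := h2 n
  linarith

/-- **the model on the minor arcs** -/
theorem mo_minor {W Q : ℕ} (b n : ℕ) {α ρ : ℝ} (hρ : 0 < ρ) (hα : ∀ r : ℕ, 1 ≤ r → r ≤ Q → ρ ≤ dd (r * α)) :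
    ‖∑ t ∈ range n, ((mo W Q b t : ℝ) : ℂ) * ee (t * α)‖ ≤ 2 * (Q : ℝ) ^ 2 / ρ := by
  have h1 : ∑ t ∈ range n, ((mo W Q b t : ℝ) : ℂ) * ee (t * α) =
      ∑ r ∈ RQ W Q, ∑ t ∈ range n, ((hr r (b + W * t) : ℝ) : ℂ) * ee (t * α) := by
    unfold mo
    rw [sum_comm]
    apply sum_congr rfl
    intro t _
    push_cast
    rw [sum_mul]
  rw [h1]
  refine (norm_sum_le _ _).trans ?_
  have h2 : ∀ r ∈ RQ W Q, ‖∑ t ∈ range n, ((hr r (b + W * t) : ℝ) : ℂ) * ee (t * α)‖ ≤ 2 * Q / ρ := by
    intro r hr1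
    rw [mem_RQ] at hr1
    have h3 := per_exp (g := fun t => hr r (b + W * t)) (r := r) (by
      intro t
      rw [show b + W * (t + r) = b + W * t + r * W by ring]
      exact hr_add _ _) (fun t => abs_hr_le _ _) n α
    have h4 := hα r hr1.1.1 hr1.1.2
    rw [le_div_iff₀ hρ]
    have h5 : (r : ℝ) ≤ Q := by exact_mod_cast hr1.1.2
    calc _ ≤ ‖∑ t ∈ range n, ((hr r (b + W * t) : ℝ) : ℂ) * ee (t * α)‖ * dd (r * α) :=
          mul_le_mul_of_nonneg_left h4 (norm_nonneg _)
      _ ≤ 2 * r := h3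
      _ ≤ 2 * Q := by linarith
  refine (sum_le_sum h2).trans ?_
  rw [sum_const, nsmul_eq_mul]
  have h3 : ((RQ W Q).card : ℝ) ≤ Q := by exact_mod_cast card_RQ W Q
  calc ((RQ W Q).card : ℝ) * (2 * Q / ρ) ≤ Q * (2 * Q / ρ) := mul_le_mul_of_nonneg_right h3 (by positivity)
    _ = _ := by ring

end Pool.Agent.P8H13.PK
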