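import Pool.Agent.P8H13.PK.APsum
import Pool.Agent.N232.SP.AP
import Pool.Agent.N728.SP.GS
import Pool.Agent.N475.SP.SC
import Pool.Agent.N457.SP.TEL
import Pool.Agent.N690.SP.SPT
import Pool.Agent.N658.SP.ZP

/-!
# The primes in arithmetic progressions at a scale without exceptional characters
-/

set_option autoImplicit false

namespace Pool.Agent.P8H13.PK

open Finset
open Pool.Agent.N728.SP (S_SP S_GS S_SC SCon ZF)
open Pool.Agent.N232.SP (psAP psAP_nonneg psAP_le sandwich logAP)

/-- `psAP` and `ps` -/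
lemma psAP_sub_ps {q b z : ℕ} (hz : 1 ≤ z) : |psAP q b z - ps q b z| ≤ 2 * √(z : ℝ) * Real.log z := by
  have h1 : psAP q b z - ps q b z = ∑ n ∈ (Icc 1 z).filter (fun n => n ≡ b [MOD q]), (ArithmeticFunction.vonMangoldt n - th n) := by
    unfold psAP ps
    rw [sum_sub_distrib]
  have h2 : 0 ≤ psAP q b z - ps q b z := by
    rw [h1]
    exact sum_nonneg fun n _ => sub_nonneg.2 (th_le n)
  rw [abs_of_nonneg h2, h1]
  refine le_trans ?_ (sum_La_sub_th hz)
  exact sum_le_sum_of_subset_of_nonneg (filter_subset _ _) fun n _ _ => sub_nonneg.2 (th_le n)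

lemma ps_le_psAP (q b z : ℕ) : ps q b z ≤ psAP q b z := sum_le_sum fun n _ => th_le n

lemma ps_nonneg (q b z : ℕ) : 0 ≤ ps q b z := sum_nonneg fun n _ => th_nonneg n

lemma big_exp : ∃ l0 : ℝ, ∀ l : ℝ, l0 ≤ l → 8 * ((100 * l) ^ 42 + 1) ≤ Real.exp l := by
  have h1 := Real.tendsto_pow_mul_exp_neg_atTop_nhds_zero 42
  have h2 := (h1.eventually (gt_mem_nhds (show (0 : ℝ) < 1 / (16 * 100 ^ 42) by norm_num))).and
    (Filter.eventually_ge_atTop (1 : ℝ))
  rw [Filter.eventually_atTop] at h2
  obtain ⟨l0, hl0⟩ := h2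
  refine ⟨l0, fun l hl => ?_⟩
  obtain ⟨h3, h4⟩ := hl0 l hl
  rw [Real.exp_neg, ← div_eq_mul_inv, div_lt_div_iff₀ (Real.exp_pos _) (by norm_num)] at h3
  have h5 : (1 : ℝ) ≤ l ^ 42 := one_le_pow₀ h4
  have h6 : (100 * l) ^ 42 = 100 ^ 42 * l ^ 42 := mul_pow _ _ _
  rw [h6]
  have h7 : (1 : ℝ) ≤ 100 ^ 42 * l ^ 42 := by
    have : (1 : ℝ) ≤ 100 ^ 42 := by norm_num
    nlinarith
  linarith

theorem pap_of_SCon (h : S_SP) : ∃ l0 : ℝ, ∀ l : ℝ, l0 ≤ l → SCon (100 * l) → ∀ N : ℕ,
    Real.exp (2 * (100 * l) ^ 22) ≤ N → (N : ℝ) * 2 ≤ Real.exp ((100 * l) ^ 42) → PAP l N := by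
  obtain ⟨l0, hl0⟩ := logAP h
  obtain ⟨l1, hl1'⟩ := big_exp
  refine ⟨max (max l0 l1) 100, fun l hl hS N hN1 hN2 q b z hq hqe hb hz => ?_⟩
  have hl1 : l0 ≤ l := (le_max_left _ _).trans ((le_max_left _ _).trans hl)
  have hl3 : l1 ≤ l := (le_max_right _ _).trans ((le_max_left _ _).trans hl)
  have hl2 : (100 : ℝ) ≤ l := (le_max_right _ _).trans hl
  have hbig := hl1' l hl3
  set m := 100 * l with hm
  have hm1 : 10000 ≤ m := by rw [hm]; linarith
  have hml : l0 ≤ m := by rw [hm]; linarith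
  have hφ : (1:ℝ) ≤ Nat.totient q := by exact_mod_cast Nat.totient_pos.mpr (by omega)
  have hN0 : (0 : ℝ) < N := (Real.exp_pos _).trans_le hN1
  have hm22 : 10000 * m ≤ m ^ 22 := by
    calc 10000 * m ≤ m * m := by gcongr
      _ = m ^ 2 := by ring
      _ ≤ m ^ 22 := pow_le_pow_right₀ (by linarith) (by norm_num)
  have hN1' : (1 : ℝ) ≤ N := le_trans (Real.one_le_exp (by positivity)) hN1
  have hNn : 1 ≤ N := by exact_mod_cast hN1'
  have hlogN : Real.log N ≤ m ^ 42 := by
    rw [Real.log_le_iff_le_exp hN0]; linarith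
  have hlogN0 : 0 ≤ Real.log N := Real.log_nonneg hN1'
  have hE0 : 0 < Real.exp (-(20 * l)) := Real.exp_pos _
  rcases lt_or_ge (z : ℝ) (N * Real.exp (-(21 * l))) with hz1 | hz1
  · have h1 := ps_nonneg q b z
    have h2 := (ps_le_psAP q b z).trans (psAP_le q b z)
    have h3 : (z:ℝ) / (Nat.totient q : ℝ) ≤ z := div_le_self (by positivity) hφ
    have h4 : 0 ≤ (z:ℝ) / (Nat.totient q : ℝ) := by positivity
    have h5 : (z:ℝ) * Real.log z ≤ z * Real.log N := by
      apply mul_le_mul_of_nonneg_left _ (Nat.cast_nonneg _)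
      rcases Nat.eq_zero_or_pos z with hz0 | hz0
      · subst hz0
        simp only [Nat.cast_zero, Real.log_zero]
        exact hlogN0
      · exact Real.log_le_log (by exact_mod_cast hz0) (by exact_mod_cast hz)
    have h6 : (z : ℝ) * Real.log N + z ≤ N * Real.exp (-(20 * l)) := by
      calc (z : ℝ) * Real.log N + z = z * (Real.log N + 1) := by ring
        _ ≤ (N * Real.exp (-(21 * l))) * Real.exp l := by
            apply mul_le_mul hz1.le _ (by linarith) (by positivity)
            have : 0 ≤ m ^ 42 := by positivity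
            linarith
        _ = N * (Real.exp (-(21 * l)) * Real.exp l) := by ring
        _ = _ := by rw [← Real.exp_add]; congr 2; ring
    rw [abs_le]
    have h7 : 0 ≤ (z : ℝ) * Real.log N := by positivity
    constructor
    · linarith
    · have : (0 : ℝ) ≤ z := Nat.cast_nonneg _
      linarith
  · -- large z
    have hz0 : (0:ℝ) < z := lt_of_lt_of_le (by positivity) hz1
    have hz0' : 1 ≤ z := by
      have : 0 < z := by exact_mod_cast hz0
      omega
    have hzN : (z : ℝ) ≤ N := by exact_mod_cast hz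
    set hh := Real.exp (-(3 / 8 * m)) with hhd
    have hh0 : 0 < hh := Real.exp_pos _
    have hh1 : hh ≤ 1 := by
      rw [hhd, Real.exp_le_one_iff]
      linarith
    set ε := 3 * Real.exp (-(37 / 50 * m)) with hε
    have hε0 : 0 < ε := by positivity
    have e2 : Real.exp (m ^ 22) ≤ z / 2 := by
      have h7 : Real.exp (m ^ 22) * 2 ≤ N * Real.exp (-(21 * l)) := by
        have h8 : (2:ℝ) ≤ Real.exp 1 := by
          have := Real.add_one_le_exp (1:ℝ)
          linarith
        calc Real.exp (m ^ 22) * 2 ≤ Real.exp (m ^ 22) * Real.exp 1 := by gcongr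
          _ = Real.exp (m ^ 22 + 1) := by rw [Real.exp_add]
          _ ≤ Real.exp (2 * m ^ 22 + -(21 * l)) := by
              apply Real.exp_le_exp.mpr
              linarith
          _ = Real.exp (2 * m ^ 22) * Real.exp (-(21 * l)) := by rw [Real.exp_add]
          _ ≤ _ := mul_le_mul_of_nonneg_right hN1 (Real.exp_pos _).le
      linarith
    have e3 : 2 * (z:ℝ) ≤ Real.exp (m ^ 42) := by linarith
    have r1 : z / 2 ≤ z / (1 + hh) := by
      apply div_le_div_of_nonneg_left hz0.le (by linarith) (by linarith)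
    have r2 : z / (1 + hh) ≤ z := div_le_self hz0.le (by linarith)
    have r3 : (1 + hh) * z ≤ 2 * z := by nlinarith
    have r4 : z ≤ (1 + hh) * z := by nlinarith
    have hqe' : (q : ℝ) ≤ Real.exp (m / 100) := by
      have : m / 100 = l := by rw [hm]; ring
      rw [this]; exact hqe
    have h1 := sandwich q b z hz0' (Nat.totient q) hh ε hφ hh0 hh1 hε0.le
      (hl0 m hml hS q b hq hqe' hb ((1 + hh) * z) (by linarith) (by linarith))
      (hl0 m hml hS q b hq hqe' hb z (by linarith) (by linarith))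
      (hl0 m hml hS q b hq hqe' hb (z / (1 + hh)) (by linarith) (by linarith))
    have h2 : hh + 6 * ε / hh ≤ 19 * Real.exp (-(30 * l)) := by
      have h3 : hh ≤ Real.exp (-(30 * l)) := by
        apply Real.exp_le_exp.mpr
        rw [hm]
        linarith
      have h4 : 6 * ε / hh ≤ 18 * Real.exp (-(30 * l)) := by
        rw [hε, hhd, div_le_iff₀ (Real.exp_pos _), mul_assoc 18, ← Real.exp_add, ← mul_assoc]
        have h5 : Real.exp (-(37 / 50 * m)) ≤ Real.exp (-(30 * l) + -(3 / 8 * m)) := by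
          apply Real.exp_le_exp.mpr
          rw [hm]
          linarith
        linarith
      linarith
    have h3 : |psAP q b z - z / (Nat.totient q : ℝ)| ≤ N * (19 * Real.exp (-(30 * l))) :=
      h1.trans (mul_le_mul hzN h2 (by positivity) hN0.le)
    have h4 := psAP_sub_ps (q := q) (b := b) hz0'
    have h5 : 2 * √(z : ℝ) * Real.log z ≤ N * Real.exp (-(21 * l)) := by
      have e5 : √(z : ℝ) ≤ √(N : ℝ) := Real.sqrt_le_sqrt hzN
      have e6 : Real.log z ≤ Real.log N := Real.log_le_log hz0 hzN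
      have e7 : 2 * Real.log N ≤ √(N : ℝ) * Real.exp (-(21 * l)) := by
        have e8 : Real.exp (m ^ 22) ≤ √(N : ℝ) := by
          apply Real.le_sqrt_of_sq_le
          rw [← Real.exp_nat_mul]
          push_cast
          exact hN1
        have e9 : Real.exp l ≤ √(N : ℝ) * Real.exp (-(21 * l)) := by
          calc Real.exp l ≤ Real.exp (m ^ 22 + -(21 * l)) := by
                apply Real.exp_le_exp.mpr
                rw [hm] at hm22 ⊢
                linarith
            _ = Real.exp (m ^ 22) * Real.exp (-(21 * l)) := Real.exp_add _ _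
            _ ≤ _ := mul_le_mul_of_nonneg_right e8 (Real.exp_pos _).le
        linarith
      calc 2 * √(z : ℝ) * Real.log z ≤ 2 * √(N : ℝ) * Real.log N := by
            apply mul_le_mul _ e6 (Real.log_nonneg (by exact_mod_cast hz0')) (by positivity)
            linarith
        _ = √(N : ℝ) * (2 * Real.log N) := by ring
        _ ≤ √(N : ℝ) * (√(N : ℝ) * Real.exp (-(21 * l))) := mul_le_mul_of_nonneg_left e7 (Real.sqrt_nonneg _)
        _ = _ := by rw [← mul_assoc, Real.mul_self_sqrt hN0.le]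
    have h6 : |ps q b z - z / (Nat.totient q : ℝ)| ≤ N * (19 * Real.exp (-(30 * l))) + N * Real.exp (-(21 * l)) := by
      have h7 : ps q b z - z / (Nat.totient q : ℝ) = (psAP q b z - z / (Nat.totient q : ℝ)) - (psAP q b z - ps q b z) := by ring
      rw [h7]
      refine (abs_sub _ _).trans ?_
      linarith
    refine h6.trans ?_
    have h8 : (8 : ℝ) * ((100 * l) ^ 42 + 1) ≤ Real.exp l := by
      have := hbig
      exact this
    have h9 : (20 : ℝ) ≤ Real.exp l := by
      have : l ≤ (100 * l) ^ 42 := by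
        calc l ≤ 100 * l := by linarith
          _ = (100 * l) ^ 1 := (pow_one _).symm
          _ ≤ _ := pow_le_pow_right₀ (by linarith) (by norm_num)
      linarith
    have h10 : 19 * Real.exp (-(30 * l)) + Real.exp (-(21 * l)) ≤ Real.exp (-(20 * l)) := by
      have e1 : Real.exp (-(30 * l)) ≤ Real.exp (-(21 * l)) := Real.exp_le_exp.2 (by linarith)
      have e2 : Real.exp (-(20 * l)) = Real.exp (-(21 * l)) * Real.exp l := by rw [← Real.exp_add]; congr 1; ring
      rw [e2]
      have e3 := Real.exp_pos (-(21 * l))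
      nlinarith
    calc N * (19 * Real.exp (-(30 * l))) + N * Real.exp (-(21 * l)) = N * (19 * Real.exp (-(30 * l)) + Real.exp (-(21 * l))) := by ring
      _ ≤ _ := mul_le_mul_of_nonneg_left h10 hN0.le

/-- arbitrarily large scales with the prime number theorem in progressions -/
theorem good_pap : ∀ L0 : ℝ, ∃ l : ℝ, L0 ≤ l ∧ ∀ N : ℕ,
    Real.exp (2 * (100 * l) ^ 22) ≤ N → (N : ℝ) * 2 ≤ Real.exp ((100 * l) ^ 42) → PAP l N := by
  intro L0
  have hTEL := Pool.Agent.N457.SP.t_TEL
  have hSP : S_SP := Pool.Agent.N690.SP.t_SP Pool.Agent.N658.SP.t_ZP hTEL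
  have hSC : S_SC := Pool.Agent.N475.SP.t_SC hTEL
  obtain ⟨d, hd0, hd1, hGS⟩ := Pool.Agent.N728.SP.GS.t_GS
  obtain ⟨l1, h1⟩ := pap_of_SCon hSP
  obtain ⟨l2, h2⟩ := hSC d hd0 hd1
  obtain ⟨m, hm1, hm2⟩ := hGS (max (max (100 * L0) (100 * l1)) l2)
  have e1 : 100 * L0 ≤ m := (le_max_left _ _).trans ((le_max_left _ _).trans hm1)
  have e2 : 100 * l1 ≤ m := (le_max_right _ _).trans ((le_max_left _ _).trans hm1)
  have e3 : l2 ≤ m := (le_max_right _ _).trans hm1
  have e4 : 100 * (m / 100) = m := by ring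
  refine ⟨m / 100, by linarith, ?_⟩
  have h3 := h1 (m / 100) (by linarith) (by rw [e4]; exact h2 m e3 hm2)
  exact h3

end Pool.Agent.P8H13.PK
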