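import Mathlib

/-!
# Sums of products of functions of coprime periods
-/

set_option autoImplicit false

namespace Pool.Agent.P8H13.PK

open Finset

lemma per_add {g : ℕ → ℝ} {p : ℕ} (hper : ∀ t, g (t + p) = g t) (t k : ℕ) : g (t + p * k) = g t := by
  induction k with
  | zero => simp
  | succ k ih => rw [Nat.mul_succ, ← add_assoc, hper, ih]

lemma per_mod {g : ℕ → ℝ} {p : ℕ} (hper : ∀ t, g (t + p) = g t) (t : ℕ) : g (t % p) = g t := by
  conv_rhs => rw [← Nat.mod_add_div t p]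
  rw [per_add hper]

lemma sum_affine {g : ℕ → ℝ} {p : ℕ} (hp : 0 < p) (hper : ∀ t, g (t + p) = g t) {P : ℕ} (a : ℕ)
    (hc : Nat.Coprime P p) : ∑ b ∈ range p, g (P * b + a) = ∑ s ∈ range p, g s := by
  have hmaps : Set.MapsTo (fun b => (P * b + a) % p) (range p : Set ℕ) (range p : Set ℕ) := by
    intro b _
    rw [Finset.mem_coe, mem_range]
    exact Nat.mod_lt _ hp
  have hinj : Set.InjOn (fun b => (P * b + a) % p) (range p : Set ℕ) := by
    intro x hx y hy hxy
    rw [Finset.mem_coe, mem_range] at hx hy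
    have h1 : P * x + a ≡ P * y + a [MOD p] := hxy
    have h2 : P * x ≡ P * y [MOD p] := Nat.ModEq.add_right_cancel' a h1
    have h3 : x ≡ y [MOD p] := Nat.ModEq.cancel_left_of_coprime (by rw [Nat.gcd_comm]; exact hc) h2
    have h4 := h3
    unfold Nat.ModEq at h4
    rwa [Nat.mod_eq_of_lt hx, Nat.mod_eq_of_lt hy] at h4
  refine sum_nbij (fun b => (P * b + a) % p) hmaps hinj ?_ ?_
  · exact Finset.surjOn_of_injOn_of_card_le _ hmaps hinj le_rfl
  · intro b _
    rw [per_mod hper]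

lemma sum_range_mul (f : ℕ → ℝ) (r m : ℕ) :
    ∑ k ∈ range (r * m), f k = ∑ b ∈ range m, ∑ a ∈ range r, f (r * b + a) := by
  induction m with
  | zero => simp
  | succ m ih => rw [Nat.mul_succ, Finset.sum_range_add, ih, Finset.sum_range_succ]

/-- two functions with coprime periods -/
lemma per_two {g h : ℕ → ℝ} {p P : ℕ} (hp : 0 < p) (hg : ∀ t, g (t + p) = g t)
    (hh : ∀ t, h (t + P) = h t) (hc : Nat.Coprime P p) :
    ∑ t ∈ range (P * p), g t * h t = (∑ s ∈ range p, g s) * ∑ u ∈ range P, h u := by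
  rw [sum_range_mul, sum_comm, mul_sum]
  apply sum_congr rfl
  intro a _
  have h1 : ∀ b ∈ range p, g (P * b + a) * h (P * b + a) = g (P * b + a) * h a := by
    intro b _
    rw [add_comm (P * b) a, per_add hh]
  rw [sum_congr rfl h1, ← sum_mul, sum_affine hp hg a hc]

lemma per_prod_per {S : Finset ℕ} {f : ℕ → ℕ → ℝ} (hper : ∀ p ∈ S, ∀ t, f p (t + p) = f p t) (t : ℕ) :
    ∏ p ∈ S, f p (t + ∏ q ∈ S, q) = ∏ p ∈ S, f p t := by
  apply prod_congr rfl
  intro p hp
  obtain ⟨k, hk⟩ := dvd_prod_of_mem (fun q : ℕ => q) hp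
  rw [hk]
  exact per_add (hper p hp) t k

/-- the sum over a full period -/
lemma per_prod {S : Finset ℕ} (hS : ∀ p ∈ S, p.Prime) {f : ℕ → ℕ → ℝ}
    (hper : ∀ p ∈ S, ∀ t, f p (t + p) = f p t) :
    ∑ t ∈ range (∏ p ∈ S, p), ∏ p ∈ S, f p t = ∏ p ∈ S, ∑ t ∈ range p, f p t := by
  induction S using Finset.induction_on with
  | empty => simp
  | insert p S hpS ih =>
    have h1 : ∏ q ∈ insert p S, q = (∏ q ∈ S, q) * p := by rw [prod_insert hpS, mul_comm]
    rw [h1, prod_insert hpS]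
    have h2 : ∀ t ∈ range ((∏ q ∈ S, q) * p), ∏ q ∈ insert p S, f q t = f p t * ∏ q ∈ S, f q t := by
      intro t _
      rw [prod_insert hpS]
    rw [sum_congr rfl h2, per_two (hS p (mem_insert_self _ _)).pos (hper p (mem_insert_self _ _))
      (h := fun t => ∏ q ∈ S, f q t) (per_prod_per fun q hq => hper q (mem_insert_of_mem hq)),
      ih (fun q hq => hS q (mem_insert_of_mem hq)) (fun q hq => hper q (mem_insert_of_mem hq))]
    rw [Nat.coprime_prod_left_iff]
    intro q hq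
    rw [Nat.coprime_primes (hS q (mem_insert_of_mem hq)) (hS p (mem_insert_self _ _))]
    rintro rfl
    exact hpS hq

/-- incomplete sums of a periodic function -/
lemma per_inc {f : ℕ → ℝ} {P : ℕ} (hP : 0 < P) (hper : ∀ t, f (t + P) = f t) (hf : ∀ t, |f t| ≤ 1) (n : ℕ) :
    |∑ t ∈ range n, f t - n * ((∑ t ∈ range P, f t) / P)| ≤ 2 * P := by
  have hP0 : (0 : ℝ) < P := by exact_mod_cast hP
  have h1 : n = P * (n / P) + n % P := (Nat.div_add_mod n P).symm
  have h2 : ∑ t ∈ range n, f t = (n / P : ℕ) * (∑ t ∈ range P, f t) + ∑ t ∈ range (n % P), f t := by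
    conv_lhs => rw [h1]
    rw [sum_range_add, sum_range_mul]
    have e1 : ∀ b ∈ range (n / P), ∑ a ∈ range P, f (P * b + a) = ∑ a ∈ range P, f a := by
      intro b _
      apply sum_congr rfl
      intro a _
      rw [add_comm, per_add hper]
    rw [sum_congr rfl e1, sum_const, card_range, nsmul_eq_mul]
    congr 1
    apply sum_congr rfl
    intro a _
    rw [add_comm, per_add hper]
  have h3 : |∑ t ∈ range P, f t| ≤ P := by
    refine (abs_sum_le_sum_abs _ _).trans ?_
    refine (sum_le_card_nsmul _ _ 1 fun k _ => hf _).trans ?_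
    rw [card_range, nsmul_eq_mul, mul_one]
  have h4 : |∑ t ∈ range (n % P), f t| ≤ P := by
    refine (abs_sum_le_sum_abs _ _).trans ?_
    refine (sum_le_card_nsmul _ _ 1 fun k _ => hf _).trans ?_
    rw [card_range, nsmul_eq_mul, mul_one]
    exact_mod_cast (Nat.mod_lt n hP).le
  have h5 : ((n % P : ℕ) : ℝ) ≤ P := by exact_mod_cast (Nat.mod_lt n hP).le
  have h6 : (n : ℝ) = P * (n / P : ℕ) + (n % P : ℕ) := by exact_mod_cast h1
  rw [h2, h6]
  set A := ∑ t ∈ range P, f t with hA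
  have h7 : ((n / P : ℕ) : ℝ) * A + ∑ t ∈ range (n % P), f t - (P * ((n / P : ℕ) : ℝ) + ((n % P : ℕ) : ℝ)) * (A / P) =
      ∑ t ∈ range (n % P), f t - ((n % P : ℕ) : ℝ) / P * A := by
    field_simp
    ring
  rw [h7]
  refine (abs_sub _ _).trans ?_
  have h8 : |((n % P : ℕ) : ℝ) / P * A| ≤ P := by
    rw [abs_mul, abs_of_nonneg (by positivity)]
    calc ((n % P : ℕ) : ℝ) / P * |A| ≤ 1 * P := by
          apply mul_le_mul _ h3 (abs_nonneg _) zero_le_one
          rw [div_le_one hP0]; exact h5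
      _ = P := one_mul _
  linarith

/-- incomplete sums of a product of functions with prime periods -/
lemma per_prod_inc {S : Finset ℕ} (hS : ∀ p ∈ S, p.Prime) {f : ℕ → ℕ → ℝ}
    (hper : ∀ p ∈ S, ∀ t, f p (t + p) = f p t) (hf : ∀ p ∈ S, ∀ t, |f p t| ≤ 1) (n : ℕ) :
    |∑ t ∈ range n, ∏ p ∈ S, f p t - n * ∏ p ∈ S, ((∑ t ∈ range p, f p t) / p)| ≤ 2 * ∏ p ∈ S, (p : ℝ) := by
  have hpos : 0 < ∏ p ∈ S, p := prod_pos fun p hp => (hS p hp).pos
  have h1 := per_inc hpos (f := fun t => ∏ p ∈ S, f p t) (per_prod_per hper) (fun t => by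
    rw [abs_prod]
    exact prod_le_one (fun _ _ => abs_nonneg _) fun p hp => hf p hp t) n
  rw [per_prod hS hper] at h1
  rw [prod_div_distrib]
  push_cast at h1
  exact h1

end Pool.Agent.P8H13.PK
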