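import Pool.Agent.P8H13.PK.Pair
import Pool.Agent.P8H13.PK.Avg

/-!
# First and second moments of the number of translates consisting of primes
-/

set_option autoImplicit false

namespace Pool.Agent.P8H13.PK

open Finset

/-- the shifts up to `y` in the class of `a0` modulo `W` -/
def Acl (W y a0 : ℕ) : Finset ℕ := (range (y + 1)).filter (fun a => a % W = a0 % W)

lemma mem_Acl {W y a0 a : ℕ} : a ∈ Acl W y a0 ↔ a ≤ y ∧ a % W = a0 % W := by
  unfold Acl; rw [mem_filter, mem_range, Nat.lt_succ_iff]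

lemma card_Acl {W : ℕ} (hW : 0 < W) (y a0 : ℕ) :
    ((Acl W y a0).card : ℝ) ≤ ((y : ℝ) + 1) / W + 1 ∧ ((y : ℝ) + 1) / W - 1 ≤ (Acl W y a0).card := by
  have h1 : (Acl W y a0).card = Nat.count (· ≡ a0 [MOD W]) (y + 1) := by
    rw [Nat.count_eq_card_filter_range]
    rfl
  rw [Nat.count_modEq_card _ hW] at h1
  have hW0 : (0 : ℝ) < W := by exact_mod_cast hW
  have h2 : (((y + 1) / W : ℕ) : ℝ) ≤ ((y : ℝ) + 1) / W := by
    have := Nat.cast_div_le (α := ℝ) (m := y + 1) (n := W)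
    push_cast at this
    exact this
  have h3 : ((y : ℝ) + 1) / W < (((y + 1) / W : ℕ) : ℝ) + 1 := by
    rw [div_lt_iff₀ hW0]
    have := Nat.lt_div_mul_add hW (a := y + 1)
    have h' : ((y + 1 : ℕ) : ℝ) < (((y + 1) / W * W + W : ℕ) : ℝ) := by exact_mod_cast this
    push_cast at h'
    linarith
  rw [h1]
  push_cast
  constructor
  · split_ifs <;> push_cast <;> linarith
  · split_ifs <;> push_cast <;> linarith

/-- first moment of one factor -/
lemma first_one {W : ℕ} (y a0 n : ℕ) (hn : 1 ≤ n) :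
    ∑ a ∈ Acl W y a0, th (n + a) = ps W (n + a0) (n + y) - ps W (n + a0) (n - 1) := by
  have hsub : (Icc 1 (n - 1)).filter (fun m => m ≡ n + a0 [MOD W]) ⊆
      (Icc 1 (n + y)).filter (fun m => m ≡ n + a0 [MOD W]) := by
    intro m hm
    rw [mem_filter, mem_Icc] at hm ⊢
    exact ⟨⟨hm.1.1, by omega⟩, hm.2⟩
  unfold ps
  rw [← sum_sdiff hsub, add_sub_cancel_right]
  apply sum_nbij' (i := fun a => n + a) (j := fun m => m - n)
  · intro a ha
    rw [mem_Acl] at ha
    rw [mem_sdiff, mem_filter, mem_filter, mem_Icc, mem_Icc]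
    refine ⟨⟨⟨by omega, by omega⟩, ?_⟩, ?_⟩
    · exact Nat.ModEq.add_left n ha.2
    · rintro ⟨⟨_, h2⟩, _⟩
      omega
  · intro m hm
    rw [mem_sdiff, mem_filter, mem_filter, mem_Icc, mem_Icc] at hm
    obtain ⟨⟨⟨hm1, hm2⟩, hm3⟩, hm4⟩ := hm
    have hnm : n ≤ m := by
      by_contra hcon
      exact hm4 ⟨⟨hm1, by omega⟩, hm3⟩
    rw [mem_Acl]
    refine ⟨by omega, ?_⟩
    have h5 : n + (m - n) ≡ n + a0 [MOD W] := by rw [Nat.add_sub_cancel' hnm]; exact hm3
    exact Nat.ModEq.add_left_cancel' n h5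
  · intro a _
    simp
  · intro m hm
    rw [mem_sdiff, mem_filter, mem_filter, mem_Icc, mem_Icc] at hm
    obtain ⟨⟨⟨hm1, hm2⟩, hm3⟩, hm4⟩ := hm
    have hnm : n ≤ m := by
      by_contra hcon
      exact hm4 ⟨⟨hm1, by omega⟩, hm3⟩
    exact Nat.add_sub_cancel' hnm
  · intro a _
    rfl

/-- second moment of one factor, off the diagonal -/
lemma second_one {W : ℕ} (hW : 0 < W) (y a0 n h T : ℕ) (hT : n + W * h + y < W * T) :
    ∑ a ∈ Acl W y a0, th (n + a) * th (n + W * h + a) ≤ rb W ((n + a0) % W) T h := by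
  unfold rb
  set b := (n + a0) % W with hb
  have hcl : ∀ a ∈ Acl W y a0, n + a = b + W * ((n + a) / W) := by
    intro a ha
    rw [mem_Acl] at ha
    have h1 : (n + a) % W = b := Nat.ModEq.add_left n ha.2
    have h2 := Nat.mod_add_div (n + a) W
    rw [h1] at h2
    exact h2.symm
  have hinj : Set.InjOn (fun a => (n + a) / W) (Acl W y a0 : Set ℕ) := by
    intro a ha a' ha' hh
    rw [mem_coe] at ha ha'
    have h1 := hcl a ha
    have h2 := hcl a' ha'
    simp only at hh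
    rw [hh] at h1
    omega
  have h1 : ∑ a ∈ Acl W y a0, th (n + a) * th (n + W * h + a) =
      ∑ a ∈ Acl W y a0, (fun t => th (b + W * t) * th (b + W * (t + h))) ((n + a) / W) := by
    apply sum_congr rfl
    intro a ha
    have h2 := hcl a ha
    simp only
    rw [← h2]
    congr 2
    rw [mul_add, ← add_assoc, ← h2]
    ring
  rw [h1, ← sum_image (f := fun t => th (b + W * t) * th (b + W * (t + h))) hinj]
  apply sum_le_sum_of_subset_of_nonneg
  · intro t ht
    rw [mem_image] at ht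
    obtain ⟨a, ha, rfl⟩ := ht
    have h2 := hcl a ha
    rw [mem_Acl] at ha
    rw [mem_range]
    have h3 : W * ((n + a) / W + h) < W * T := by
      rw [mul_add]
      omega
    have h4 := Nat.lt_of_mul_lt_mul_left h3
    omega
  · intro t _ _
    exact mul_nonneg (th_nonneg _) (th_nonneg _)

/-- the weighted number of `n = c + W s`, `s < S`, with `n + a i` prime for all `i` -/
noncomputable def ZZ {k : ℕ} (W S c : ℕ) (a : Fin k → ℕ) : ℝ := ∑ s ∈ range S, ∏ i, th (c + W * s + a i)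

lemma ZZ_nonneg {k : ℕ} (W S c : ℕ) (a : Fin k → ℕ) : 0 ≤ ZZ W S c a :=
  sum_nonneg fun _ _ => prod_nonneg fun _ _ => th_nonneg _

lemma moment_one {k : ℕ} (W S c y : ℕ) (al : Fin k → ℕ) :
    ∑ a ∈ Fintype.piFinset (fun i => Acl W y (al i)), ZZ W S c a =
      ∑ s ∈ range S, ∏ i, ∑ a ∈ Acl W y (al i), th (c + W * s + a) := by
  unfold ZZ
  rw [sum_comm]
  apply sum_congr rfl
  intro s _
  rw [prod_univ_sum]

lemma moment_two {k : ℕ} (W S c y : ℕ) (al : Fin k → ℕ) :
    ∑ a ∈ Fintype.piFinset (fun i => Acl W y (al i)), ZZ W S c a ^ 2 =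
      ∑ s ∈ range S, ∑ s' ∈ range S, ∏ i, ∑ a ∈ Acl W y (al i), th (c + W * s + a) * th (c + W * s' + a) := by
  unfold ZZ
  simp_rw [sq, sum_mul_sum]
  rw [sum_comm]
  apply sum_congr rfl
  intro s _
  rw [sum_comm]
  apply sum_congr rfl
  intro s' _
  rw [prod_univ_sum]
  apply sum_congr rfl
  intro a _
  rw [prod_mul_distrib]

/-- Chebyshev's inequality -/
lemma cheb {ι : Type} (A : Finset ι) (Z : ι → ℝ) (z0 V : ℝ) (hz : 0 < z0)
    (hV : ∑ a ∈ A, Z a ^ 2 - 2 * z0 * ∑ a ∈ A, Z a + z0 ^ 2 * A.card ≤ V * z0 ^ 2) :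
    ((A.filter (fun a => Z a ≤ z0 / 2)).card : ℝ) ≤ 4 * V := by
  have h1 : ∑ a ∈ A, (Z a - z0) ^ 2 ≤ V * z0 ^ 2 := by
    refine le_trans (le_of_eq ?_) hV
    have : ∀ a ∈ A, (Z a - z0) ^ 2 = Z a ^ 2 - 2 * z0 * Z a + z0 ^ 2 := fun a _ => by ring
    rw [sum_congr rfl this, sum_add_distrib, sum_sub_distrib, sum_const, ← mul_sum, nsmul_eq_mul]
    ring
  have h2 : ((A.filter (fun a => Z a ≤ z0 / 2)).card : ℝ) * (z0 / 2) ^ 2 ≤ ∑ a ∈ A, (Z a - z0) ^ 2 := by
    rw [← nsmul_eq_mul, ← sum_const]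
    refine le_trans (sum_le_sum fun a ha => ?_) (sum_le_sum_of_subset_of_nonneg (filter_subset _ _) fun _ _ _ => sq_nonneg _)
    rw [mem_filter] at ha
    have : z0 / 2 ≤ z0 - Z a := by linarith [ha.2]
    calc (z0 / 2) ^ 2 ≤ (z0 - Z a) ^ 2 := pow_le_pow_left₀ (by linarith) this 2
      _ = _ := by ring
  have h3 := h2.trans h1
  have h4 : ((A.filter (fun a => Z a ≤ z0 / 2)).card : ℝ) * z0 ^ 2 ≤ (4 * V) * z0 ^ 2 := by nlinarith
  exact le_of_mul_le_mul_right h4 (by positivity)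

/-- two-sided sums over the second index -/
lemma two_sided (f : ℕ → ℕ → ℝ) (g : ℕ → ℝ) (S : ℕ) {s : ℕ} (hs : s < S) (d M M' : ℝ) (hM0 : 0 ≤ M)
    (hd : f s s ≤ d) (hf : ∀ s' < S, s ≠ s' → f s s' ≤ g (if s < s' then s' - s else s - s'))
    (hM : ∀ H < S, ∑ h ∈ Icc 1 H, g h ≤ H * M + M') :
    ∑ s' ∈ range S, f s s' ≤ d + S * M + 2 * M' := by
  have h1 : ∑ s' ∈ range S, f s s' = ∑ s' ∈ range s, f s s' + (f s s + ∑ s' ∈ Ioo s S, f s s') := by
    have e1 : range S = range s ∪ ({s} ∪ Ioo s S) := by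
      ext x
      simp only [mem_range, mem_union, mem_singleton, mem_Ioo]
      omega
    rw [e1, sum_union, sum_union]
    · simp
    · rw [disjoint_left]
      intro x hx hx'
      rw [mem_singleton] at hx
      rw [mem_Ioo] at hx'
      omega
    · rw [disjoint_left]
      intro x hx hx'
      rw [mem_range] at hx
      simp only [mem_union, mem_singleton, mem_Ioo] at hx'
      omega
  have h2 : ∑ s' ∈ range s, f s s' ≤ ∑ h ∈ Icc 1 s, g h := by
    have e1 : ∑ h ∈ Icc 1 s, g h = ∑ s' ∈ range s, g (s - s') := by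
      apply sum_nbij' (i := fun h => s - h) (j := fun s' => s - s')
      · intro h hh; rw [mem_Icc] at hh; rw [mem_range]; omega
      · intro h hh; rw [mem_range] at hh; rw [mem_Icc]; omega
      · intro h hh; rw [mem_Icc] at hh; omega
      · intro h hh; rw [mem_range] at hh; omega
      · intro h hh; rw [mem_Icc] at hh; congr 1; omega
    rw [e1]
    apply sum_le_sum
    intro s' hs'
    rw [mem_range] at hs'
    have := hf s' (by omega) (by omega)
    rwa [if_neg (by omega)] at this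
  have h3 : ∑ s' ∈ Ioo s S, f s s' ≤ ∑ h ∈ Icc 1 (S - 1 - s), g h := by
    have e1 : ∑ h ∈ Icc 1 (S - 1 - s), g h = ∑ s' ∈ Ioo s S, g (s' - s) := by
      apply sum_nbij' (i := fun h => s + h) (j := fun s' => s' - s)
      · intro h hh; rw [mem_Icc] at hh; rw [mem_Ioo]; omega
      · intro h hh; rw [mem_Ioo] at hh; rw [mem_Icc]; omega
      · intro h hh; rw [mem_Icc] at hh; omega
      · intro h hh; rw [mem_Ioo] at hh; omega
      · intro h hh; rw [mem_Icc] at hh; congr 1; omega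
    rw [e1]
    apply sum_le_sum
    intro s' hs'
    rw [mem_Ioo] at hs'
    have := hf s' (by omega) (by omega)
    rwa [if_pos (by omega)] at this
  have h4 := hM s (by omega)
  have h5 := hM (S - 1 - s) (by omega)
  have h6 : ((S - 1 - s : ℕ) : ℝ) = S - 1 - s := by
    rw [Nat.cast_sub (by omega), Nat.cast_sub (by omega)]
    simp
  rw [h6] at h5
  rw [h1]
  have h7 : (s : ℝ) * M + M' + ((S - 1 - s) * M + M') = S * M - M + 2 * M' := by ring
  linarith

end Pool.Agent.P8H13.PK
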