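import Pool.Agent.P8H13.PK.Cls

/-!
# From tuples in classes to admissible sets
-/

set_option autoImplicit false

namespace Pool.Agent.P8H13.PK

open Finset

/-- no prime has all its residue classes occupied -/
def Adm (A : Finset ℕ) : Prop := ∀ p : ℕ, p.Prime → ∃ r : ℕ, ∀ a ∈ A, ¬ a ≡ r [MOD p]

/-- the number of `n ≤ y` with `n + A` consisting of primes -/
noncomputable def cnt (y : ℕ) (A : Finset ℕ) : ℕ := ((Icc 1 y).filter (fun n => ∀ a ∈ A, (n + a).Prime)).card

lemma adm_iff {A : Finset ℕ} {y0 W : ℕ} (hA : A.card ≤ y0) (hW : ∀ p, p.Prime → (p ∣ W ↔ p ≤ y0)) (hW0 : W ≠ 0) :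
    Adm A ↔ ∃ c : ℕ, ∀ a ∈ A, (c + a).Coprime W := by
  constructor
  · intro h
    have hch : ∀ p : ℕ, ∃ r : ℕ, p.Prime → ∀ a ∈ A, ¬ a ≡ r [MOD p] := by
      intro p
      by_cases hp : p.Prime
      · obtain ⟨r, hr⟩ := h p hp
        exact ⟨r, fun _ => hr⟩
      · exact ⟨0, fun h => absurd h hp⟩
    choose r hr using hch
    -- `c ≡ (p - 1) r p` modulo `p`
    obtain ⟨c, hc⟩ := Nat.chineseRemainderOfFinset (fun p => (p - 1) * r p) (fun p => p) W.primeFactors
      (fun p hp => (Nat.prime_of_mem_primeFactors hp).ne_zero) (by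
        intro p hp q hq hpq
        exact (Nat.coprime_primes (Nat.prime_of_mem_primeFactors hp) (Nat.prime_of_mem_primeFactors hq)).2 hpq)
    refine ⟨c, fun a ha => ?_⟩
    by_contra hcon
    obtain ⟨p, hp, hpc, hpW⟩ := Nat.Prime.not_coprime_iff_dvd.1 hcon
    have h1 := hc p (Nat.mem_primeFactors.2 ⟨hp, hpW, hW0⟩)
    apply hr p hp a ha
    -- `a ≡ r p`
    have h2 : c + a ≡ (p - 1) * r p + a [MOD p] := Nat.ModEq.add_right a h1
    have h3 : (p - 1) * r p + a ≡ 0 [MOD p] := h2.symm.trans ((Nat.modEq_zero_iff_dvd).2 hpc)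
    have h4 : (p - 1) * r p + r p ≡ 0 [MOD p] := by
      have : (p - 1) * r p + r p = p * r p := by
        have h5 : (p - 1) * r p + r p = ((p - 1) + 1) * r p := by ring
        rw [h5, Nat.sub_add_cancel hp.one_le]
      rw [this]
      exact (Nat.modEq_zero_iff_dvd).2 (dvd_mul_right _ _)
    exact Nat.ModEq.add_left_cancel' _ (h3.trans h4.symm)
  · rintro ⟨c, hc⟩ p hp
    by_cases hpy : p ≤ y0
    · have hpW := (hW p hp).2 hpy
      refine ⟨(p - 1) * c, fun a ha hcon => ?_⟩
      have h1 : c + a ≡ c + (p - 1) * c [MOD p] := Nat.ModEq.add_left c hcon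
      have h2 : c + (p - 1) * c = p * c := by
        have h5 : c + (p - 1) * c = ((p - 1) + 1) * c := by ring
        rw [h5, Nat.sub_add_cancel hp.one_le]
      rw [h2] at h1
      have h3 : p ∣ c + a := (Nat.modEq_zero_iff_dvd).1 (h1.trans ((Nat.modEq_zero_iff_dvd).2 (dvd_mul_right _ _)))
      have h4 : p ∣ Nat.gcd (c + a) W := Nat.dvd_gcd h3 hpW
      rw [hc a ha] at h4
      exact hp.one_lt.ne' (Nat.dvd_one.mp h4)
    · push Not at hpy
      have h1 : (A.image (fun a => a % p)).card < (range p).card := by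
        rw [card_range]
        exact lt_of_le_of_lt card_image_le (lt_of_le_of_lt hA hpy)
      obtain ⟨r, hr1, hr2⟩ := exists_mem_notMem_of_card_lt_card h1
      refine ⟨r, fun a ha hcon => hr2 ?_⟩
      rw [mem_image]
      refine ⟨a, ha, ?_⟩
      rw [mem_range] at hr1
      have := hcon
      unfold Nat.ModEq at this
      rw [this, Nat.mod_eq_of_lt hr1]

/-- tuples with two equal entries -/
lemma eq_card {k : ℕ} (s : Fin k → Finset ℕ) {i j : Fin k} (hij : i ≠ j) :
    ((Fintype.piFinset s).filter (fun a => a i = a j)).card * (s j).card ≤ (Fintype.piFinset s).card := by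
  rw [← card_product]
  apply card_le_card_of_injOn (fun q : (Fin k → ℕ) × ℕ => Function.update q.1 j q.2)
  · rintro ⟨a, x⟩ hq
    rw [mem_coe, mem_product, mem_filter, Fintype.mem_piFinset] at hq
    rw [mem_coe, Fintype.mem_piFinset]
    intro t
    by_cases ht : t = j
    · subst ht
      simp only [Function.update_self]
      exact hq.2
    · simp only [Function.update_of_ne ht]
      exact hq.1.1 t
  · rintro ⟨a, x⟩ hq ⟨a', x'⟩ hq' hh
    rw [mem_coe, mem_product, mem_filter, Fintype.mem_piFinset] at hq hq'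
    simp only at hh hq hq'
    have hx : x = x' := by
      have := congrFun hh j
      simpa using this
    have hne : ∀ t, t ≠ j → a t = a' t := by
      intro t ht
      have := congrFun hh t
      simpa [Function.update_of_ne ht] using this
    have ha : a = a' := by
      ext t
      by_cases ht : t = j
      · rw [ht, ← hq.1.2, ← hq'.1.2]
        exact hne i hij
      · exact hne t ht
    rw [ha, hx]

/-- tuples which are not injective are rare -/
lemma noninj_card {k : ℕ} (s : Fin k → Finset ℕ) {m : ℝ} (hm : 0 < m) (hs : ∀ j, m ≤ (s j).card) :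
    (((Fintype.piFinset s).filter (fun a => ¬ Function.Injective a)).card : ℝ) * m ≤ (k : ℝ) ^ 2 * (Fintype.piFinset s).card := by
  classical
  have hsub : (Fintype.piFinset s).filter (fun a => ¬ Function.Injective a) ⊆
      ((univ : Finset (Fin k × Fin k)).filter (fun q => q.1 ≠ q.2)).biUnion
        (fun q => (Fintype.piFinset s).filter (fun a => a q.1 = a q.2)) := by
    intro a ha
    rw [mem_filter] at ha
    have h1 := ha.2
    unfold Function.Injective at h1
    push Not at h1
    obtain ⟨i, j, h2, h3⟩ := h1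
    rw [mem_biUnion]
    exact ⟨(i, j), by rw [mem_filter]; exact ⟨mem_univ _, h3⟩, by rw [mem_filter]; exact ⟨ha.1, h2⟩⟩
  have h1 := (card_le_card hsub).trans card_biUnion_le
  have h2 : (((Fintype.piFinset s).filter (fun a => ¬ Function.Injective a)).card : ℝ) ≤
      ∑ q ∈ (univ : Finset (Fin k × Fin k)).filter (fun q => q.1 ≠ q.2),
        (((Fintype.piFinset s).filter (fun a => a q.1 = a q.2)).card : ℝ) := by exact_mod_cast h1
  have h3 : (((Fintype.piFinset s).filter (fun a => ¬ Function.Injective a)).card : ℝ) * m ≤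
      ∑ q ∈ (univ : Finset (Fin k × Fin k)).filter (fun q => q.1 ≠ q.2), ((Fintype.piFinset s).card : ℝ) := by
    refine (mul_le_mul_of_nonneg_right h2 hm.le).trans ?_
    rw [sum_mul]
    apply sum_le_sum
    intro q hq
    rw [mem_filter] at hq
    have h4 := eq_card s hq.2
    have h5 : (((Fintype.piFinset s).filter (fun a => a q.1 = a q.2)).card : ℝ) * (s q.2).card ≤ (Fintype.piFinset s).card := by
      exact_mod_cast h4
    refine le_trans (mul_le_mul_of_nonneg_left (hs q.2) (Nat.cast_nonneg _)) h5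
  refine h3.trans ?_
  rw [sum_const, nsmul_eq_mul]
  apply mul_le_mul_of_nonneg_right _ (Nat.cast_nonneg _)
  have h4 : ((univ : Finset (Fin k × Fin k)).filter (fun q => q.1 ≠ q.2)).card ≤ k ^ 2 := by
    refine (card_filter_le _ _).trans ?_
    rw [card_univ, Fintype.card_prod, Fintype.card_fin, sq]
  exact_mod_cast h4

/-- the number of the enumerations of a set -/
lemma enum_card {k : ℕ} {A : Finset ℕ} (hA : A.card = k) :
    ((Fintype.piFinset (fun _ : Fin k => A)).filter (fun a => Function.Injective a)).card = k.factorial := by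
  classical
  have h1 : Fintype.card (Fin k ↪ A) = k.factorial := by
    rw [Fintype.card_embedding_eq, Fintype.card_coe, Fintype.card_fin, hA, Nat.descFactorial_self]
  rw [← h1, ← card_univ]
  refine card_bij' (fun a ha => ⟨fun i => ⟨a i, ?_⟩, ?_⟩) (fun (e : Fin k ↪ A) _ => fun i => ((e i : A) : ℕ)) ?_ ?_ ?_ ?_
  · rw [mem_filter, Fintype.mem_piFinset] at ha
    exact ha.1 i
  · rw [mem_filter] at ha
    intro i j hij
    exact ha.2 (congrArg Subtype.val hij)
  · intro _ _
    exact mem_univ _
  · intro e _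
    rw [mem_filter, Fintype.mem_piFinset]
    exact ⟨fun i => (e i).2, fun i j hij => e.injective (Subtype.ext hij)⟩
  · intro a _
    rfl
  · intro e _
    rfl

lemma image_eq_iff {k : ℕ} {A : Finset ℕ} (hA : A.card = k) (a : Fin k → ℕ) :
    (Function.Injective a ∧ univ.image a = A) ↔ (Function.Injective a ∧ ∀ i, a i ∈ A) := by
  constructor
  · rintro ⟨h1, h2⟩
    exact ⟨h1, fun i => by rw [← h2]; exact mem_image_of_mem _ (mem_univ _)⟩
  · rintro ⟨h1, h2⟩
    refine ⟨h1, eq_of_subset_of_card_le (fun x hx => ?_) ?_⟩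
    · rw [mem_image] at hx
      obtain ⟨i, _, rfl⟩ := hx
      exact h2 i
    · rw [card_image_of_injective _ h1, card_univ, Fintype.card_fin, hA]

/-- injective tuples with image in a family -/
lemma inj_count {k y : ℕ} (C : Finset (Finset ℕ)) (hC : ∀ A ∈ C, A ⊆ range (y + 1) ∧ A.card = k) :
    ((Fintype.piFinset (fun _ : Fin k => range (y + 1))).filter
      (fun a => Function.Injective a ∧ univ.image a ∈ C)).card = k.factorial * C.card := by
  classical
  rw [card_eq_sum_card_fiberwise (f := fun a => univ.image a) (t := C) (by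
    intro a ha
    rw [mem_coe, mem_filter] at ha
    exact ha.2.2)]
  have h1 : ∀ A ∈ C, (((Fintype.piFinset (fun _ : Fin k => range (y + 1))).filter
      (fun a => Function.Injective a ∧ univ.image a ∈ C)).filter (fun a => univ.image a = A)).card = k.factorial := by
    intro A hA
    rw [← enum_card (hC A hA).2]
    congr 1
    ext a
    rw [mem_filter, mem_filter, mem_filter, Fintype.mem_piFinset, Fintype.mem_piFinset]
    have h2 := image_eq_iff (hC A hA).2 a
    constructor
    · rintro ⟨⟨_, h3, _⟩, h4⟩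
      have := h2.1 ⟨h3, h4⟩
      exact ⟨this.2, this.1⟩
    · rintro ⟨h3, h4⟩
      have := h2.2 ⟨h4, h3⟩
      exact ⟨⟨fun i => (hC A hA).1 (h3 i), h4, by rw [this.2]; exact hA⟩, this.2⟩
  rw [sum_congr rfl h1, sum_const, smul_eq_mul, mul_comm]

end Pool.Agent.P8H13.PK
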